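import Pool.Agent.X218.GX.One2

/-!
# The primes `7` and `31`
-/

set_option autoImplicit false
set_option maxRecDepth 100000

namespace Pool.Agent.X218.GX

open Finset

lemma S_add (e X n k : ℕ) : S e X (n + k) = S e X n + S e (X + n) k := by
  rw [S_eq, S_eq, S_eq, Finset.sum_range_add]
  simp only [add_assoc]

/-- sums in blocks of length `n` -/
def SB (e X n k : ℕ) : ℕ :=
  Nat.rec (motive := fun _ => ℕ) 0 (fun i s => Nat.add s (S e (Nat.add X (Nat.mul n i)) n)) k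

lemma SB_eq (e X n k : ℕ) : SB e X n k = S e X (n * k) := by
  induction k with
  | zero => rfl
  | succ k ih =>
    rw [Nat.mul_succ, S_add, ← ih]
    rfl

/-- the norm of `u + ξ v` -/
def nrm (p u v : ℕ) : ℕ := (u * u + v * v + (p - 1) * (u * v)) % p

/-- the check for the level `3^K`, `p ≡ 4, 7 (mod 9)` -/
def ok3 (p K m : ℕ) : Bool :=
  [1, 4, 7, 10].any fun a => decide (a < 3 ^ (K - 1)) &&
    (nrm p (S (m - 1) (a * ((2 * p + 1) / 3) ^ K % p) ((2 * p + 1) / 3) % p)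
      (S (m - 1) (a * ((2 * p + 1) / 3) ^ K % p) ((p + 2) / 3) % p) != 0)

def ok3all (p L : ℕ) : Bool :=
  decide (p ≤ 3 ^ (L - 1) + 1) && (List.range (L - 1)).all fun K => (List.range (p - 1)).all fun m =>
    decide (m + 1 ≤ 3 ^ K) || (decide (K = 0 ∧ m + 1 = p - 1) || ok3 p (K + 2) (m + 1))

/-- the check for the level `3` -/
def ok4all (p : ℕ) : Bool :=
  (List.range ((p - 3) / 2)).all fun j => S (2 * j + 2) ((p + 2) / 3) ((2 * p + 1) / 3 - (p + 2) / 3) % p != 0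

theorem e7 : ok3all 7 3 = true ∧ ok4all 7 = true ∧ ok0all 7 = true := by decide +kernel
theorem e31 : ok3all 31 5 = true ∧ ok3 31 2 30 = true ∧ ok4all 31 = true ∧ ok0all 31 = true := by decide +kernel

theorem z7 : SB 6 115 19 6 % 7 = 0 ∧ SB 6 115 19 6 % 7 ^ 2 ≠ 0 := by decide +kernel
theorem z31 : SB 30 9931 30 331 % 31 = 0 ∧ SB 30 9931 30 331 % 31 ^ 2 ≠ 0 := by decide +kernel

lemma zz7 : S (7 - 1) 115 (229 - 115) % 7 = 0 ∧ S (7 - 1) 115 (229 - 115) % 7 ^ 2 ≠ 0 := by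
  have h1 : 7 - 1 = 6 := by norm_num
  have h2 : 229 - 115 = 19 * 6 := by norm_num
  rw [h1, h2, ← SB_eq]
  exact z7

lemma zz31 : S (31 - 1) 9931 (19861 - 9931) % 31 = 0 ∧ S (31 - 1) 9931 (19861 - 9931) % 31 ^ 2 ≠ 0 := by
  have h1 : 31 - 1 = 30 := by norm_num
  have h2 : 19861 - 9931 = 30 * 331 := by norm_num
  rw [h1, h2, ← SB_eq]
  exact z31

lemma ok3_spec {p K m : ℕ} (hp3 : p % 3 = 1) (h : ok3 p K m = true) : ∃ a, a < 3 ^ (K - 1) ∧ a % 3 = 1 ∧
    ∃ u v : ℕ, u = S (m - 1) (a * ((2 * p + 1) / 3) ^ K % p) ((2 * p + 1) / 3) % p ∧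
      v = S (m - 1) (a * ((2 * p + 1) / 3) ^ K % p) ((p + 2) / 3) % p ∧
        (u * u + v * v + (p - 1) * (u * v)) % p ≠ 0 := by
  unfold ok3 at h
  rw [List.any_eq_true] at h
  obtain ⟨a, ha, h6⟩ := h
  rw [Bool.and_eq_true, decide_eq_true_eq, bne_iff_ne] at h6
  refine ⟨a, h6.1, ?_, _, _, rfl, rfl, h6.2⟩
  fin_cases ha <;> rfl

theorem big3 {p : ℕ} (hp : p.Prime) (hp9 : p % 9 = 4 ∨ p % 9 = 7) (hp5 : 5 ≤ p) (L : ℕ) (h2 : ok3all p L = true)
    {K m : ℕ} (hK : 2 ≤ K) (hm1 : 1 ≤ m) (hmp : m ≤ p - 1) (hex : (K = 2 ∧ m = p - 1) → ok3 p K m = true)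
    (ψ : DirichletCharacter ℂ (3 ^ K))
    (hprim : ψ.IsPrimitive) (hpar : ψ (-1) = (-1) ^ m) : IsUnitAt p (lValue p m ψ) := by
  refine level_big1 hp hp9 hp5 (one_mul _).symm hK hm1 (by omega) (c := (2 * p + 1) / 3) (c' := (p + 2) / 3) ?_ ?_ ?_ ψ
    (by rw [DirichletCharacter.isPrimitive_def] at hprim; rw [hprim]) hpar
  · have h1 : 3 * ((2 * p + 1) / 3) = 1 + p * 2 := by omega
    rw [h1, Nat.add_mul_mod_self_left]
  · have h1 : 3 * ((p + 2) / 3) = 2 + p := by omega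
    rw [h1, Nat.add_mod_right]
  unfold ok3all at h2
  rw [Bool.and_eq_true, decide_eq_true_eq, List.all_eq_true] at h2
  obtain ⟨hL, h2⟩ := h2
  rcases Nat.lt_or_ge L K with hLK | hLK
  · left
    have : 3 ^ (L - 1) ≤ 3 ^ (K - 2) := Nat.pow_le_pow_right (by norm_num) (by omega)
    omega
  · have h3 := h2 (K - 2) (List.mem_range.2 (by omega))
    rw [List.all_eq_true] at h3
    have h4 := h3 (m - 1) (List.mem_range.2 (by omega))
    have e1 : m - 1 + 1 = m := by omega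
    have e2 : K - 2 + 2 = K := by omega
    rw [e1, e2, Bool.or_eq_true, Bool.or_eq_true, decide_eq_true_eq, decide_eq_true_eq] at h4
    rcases h4 with h4 | h4 | h4
    · exact Or.inl h4
    · exact Or.inr (ok3_spec (by omega) (hex ⟨by omega, h4.2⟩))
    · exact Or.inr (ok3_spec (by omega) h4)

theorem all3 {p : ℕ} (hp : p.Prime) (hp9 : p % 9 = 4 ∨ p % 9 = 7) (hp5 : 5 ≤ p) (L : ℕ) (h2 : ok3all p L = true)
    (h1 : ok4all p = true) (h0 : ok0all p = true)
    {K m : ℕ} (hm1 : 1 ≤ m) (hmp : m ≤ p - 1) (hK0 : K = 0 → m ≠ p - 1) (hK1 : K = 1 → m ≠ 1)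
    (hex : (K = 2 ∧ m = p - 1) → ok3 p K m = true) (ψ : DirichletCharacter ℂ (3 ^ K))
    (hprim : ψ.IsPrimitive) (hpar : ψ (-1) = (-1) ^ m) : IsUnitAt p (lValue p m ψ) := by
  have hodd : p % 2 = 1 := by
    rcases hp.eq_two_or_odd with h | h
    · omega
    · exact h
  rcases Nat.lt_or_ge K 2 with hK | hK
  · rcases Nat.lt_or_ge K 1 with hK' | hK'
    · have hKe : K = 0 := by omega
      subst hKe
      refine level_zero hp hp5 hm1 (by omega) (hK0 rfl) ?_ ψ hpar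
      intro hm2
      unfold ok0all at h0
      rw [List.all_eq_true] at h0
      have := hK0 rfl
      have h3 := h0 (m / 2 - 1) (List.mem_range.2 (by omega))
      rw [bne_iff_ne] at h3
      have e1 : 2 * (m / 2 - 1) + 2 = m := by omega
      rwa [e1] at h3
    · have hKe : K = 1 := by omega
      subst hKe
      have h1m := hK1 rfl
      refine level_one1 hp (by omega) hp5 (by omega) (by omega) (c := (2 * p + 1) / 3) (c' := (p + 2) / 3)
        ?_ ?_ (by omega) ?_ ψ hprim hpar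
      · have h1 : 3 * ((2 * p + 1) / 3) = 1 + p * 2 := by omega
        rw [h1, Nat.add_mul_mod_self_left]
      · have h1 : 3 * ((p + 2) / 3) = 2 + p := by omega
        rw [h1, Nat.add_mod_right]
      intro hm2
      unfold ok4all at h1
      rw [List.all_eq_true] at h1
      have h3 := h1 (m / 2 - 1) (List.mem_range.2 (by omega))
      rw [bne_iff_ne] at h3
      have e1 : 2 * (m / 2 - 1) + 2 = m - 1 := by omega
      rwa [e1] at h3
  · exact big3 hp hp9 hp5 L h2 hK hm1 hmp hex ψ hprim hpar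

end Pool.Agent.X218.GX
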