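import Pool.Agent.X218.GX.Pow2d

/-!
# Checks for the primes `p ≡ 3 (mod 8)`
-/

set_option autoImplicit false
set_option maxRecDepth 100000

namespace Pool.Agent.X218.GX

theorem q179 : okm 179 = true ∧ okh 179 8 = true := by decide +kernel
theorem q227 : okm 227 = true ∧ okh 227 8 = true := by decide +kernel
theorem q251 : okm 251 = true ∧ okh 251 8 = true := by decide +kernel

end Pool.Agent.X218.GX
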