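import Pool.Agent.X218.GX.Pow2d

/-!
# Checks for the primes `p ≡ 3 (mod 8)`
-/

set_option autoImplicit false
set_option maxRecDepth 100000

namespace Pool.Agent.X218.GX

theorem q283 : okl 283 = true ∧ okh 283 9 = true := by decide +kernel
theorem q307 : okm 307 = true ∧ okh 307 9 = true := by decide +kernel

theorem list_eight : ∀ p ∈ List.range 340, p % 8 = 3 → 3 < p →
    p ∈ [11, 19, 43, 59, 67, 83, 107, 131, 139, 163, 179, 211, 227, 251, 283, 307, 331] ∨
    ∃ q ∈ [3, 5, 7, 11, 13, 17], p % q = 0 ∧ q < p := by decide +kernel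

end Pool.Agent.X218.GX
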