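import Pool.Agent.X218.GX.Snd

/-!
# The conductors `2^a 3^b` with `a ≤ 5` or `b ≤ 1`
-/

set_option autoImplicit false
set_option maxRecDepth 20000

namespace Pool.Agent.X218.GX

open Finset
open Pool.Agent.Y18.GX

/-- the discrete logarithms modulo `32` -/
def lt (x : ℕ) : ℕ := Nat.mod (Nat.shiftRight 409797534298822693704814658908156367718978026527 (Nat.mul 5 (Nat.mod x 32))) 32

def powz (z i : ℕ) : ℕ := Nat.rec (motive := fun _ => ℕ) 1 (fun _ w => mul25 4 4 w z) i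

/-- the values of the character modulo `2^a` -/
def psiC (z e x : ℕ) : ℕ :=
  bif Nat.beq (Nat.mod x 2) 0 then 0 else
    mul25 4 4 (bif Nat.beq (Nat.div (lt x) 8) 1 then e else 1) (powz z (Nat.mod (lt x) 8))

def xi (t : ℕ) : ℕ := bif Nat.beq t 0 then 1 else bif Nat.beq t 1 then 5 else 24

def relc (a z e m R c : ℕ) : ℕ :=
  Nat.rec (motive := fun _ => ℕ) 0 (fun t s => add25 s (smul25
    (Nat.mod (Fm m (Nat.mod ((c + R * t) * (2 ^ a * 3 * R) ^ 3) 5)) 5)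
    (mul25 4 4 (psiC z e (c + R * t)) (xi (Nat.mod t 3))))) (2 ^ a * 3)

def Zl (a : ℕ) : List ℕ := match a with | 2 => [1] | 3 => [4] | 4 => [2, 3] | 5 => [11, 22, 8, 19] | _ => []
def El (a : ℕ) : List ℕ := match a with | 2 => [4] | _ => [1, 4]

theorem okc_true : ∀ a ∈ [2, 3, 4, 5], ∀ z ∈ Zl a, ∀ e ∈ El a, ∀ m ∈ [1, 2, 3, 4], ∀ r ∈ List.range 8,
    relc a z e m (3 ^ r % 160) 1 ≠ 0 ∨ relc a z e m (3 ^ r % 160) 4 ≠ 0 := by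
  decide +kernel

theorem okb_true : ∀ a ∈ [2, 3, 4, 5], ∀ z ∈ Zl a, ∀ e ∈ El a, ∀ m ∈ [1, 2, 3, 4], ¬ (a = 2 ∧ m = 4) →
    relc a z e m 3 1 ≠ 0 := by
  decide +kernel

def psi3 (b x : ℕ) : ℕ := bif Nat.beq b 0 then 1 else bif Nat.beq (Nat.mod x 3) 0 then 0 else
  bif Nat.beq (Nat.mod x 3) 1 then 1 else 4

def relp (b i m R c : ℕ) : ℕ :=
  Nat.rec (motive := fun _ => ℕ) 0 (fun t s => s + psi3 b (c + R * t) * i ^ (t % 4) *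
    (Fm m (((c + R * t) * (4 * 3 ^ b * R) ^ 3) % 5) % 5)) (3 ^ b * 4)

theorem okp_true : ∀ b ∈ [0, 1], ∀ i ∈ [2, 3], ∀ m ∈ [1, 2, 3, 4], ∀ r ∈ List.range 4,
    relp b i m (2 ^ r % 15) 1 % 5 ≠ 0 ∨ relp b i m (2 ^ r % 15) 5 % 5 ≠ 0 := by
  decide +kernel

theorem okq_true : ∀ b ∈ [0, 1], ∀ i ∈ [2, 3], ∀ m ∈ [1, 2, 3, 4], ¬ (b = 0 ∧ m = 2) → ¬ (b = 1 ∧ m = 3) →
    relp b i m 4 1 % 5 ≠ 0 := by
  decide +kernel

/-- the values of the character modulo `4` or `8` -/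
def psi2 (a d x : ℕ) : ℕ := bif Nat.beq (Nat.mod x 2) 0 then 0 else
  bif Nat.beq a 2 then (bif Nat.beq (Nat.mod x 4) 1 then 1 else 4) else
    (bif Nat.beq (Nat.mod x 8) 1 then 1 else bif Nat.beq (Nat.mod x 8) 3 then d else
      bif Nat.beq (Nat.mod x 8) 5 then 4 else 4 * d)

def reld (a b d m : ℕ) : ℕ :=
  Nat.rec (motive := fun _ => ℕ) 0 (fun x s => s + psi2 a d x * psi3 b x *
    (Fm m ((x * (2 ^ a * 3 ^ b) ^ 3) % 5) % 5)) (2 ^ a * 3 ^ b)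

theorem okd_true : (∀ m ∈ [1, 3], reld 2 0 4 m % 5 ≠ 0) ∧ (∀ m ∈ [2, 4], reld 2 1 4 m % 5 ≠ 0) ∧
    (∀ m ∈ [1, 3], reld 3 0 1 m % 5 ≠ 0) ∧ (∀ m ∈ [2, 4], reld 3 0 4 m % 5 ≠ 0) ∧
    (∀ m ∈ [2, 4], reld 3 1 1 m % 5 ≠ 0) ∧ (∀ m ∈ [1, 3], reld 3 1 4 m % 5 ≠ 0) := by
  decide +kernel

theorem lt_spec : ∀ x < 32, x % 2 = 1 → x = 31 ^ (lt x / 8) * 5 ^ (lt x % 8) % 32 ∧ lt x / 8 < 2 := by
  decide +kernel

end Pool.Agent.X218.GX
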