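import Pool.Agent.X218.GX.Cases

/-!
# The conductors `2^a 3^b` with `2 ≤ a ≤ 5`, `b ≥ 2`
-/

set_option autoImplicit false

namespace Pool.Agent.X218.GX

open Finset
open Pool.Agent.Y18.GX

section
variable {k : Type*} [Field k] [CharP k 5]

lemma pow_unit {a : ℕ} (ha : 2 ≤ a) (ha5 : a ≤ 5) (x : ZMod (2 ^ a)) (hx : IsUnit x) : x ^ 5 ^ 2 = x := by
  interval_cases a
  · have h : ∀ x : ZMod (2 ^ 2), IsUnit x → x ^ 5 ^ 2 = x := by decide +kernel
    exact h x hx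
  · have h : ∀ x : ZMod (2 ^ 3), IsUnit x → x ^ 5 ^ 2 = x := by decide +kernel
    exact h x hx
  · have h : ∀ x : ZMod (2 ^ 4), IsUnit x → x ^ 5 ^ 2 = x := by decide +kernel
    exact h x hx
  · have h : ∀ x : ZMod (2 ^ 5), IsUnit x → x ^ 5 ^ 2 = x := by decide +kernel
    exact h x hx

lemma char_pow {a : ℕ} (ha : 2 ≤ a) (ha5 : a ≤ 5) (ψ : MulChar (ZMod (2 ^ a)) k) (x : ZMod (2 ^ a)) :
    ψ x ^ 5 ^ 2 = ψ x := by
  by_cases hx : IsUnit x
  · rw [← map_pow, pow_unit ha ha5 x hx]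
  · rw [ψ.map_nonunit hx, zero_pow (by norm_num)]

lemma eq_one_or {x : k} (h : x ^ 2 = 1) : x = 1 ∨ x = -1 := by
  have h3 : (x - 1) * (x + 1) = 0 := by linear_combination h
  rcases mul_eq_zero.1 h3 with h | h
  · exact Or.inl (sub_eq_zero.1 h)
  · exact Or.inr (eq_neg_of_add_eq_zero_left h)

lemma eq_two_or {x : k} (h : x ^ 2 = -1) : x = 2 ∨ x = 3 := by
  have h5 : (5 : k) = 0 := five
  have h3 : (x - 2) * (x - 3) = 0 := by linear_combination h + (1 - x) * h5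
  rcases mul_eq_zero.1 h3 with h | h
  · exact Or.inl (sub_eq_zero.1 h)
  · exact Or.inr (sub_eq_zero.1 h)

/-- the code of `ψ₁ 5` -/
lemma code_zeta {a : ℕ} (ha : 2 ≤ a) (ha5 : a ≤ 5) (ψ₁ : MulChar (ZMod (2 ^ a)) k)
    (hprim₁ : ψ₁ ((1 + 2 ^ (a - 1) : ℕ) : ZMod (2 ^ a)) ≠ 1) {ξ : k} (hξ : ξ ^ 2 = (4 : ℕ) * ξ + (4 : ℕ)) :
    ∃ z ∈ Zl a, val ξ z = ψ₁ ((5 : ℕ) : ZMod (2 ^ a)) := by
  have h5 : (5 : k) = 0 := five
  have hη2 : ψ₁ ((1 + 2 ^ (a - 1) : ℕ) : ZMod (2 ^ a)) ^ 2 = 1 := by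
    have := psi_M_pow ψ₁ (n := 1) (by omega)
    rwa [pow_one] at this
  have hη := (eq_one_or hη2).resolve_left hprim₁
  push_cast at hξ
  interval_cases a
  · refine ⟨1, by simp [Zl], ?_⟩
    have : ((5 : ℕ) : ZMod (2 ^ 2)) = 1 := by decide +kernel
    rw [this, map_one]
    simp [val]
  · refine ⟨4, by simp [Zl], ?_⟩
    have : ((1 + 2 ^ (3 - 1) : ℕ) : ZMod (2 ^ 3)) = ((5 : ℕ) : ZMod (2 ^ 3)) := by norm_num
    rw [this] at hη
    rw [hη]
    simp [val]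
    linear_combination h5
  · have : ((1 + 2 ^ (4 - 1) : ℕ) : ZMod (2 ^ 4)) = ((5 : ℕ) : ZMod (2 ^ 4)) ^ 2 := by decide +kernel
    rw [this, map_pow] at hη
    rcases eq_two_or hη with h | h
    · exact ⟨2, by simp [Zl], by rw [h]; simp [val]⟩
    · exact ⟨3, by simp [Zl], by rw [h]; simp [val]⟩
  · have : ((1 + 2 ^ (5 - 1) : ℕ) : ZMod (2 ^ 5)) = ((5 : ℕ) : ZMod (2 ^ 5)) ^ 4 := by decide +kernel
    rw [this, map_pow] at hη
    set y := ψ₁ ((5 : ℕ) : ZMod (2 ^ 5)) with hy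
    have h4 : (y ^ 2) ^ 2 = -1 := by rw [← pow_mul]; exact hη
    rcases eq_two_or h4 with h | h
    · have h6 : (y - (1 + 2 * ξ)) * (y + (1 + 2 * ξ)) = 0 := by
        linear_combination h - 4 * hξ - (4 * ξ + 3) * h5
      rcases mul_eq_zero.1 h6 with h7 | h7
      · refine ⟨11, by simp [Zl], ?_⟩
        simp [val]
        linear_combination -h7
      · refine ⟨19, by simp [Zl], ?_⟩
        simp [val]
        linear_combination -h7 + (1 + ξ) * h5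
    · have h6 : (y - 2 * (1 + 2 * ξ)) * (y + 2 * (1 + 2 * ξ)) = 0 := by
        linear_combination h - 16 * hξ - (16 * ξ + 13) * h5
      rcases mul_eq_zero.1 h6 with h7 | h7
      · refine ⟨22, by simp [Zl], ?_⟩
        simp [val]
        linear_combination -h7
      · refine ⟨8, by simp [Zl], ?_⟩
        simp [val]
        linear_combination -h7 + (1 + ξ) * h5

/-- the code of `ψ₁ (-1)` -/
lemma code_eps {a : ℕ} (ha : 2 ≤ a) (ha5 : a ≤ 5) (ψ₁ : MulChar (ZMod (2 ^ a)) k)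
    (hprim₁ : ψ₁ ((1 + 2 ^ (a - 1) : ℕ) : ZMod (2 ^ a)) ≠ 1) (ξ : k) :
    ∃ e ∈ El a, val ξ e = ψ₁ ((31 : ℕ) : ZMod (2 ^ a)) := by
  have h5 : (5 : k) = 0 := five
  have h31 : ((31 : ℕ) : ZMod (2 ^ a)) ^ 2 = 1 := by
    interval_cases a <;> decide +kernel
  have h2 : ψ₁ ((31 : ℕ) : ZMod (2 ^ a)) ^ 2 = 1 := by rw [← map_pow, h31, map_one]
  have v1 : val ξ 1 = 1 := by simp [val]
  have v4 : val ξ 4 = -1 := by
    simp [val]
    linear_combination h5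
  by_cases ha2 : a = 2
  · subst ha2
    refine ⟨4, by simp [El], ?_⟩
    have : ((1 + 2 ^ (2 - 1) : ℕ) : ZMod (2 ^ 2)) = ((31 : ℕ) : ZMod (2 ^ 2)) := by decide +kernel
    rw [this] at hprim₁
    rw [v4, (eq_one_or h2).resolve_left hprim₁]
  · have hEl : El a = [1, 4] := by
      unfold El
      split
      · exact absurd rfl ha2
      · rfl
    rw [hEl]
    rcases eq_one_or h2 with h | h
    · exact ⟨1, by simp, by rw [v1, h]⟩
    · exact ⟨4, by simp, by rw [v4, h]⟩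

lemma val_powz {ξ : k} (hξ : ξ ^ 2 = (4 : ℕ) * ξ + (4 : ℕ)) (z i : ℕ) : val ξ (powz z i) = val ξ z ^ i := by
  induction i with
  | zero => simp [powz, val]
  | succ i ih =>
    have : powz z (i + 1) = mul25 4 4 (powz z i) z := rfl
    rw [this, val_mul hξ, ih, pow_succ]

lemma val_psiC {a : ℕ} (ha : 2 ≤ a) (ha5 : a ≤ 5) (ψ₁ : MulChar (ZMod (2 ^ a)) k)
    {ξ : k} (hξ : ξ ^ 2 = (4 : ℕ) * ξ + (4 : ℕ)) {z e : ℕ} (hz : val ξ z = ψ₁ ((5 : ℕ) : ZMod (2 ^ a)))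
    (he : val ξ e = ψ₁ ((31 : ℕ) : ZMod (2 ^ a))) (x : ℕ) : val ξ (psiC z e x) = ψ₁ ((x : ℕ) : ZMod (2 ^ a)) := by
  by_cases hx : x % 2 = 0
  · have e1 : psiC z e x = 0 := by
      unfold psiC
      have : Nat.beq (Nat.mod x 2) 0 = true := by
        change Nat.beq (x % 2) 0 = true
        rw [hx]
        rfl
      rw [this]
      rfl
    have e2 : ψ₁ ((x : ℕ) : ZMod (2 ^ a)) = 0 := by
      apply ψ₁.map_nonunit
      rw [ZMod.isUnit_iff_coprime]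
      intro h
      have h2 : 2 ∣ Nat.gcd x (2 ^ a) := Nat.dvd_gcd (Nat.dvd_of_mod_eq_zero hx) (dvd_pow_self 2 (by omega))
      rw [h] at h2
      omega
    rw [e1, e2]
    simp [val]
  · have e1 : psiC z e x = mul25 4 4 (bif Nat.beq (Nat.div (lt x) 8) 1 then e else 1) (powz z (Nat.mod (lt x) 8)) := by
      unfold psiC
      have : Nat.beq (Nat.mod x 2) 0 = false := by
        change Nat.beq (x % 2) 0 = false
        have : x % 2 = 1 := by omega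
        rw [this]
        rfl
      rw [this]
      rfl
    have hlt : lt x = lt (x % 32) := by
      unfold lt
      have : Nat.mod x 32 = Nat.mod (x % 32) 32 := (Nat.mod_mod x 32).symm
      rw [this]
    obtain ⟨s1, s2⟩ := lt_spec (x % 32) (Nat.mod_lt _ (by norm_num)) (by omega)
    rw [← hlt] at s1 s2
    have s3 : x ≡ 31 ^ (lt x / 8) * 5 ^ (lt x % 8) [MOD 32] := s1
    have s4 : ((x : ℕ) : ZMod (2 ^ a)) = ((31 : ℕ) : ZMod (2 ^ a)) ^ (lt x / 8) * ((5 : ℕ) : ZMod (2 ^ a)) ^ (lt x % 8) := by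
      have s5 : x ≡ 31 ^ (lt x / 8) * 5 ^ (lt x % 8) [MOD 2 ^ a] :=
        s3.of_dvd ((pow_dvd_pow 2 ha5).trans (by norm_num))
      have s6 := (ZMod.natCast_eq_natCast_iff _ _ _).2 s5
      rw [s6]
      push_cast
      rfl
    have e3 : val ξ (bif Nat.beq (Nat.div (lt x) 8) 1 then e else 1) = ψ₁ ((31 : ℕ) : ZMod (2 ^ a)) ^ (lt x / 8) := by
      have : lt x / 8 = 0 ∨ lt x / 8 = 1 := by omega
      rcases this with h | h
      · have h' : Nat.beq (Nat.div (lt x) 8) 1 = false := by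
          change Nat.beq (lt x / 8) 1 = false
          rw [h]
          rfl
        rw [h', h, pow_zero]
        simp [val]
      · have h' : Nat.beq (Nat.div (lt x) 8) 1 = true := by
          change Nat.beq (lt x / 8) 1 = true
          rw [h]
          rfl
        rw [h', h, pow_one]
        exact he
    rw [e1, val_mul hξ, val_powz hξ, e3, hz, s4, map_mul, map_pow, map_pow]
    rfl

lemma val_xi {ξ : k} (hξ : ξ ^ 2 = (4 : ℕ) * ξ + (4 : ℕ)) (h3 : ξ ^ 3 = 1) (t : ℕ) : val ξ (xi (Nat.mod t 3)) = ξ ^ t := by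
  have h5 : (5 : k) = 0 := five
  have e1 : ξ ^ t = ξ ^ (t % 3) := by
    conv_lhs => rw [← Nat.div_add_mod t 3, pow_add, pow_mul, h3, one_pow, one_mul]
  rw [e1]
  change val ξ (xi (t % 3)) = ξ ^ (t % 3)
  have : t % 3 = 0 ∨ t % 3 = 1 ∨ t % 3 = 2 := by omega
  rcases this with h | h | h <;> rw [h]
  · have x0 : xi 0 = 1 := rfl
    rw [x0]
    simp [val]
  · have x1 : xi 1 = 5 := rfl
    rw [x1]
    simp [val]
  · have x2 : xi 2 = 24 := rfl
    rw [x2, hξ]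
    simp [val]
    ring

lemma three_pow_mod (j : ℕ) : 3 ^ j % 160 = 3 ^ (j % 8) % 160 := by
  conv_lhs => rw [← Nat.div_add_mod j 8, pow_add, pow_mul, Nat.mul_mod, Nat.pow_mod]
  norm_num

theorem c2 {a b m : ℕ} (ψ₁ : MulChar (ZMod (2 ^ a)) k) (ψ₂ : MulChar (ZMod (3 ^ b)) k)
    (ha : 2 ≤ a) (ha5 : a ≤ 5) (hb : 2 ≤ b) (hm1 : 1 ≤ m) (hm4 : m ≤ 4) (hex : ¬ (a = 2 ∧ b = 2 ∧ m = 4))
    (hprim₁ : ψ₁ ((1 + 2 ^ (a - 1) : ℕ) : ZMod (2 ^ a)) ≠ 1)
    (hprim₂ : ψ₂ ((1 + 3 ^ (b - 1) : ℕ) : ZMod (3 ^ b)) ≠ 1)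
    (hpar : ψ₁ (-1) * ψ₂ (-1) = (-1) ^ m) :
    ∑ x ∈ range (2 ^ a * 3 ^ b), ψ₁ (x : ZMod (2 ^ a)) * ψ₂ (x : ZMod (3 ^ b)) *
      Polynomial.aeval ((x : k) / (2 ^ a * 3 ^ b : ℕ)) (FF m) ≠ 0 := by
  intro hS
  have : Fact (Nat.Prime 5) := ⟨by norm_num⟩
  have h5 : (5 : k) = 0 := five
  set ξ := ψ₂ ((1 + 3 ^ (b - 1) : ℕ) : ZMod (3 ^ b)) with hξd
  have hξ3 : ξ ^ 3 = 1 := by
    have := psi_M_pow ψ₂ (n := 1) (by omega)
    rwa [pow_one] at this
  have hξ : ξ ^ 2 = (4 : ℕ) * ξ + (4 : ℕ) := by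
    have h1 : (ξ - 1) * (ξ ^ 2 + ξ + 1) = 0 := by linear_combination hξ3
    have h2 := (mul_eq_zero.1 h1).resolve_left (sub_ne_zero.2 hprim₂)
    push_cast
    linear_combination h2 - (ξ + 1) * h5
  have hnat : ∀ n : ℕ, ξ ≠ n := by
    intro n hn
    have h1 : ((n ^ 2 + n + 1 : ℕ) : k) = 0 := by
      rw [hn] at hξ
      push_cast at hξ ⊢
      linear_combination hξ + ((n : k) + 1) * h5
    rw [CharP.cast_eq_zero_iff k 5] at h1
    have h2 : (n ^ 2 + n + 1) % 5 = 0 := Nat.mod_eq_zero_of_dvd h1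
    have : n % 5 = 0 ∨ n % 5 = 1 ∨ n % 5 = 2 ∨ n % 5 = 3 ∨ n % 5 = 4 := by omega
    rcases this with h | h | h | h | h <;> simp [Nat.add_mod, Nat.pow_mod, h] at h2
  obtain ⟨z, hz, hzv⟩ := code_zeta ha ha5 ψ₁ hprim₁ hξ
  obtain ⟨e, he, hev⟩ := code_eps ha ha5 ψ₁ hprim₁ ξ
  -- the relation for the class `c`
  have hkey : ∀ c, c < 3 ^ (b - 1) → c % 3 = 1 → relc a z e m (3 ^ ((b - 1) % 8) % 160) c = 0 := by
    intro c hc hc3
    have hrel := class_zero (p := 5) (ℓ := 3) (n := 1) (K := b) (N₁ := 2 ^ a) (g := 2) (u := 8) ψ₁ ψ₂ (by norm_num)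
      (Or.inl ⟨rfl, by norm_num⟩) le_rfl (by omega) (by norm_num) (by norm_num) (by norm_num) (char_pow ha ha5 ψ₁)
      hprim₂ (Nat.Coprime.pow_left _ (by norm_num)) (by positivity)
      (by
        push_cast
        exact pow_ne_zero _ (by exact_mod_cast ne_of_not_dvd (k := k) 2 (by norm_num)))
      (ne_of_not_dvd (k := k) 3 (by norm_num)) (FF m) _ (fun x => FF_aeval_refl m x) hpar hS c hc (by rw [pow_one]; exact hc3)
    rw [← hξd] at hrel
    set R := 3 ^ ((b - 1) % 8) % 160 with hR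
    have hR3 : 3 ^ (b - 1) % 160 = R := three_pow_mod _
    have hRmod : 3 ^ (b - 1) ≡ R [MOD 160] := by
      rw [← hR3]
      exact (Nat.mod_modEq _ _).symm
    have hRk : ((3 ^ (b - 1) : ℕ) : k) = (R : k) :=
      (CharP.cast_eq_iff_mod_eq k 5).2 (hRmod.of_dvd (by norm_num))
    have hD : ((2 ^ a * 3 * R : ℕ) : k) ≠ 0 := by
      rw [Nat.cast_mul, ← hRk, ← Nat.cast_mul]
      apply ne_of_not_dvd
      intro h
      have h1 : Nat.Coprime 5 (2 ^ a * 3 * 3 ^ (b - 1)) :=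
        Nat.Coprime.mul_right (Nat.Coprime.mul_right (Nat.Coprime.pow_right _ (by norm_num)) (by norm_num))
          (Nat.Coprime.pow_right _ (by norm_num))
      have h2 := Nat.eq_one_of_dvd_coprimes h1 dvd_rfl h
      norm_num at h2
    have hD4 : ((2 ^ a * 3 * R : ℕ) : k) ^ 4 = 1 := by
      have h1 : ¬ (2 ^ a * 3 * R) % 5 = 0 := fun h => hD ((CharP.cast_eq_zero_iff k 5 _).2 (Nat.dvd_of_mod_eq_zero h))
      have h2 : (((2 ^ a * 3 * R) ^ 4 : ℕ) : k) = ((1 : ℕ) : k) := by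
        apply (CharP.cast_eq_iff_mod_eq k 5).2
        generalize 2 ^ a * 3 * R = D at h1
        have : D % 5 = 1 ∨ D % 5 = 2 ∨ D % 5 = 3 ∨ D % 5 = 4 := by omega
        rcases this with h | h | h | h <;> rw [Nat.pow_mod, h]
      rw [← Nat.cast_pow, h2, Nat.cast_one]
    have hterm : ∀ t : ℕ, ψ₁ ((c + 3 ^ (b - 1) * t : ℕ) : ZMod (2 ^ a)) * ξ ^ t *
        Polynomial.aeval (((c + 3 ^ (b - 1) * t : ℕ) : k) / (2 ^ a * 3 ^ b : ℕ)) (FF m) =
        val ξ (smul25 (Nat.mod (Fm m (Nat.mod ((c + R * t) * (2 ^ a * 3 * R) ^ 3) 5)) 5)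
          (mul25 4 4 (psiC z e (c + R * t)) (xi (Nat.mod t 3)))) := by
      intro t
      have e1 : ((c + 3 ^ (b - 1) * t : ℕ) : ZMod (2 ^ a)) = ((c + R * t : ℕ) : ZMod (2 ^ a)) := by
        rw [ZMod.natCast_eq_natCast_iff]
        exact ((hRmod.of_dvd ((pow_dvd_pow 2 ha5).trans (by norm_num))).mul_right t).add_left c
      have e2 : ((c + 3 ^ (b - 1) * t : ℕ) : k) / (2 ^ a * 3 ^ b : ℕ) =
          ((((c + R * t) * (2 ^ a * 3 * R) ^ 3) % 5 : ℕ) : k) := by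
        rw [cast_mod5]
        have e3 : ((2 ^ a * 3 ^ b : ℕ) : k) = ((2 ^ a * 3 * R : ℕ) : k) := by
          have : 2 ^ a * 3 ^ b = 2 ^ a * 3 * 3 ^ (b - 1) := by
            rw [mul_assoc, ← pow_succ']
            congr 2
            omega
          rw [this, Nat.cast_mul, hRk, ← Nat.cast_mul]
        have e4 : ((c + 3 ^ (b - 1) * t : ℕ) : k) = ((c + R * t : ℕ) : k) := by
          rw [Nat.cast_add, Nat.cast_mul, hRk]
          push_cast
          rfl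
        rw [e3, e4, div_eq_iff hD, Nat.cast_mul, Nat.cast_pow, mul_assoc, ← pow_succ, hD4, mul_one]
      have e5 : ((Nat.mod (Fm m (Nat.mod ((c + R * t) * (2 ^ a * 3 * R) ^ 3) 5)) 5 : ℕ) : k) =
          ((Fm m (((c + R * t) * (2 ^ a * 3 * R) ^ 3) % 5) : ℕ) : k) := cast_mod5 _
      rw [val_smul, val_mul hξ, val_psiC ha ha5 ψ₁ hξ hzv hev, val_xi hξ hξ3, e1, e2, Fm_spec hm1 hm4, e5]
      ring
    simp only [hterm] at hrel
    have hsum : ∀ n : ℕ, val ξ (Nat.rec (motive := fun _ => ℕ) 0 (fun t s => add25 s (smul25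
        (Nat.mod (Fm m (Nat.mod ((c + R * t) * (2 ^ a * 3 * R) ^ 3) 5)) 5)
        (mul25 4 4 (psiC z e (c + R * t)) (xi (Nat.mod t 3))))) n) =
        ∑ t ∈ range n, val ξ (smul25 (Nat.mod (Fm m (Nat.mod ((c + R * t) * (2 ^ a * 3 * R) ^ 3) 5)) 5)
          (mul25 4 4 (psiC z e (c + R * t)) (xi (Nat.mod t 3)))) := by
      intro n
      induction n with
      | zero => simp [val]
      | succ n ih =>
        rw [Finset.sum_range_succ, ← ih, ← val_add]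
    rw [pow_one, ← hsum] at hrel
    obtain ⟨n, hn⟩ : ∃ n, 2 ^ a * 3 = n + 1 := ⟨2 ^ a * 3 - 1, by
      have : 0 < 2 ^ a * 3 := by positivity
      omega⟩
    change relc a z e m R c = 0
    have hrel' : val ξ (relc a z e m R c) = 0 := hrel
    unfold relc at hrel' ⊢
    rw [hn] at hrel' ⊢
    exact mk_eq_zero hnat hrel'
  have ham : a ∈ [2, 3, 4, 5] := by
    have : a = 2 ∨ a = 3 ∨ a = 4 ∨ a = 5 := by omega
    simpa using this
  have hmm : m ∈ [1, 2, 3, 4] := by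
    have : m = 1 ∨ m = 2 ∨ m = 3 ∨ m = 4 := by omega
    simpa using this
  rcases Nat.lt_or_ge b 3 with h3 | h3
  · have hb2 : b = 2 := by omega
    subst hb2
    have h1 := hkey 1 (by norm_num) (by norm_num)
    exact okb_true a ham z hz e he m hmm (fun h => hex ⟨h.1, rfl, h.2⟩) h1
  · have h9 : 3 ^ 2 ≤ 3 ^ (b - 1) := Nat.pow_le_pow_right (by norm_num) (by omega)
    rcases okc_true a ham z hz e he m hmm ((b - 1) % 8) (List.mem_range.2 (Nat.mod_lt _ (by norm_num))) with h | h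
    · exact h (hkey 1 (by omega) (by norm_num))
    · exact h (hkey 4 (by omega) (by norm_num))

end

end Pool.Agent.X218.GX
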