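import Pool.Agent.X218.GX.Cases2

/-!
# The conductors `2^a 3^b` with `b ≤ 1`, and the Euler factors
-/

set_option autoImplicit false

namespace Pool.Agent.X218.GX

open Finset
open Pool.Agent.Y18.GX

lemma sub30 (x y : ZMod (3 ^ 0)) : x = y := Subsingleton.elim (α := ZMod 1) x y

section
variable {k : Type*} [Field k] [CharP k 5]

lemma val_psi3 {b : ℕ} (hb : b ≤ 1) (ψ : MulChar (ZMod (3 ^ b)) k)
    (h3 : b = 1 → ψ ((2 : ℕ) : ZMod (3 ^ b)) ≠ 1) (x : ℕ) : ψ ((x : ℕ) : ZMod (3 ^ b)) = ((psi3 b x : ℕ) : k) := by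
  have h5 : (5 : k) = 0 := five
  interval_cases b
  · have : ((x : ℕ) : ZMod (3 ^ 0)) = 1 := sub30 _ _
    rw [this, map_one]
    have e : psi3 0 x = 1 := rfl
    rw [e, Nat.cast_one]
  · have h2 := h3 rfl
    have h4 : ψ ((2 : ℕ) : ZMod (3 ^ 1)) ^ 2 = 1 := by
      rw [← map_pow]
      have : ((2 : ℕ) : ZMod (3 ^ 1)) ^ 2 = 1 := by decide +kernel
      rw [this, map_one]
    have h6 := (eq_one_or h4).resolve_left h2
    have hx : ((x : ℕ) : ZMod (3 ^ 1)) = ((x % 3 : ℕ) : ZMod (3 ^ 1)) := by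
      rw [ZMod.natCast_eq_natCast_iff]
      exact (Nat.mod_modEq x 3).symm
    have hp : psi3 1 x = psi3 1 (x % 3) := by
      unfold psi3
      have : Nat.mod (x % 3) 3 = Nat.mod x 3 := Nat.mod_mod x 3
      rw [this]
    rw [hx, hp]
    have : x % 3 = 0 ∨ x % 3 = 1 ∨ x % 3 = 2 := by omega
    rcases this with h | h | h <;> rw [h]
    · have e : psi3 1 0 = 0 := rfl
      rw [e, Nat.cast_zero, Nat.cast_zero]
      apply ψ.map_nonunit
      decide +kernel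
    · have e : psi3 1 1 = 1 := rfl
      rw [e, Nat.cast_one, Nat.cast_one, map_one]
    · have e : psi3 1 2 = 4 := rfl
      rw [e, h6]
      push_cast
      linear_combination -h5

lemma two_pow_mod (j : ℕ) : 2 ^ j % 15 = 2 ^ (j % 4) % 15 := by
  conv_lhs => rw [← Nat.div_add_mod j 4, pow_add, pow_mul, Nat.mul_mod, Nat.pow_mod]
  norm_num

lemma pow4_of_ne {D : ℕ} (hD : ((D : ℕ) : k) ≠ 0) : ((D : ℕ) : k) ^ 4 = 1 := by
  have h1 : ¬ D % 5 = 0 := fun h => hD ((CharP.cast_eq_zero_iff k 5 _).2 (Nat.dvd_of_mod_eq_zero h))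
  have h2 : ((D ^ 4 : ℕ) : k) = ((1 : ℕ) : k) := by
    apply (CharP.cast_eq_iff_mod_eq k 5).2
    have : D % 5 = 1 ∨ D % 5 = 2 ∨ D % 5 = 3 ∨ D % 5 = 4 := by omega
    rcases this with h | h | h | h <;> rw [Nat.pow_mod, h]
  rw [← Nat.cast_pow, h2, Nat.cast_one]

theorem c3 {a b m : ℕ} (ψ₁ : MulChar (ZMod (3 ^ b)) k) (ψ₂ : MulChar (ZMod (2 ^ a)) k)
    (hb : b ≤ 1) (ha : 4 ≤ a) (hm1 : 1 ≤ m) (hm4 : m ≤ 4) (hex1 : ¬ (a = 4 ∧ b = 0 ∧ m = 2))
    (hex2 : ¬ (a = 4 ∧ b = 1 ∧ m = 3)) (h3 : b = 1 → ψ₁ ((2 : ℕ) : ZMod (3 ^ b)) ≠ 1)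
    (hprim₂ : ψ₂ ((1 + 2 ^ (a - 1) : ℕ) : ZMod (2 ^ a)) ≠ 1)
    (hpar : ψ₁ (-1) * ψ₂ (-1) = (-1) ^ m) :
    ∑ x ∈ range (3 ^ b * 2 ^ a), ψ₁ (x : ZMod (3 ^ b)) * ψ₂ (x : ZMod (2 ^ a)) *
      Polynomial.aeval ((x : k) / (3 ^ b * 2 ^ a : ℕ)) (FF m) ≠ 0 := by
  intro hS
  have : Fact (Nat.Prime 5) := ⟨by norm_num⟩
  have h5 : (5 : k) = 0 := five
  set i := ψ₂ ((1 + 2 ^ (a - 2) : ℕ) : ZMod (2 ^ a)) with hid
  have hη2 : ψ₂ ((1 + 2 ^ (a - 1) : ℕ) : ZMod (2 ^ a)) ^ 2 = 1 := by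
    have := psi_M_pow ψ₂ (n := 1) (by omega)
    rwa [pow_one] at this
  have hη := (eq_one_or hη2).resolve_left hprim₂
  have hi2 : i ^ 2 = -1 := by
    have h1 := psi_M_pow' ψ₂ (n := 2) (by omega) (by norm_num)
    rw [hη] at h1
    exact h1
  have hi4 : i ^ 4 = 1 := by
    rw [show 4 = 2 * 2 by norm_num, pow_mul, hi2]
    ring
  obtain ⟨iN, hiN, hiv⟩ : ∃ iN ∈ [2, 3], ((iN : ℕ) : k) = i := by
    rcases eq_two_or hi2 with h | h
    · exact ⟨2, by simp, by rw [h]; norm_num⟩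
    · exact ⟨3, by simp, by rw [h]; norm_num⟩
  have hψ₁ : ∀ x, ψ₁ x ^ 5 ^ 1 = ψ₁ x := by
    have hh : ∀ x : ZMod (3 ^ b), IsUnit x → x ^ 5 ^ 1 = x := by
      interval_cases b
      · intro x _
        exact sub30 _ _
      · decide +kernel
    intro x
    by_cases hx : IsUnit x
    · rw [← map_pow, hh x hx]
    · rw [ψ₁.map_nonunit hx, zero_pow (by norm_num)]
  -- the relation for the class `c`
  have hkey : ∀ c, c < 2 ^ (a - 2) → c % 4 = 1 → relp b iN m (2 ^ ((a - 2) % 4) % 15) c % 5 = 0 := by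
    intro c hc hc4
    have hrel := class_zero (p := 5) (ℓ := 2) (n := 2) (K := a) (N₁ := 3 ^ b) (g := 1) (u := 1) ψ₁ ψ₂ (by norm_num)
      (Or.inr ⟨rfl, by norm_num⟩) (by norm_num) (by omega) (by norm_num) (by norm_num) (by norm_num) hψ₁
      hprim₂ (Nat.Coprime.pow_left _ (by norm_num)) (by positivity)
      (by
        push_cast
        exact pow_ne_zero _ (by exact_mod_cast ne_of_not_dvd (k := k) 3 (by norm_num)))
      (ne_of_not_dvd (k := k) 2 (by norm_num)) (FF m) _ (fun x => FF_aeval_refl m x) hpar hS c hc hc4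
    rw [← hid] at hrel
    set R := 2 ^ ((a - 2) % 4) % 15 with hR
    have hR3 : 2 ^ (a - 2) % 15 = R := two_pow_mod _
    have hRmod : 2 ^ (a - 2) ≡ R [MOD 15] := by
      rw [← hR3]
      exact (Nat.mod_modEq _ _).symm
    have hRk : ((2 ^ (a - 2) : ℕ) : k) = (R : k) :=
      (CharP.cast_eq_iff_mod_eq k 5).2 (hRmod.of_dvd (by norm_num))
    have hN : 3 ^ b * 2 ^ a = 4 * 3 ^ b * 2 ^ (a - 2) := by
      have : 2 ^ a = 2 ^ (a - 2) * 2 ^ 2 := by rw [← pow_add]; congr 1; omega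
      rw [this]
      ring
    have hD : ((4 * 3 ^ b * R : ℕ) : k) ≠ 0 := by
      rw [Nat.cast_mul, ← hRk, ← Nat.cast_mul]
      apply ne_of_not_dvd
      intro h
      have h1 : Nat.Coprime 5 (4 * 3 ^ b * 2 ^ (a - 2)) :=
        Nat.Coprime.mul_right (Nat.Coprime.mul_right (by norm_num) (Nat.Coprime.pow_right _ (by norm_num)))
          (Nat.Coprime.pow_right _ (by norm_num))
      have h2 := Nat.eq_one_of_dvd_coprimes h1 dvd_rfl h
      norm_num at h2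
    have hD4 := pow4_of_ne hD
    have hterm : ∀ t : ℕ, ψ₁ ((c + 2 ^ (a - 2) * t : ℕ) : ZMod (3 ^ b)) * i ^ t *
        Polynomial.aeval (((c + 2 ^ (a - 2) * t : ℕ) : k) / (3 ^ b * 2 ^ a : ℕ)) (FF m) =
        ((psi3 b (c + R * t) * iN ^ (t % 4) * (Fm m (((c + R * t) * (4 * 3 ^ b * R) ^ 3) % 5) % 5) : ℕ) : k) := by
      intro t
      have e1 : ((c + 2 ^ (a - 2) * t : ℕ) : ZMod (3 ^ b)) = ((c + R * t : ℕ) : ZMod (3 ^ b)) := by
        rw [ZMod.natCast_eq_natCast_iff]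
        exact ((hRmod.of_dvd ((pow_dvd_pow 3 hb).trans (by norm_num))).mul_right t).add_left c
      have e2 : ((c + 2 ^ (a - 2) * t : ℕ) : k) / (3 ^ b * 2 ^ a : ℕ) =
          ((((c + R * t) * (4 * 3 ^ b * R) ^ 3) % 5 : ℕ) : k) := by
        rw [cast_mod5]
        have e3 : ((3 ^ b * 2 ^ a : ℕ) : k) = ((4 * 3 ^ b * R : ℕ) : k) := by
          rw [hN, Nat.cast_mul, hRk, ← Nat.cast_mul]
        have e4 : ((c + 2 ^ (a - 2) * t : ℕ) : k) = ((c + R * t : ℕ) : k) := by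
          rw [Nat.cast_add, Nat.cast_mul, hRk]
          push_cast
          rfl
        rw [e3, e4, div_eq_iff hD, Nat.cast_mul, Nat.cast_pow, mul_assoc, ← pow_succ, hD4, mul_one]
      have e5 : i ^ t = i ^ (t % 4) := by
        conv_lhs => rw [← Nat.div_add_mod t 4, pow_add, pow_mul, hi4, one_pow, one_mul]
      rw [e1, e2, Fm_spec hm1 hm4, val_psi3 hb ψ₁ h3, e5, Nat.cast_mul, Nat.cast_mul, cast_mod5, Nat.cast_pow, hiv]
    simp only [hterm] at hrel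
    have hsum : ∀ n : ℕ, ((Nat.rec (motive := fun _ => ℕ) 0 (fun t s => s + psi3 b (c + R * t) * iN ^ (t % 4) *
        (Fm m (((c + R * t) * (4 * 3 ^ b * R) ^ 3) % 5) % 5)) n : ℕ) : k) =
        ∑ t ∈ range n, ((psi3 b (c + R * t) * iN ^ (t % 4) *
          (Fm m (((c + R * t) * (4 * 3 ^ b * R) ^ 3) % 5) % 5) : ℕ) : k) := by
      intro n
      induction n with
      | zero => simp
      | succ n ih =>
        rw [Finset.sum_range_succ, ← ih, ← Nat.cast_add]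
    rw [← hsum] at hrel
    exact Nat.mod_eq_zero_of_dvd ((CharP.cast_eq_zero_iff k 5 _).1 hrel)
  have hbm : b ∈ [0, 1] := by
    have : b = 0 ∨ b = 1 := by omega
    simpa using this
  have hmm : m ∈ [1, 2, 3, 4] := by
    have : m = 1 ∨ m = 2 ∨ m = 3 ∨ m = 4 := by omega
    simpa using this
  rcases Nat.lt_or_ge a 5 with h4 | h4
  · have ha4 : a = 4 := by omega
    subst ha4
    have h1 := hkey 1 (by norm_num) (by norm_num)
    exact okq_true b hbm iN hiN m hmm (fun h => hex1 ⟨rfl, h.1, h.2⟩) (fun h => hex2 ⟨rfl, h.1, h.2⟩) h1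
  · have h9 : 2 ^ 3 ≤ 2 ^ (a - 2) := Nat.pow_le_pow_right (by norm_num) (by omega)
    rcases okp_true b hbm iN hiN m hmm ((a - 2) % 4) (List.mem_range.2 (Nat.mod_lt _ (by norm_num))) with h | h
    · exact h (hkey 1 (by omega) (by norm_num))
    · exact h (hkey 5 (by omega) (by norm_num))

/-! ## The conductors `4`, `8`, `12`, `24` -/

lemma neg_one_ne_one : (-1 : k) ≠ 1 := by
  intro h
  have : ((2 : ℕ) : k) = 0 := by push_cast; linear_combination -h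
  exact ne_of_not_dvd 2 (by norm_num) this

lemma psi2_mod {a d x : ℕ} (ha : a = 2 ∨ a = 3) : psi2 a d x = psi2 a d (x % 8) := by
  have e1 : Nat.mod (x % 8) 2 = Nat.mod x 2 := by
    change x % 8 % 2 = x % 2
    omega
  have e2 : Nat.mod (x % 8) 4 = Nat.mod x 4 := by
    change x % 8 % 4 = x % 4
    omega
  have e3 : Nat.mod (x % 8) 8 = Nat.mod x 8 := by
    change x % 8 % 8 = x % 8
    omega
  unfold psi2
  rw [e1, e2, e3]

lemma val_psi2 {a : ℕ} (ha : a = 2 ∨ a = 3) (ψ : MulChar (ZMod (2 ^ a)) k)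
    (hprim : ψ ((1 + 2 ^ (a - 1) : ℕ) : ZMod (2 ^ a)) ≠ 1) {d : ℕ} (hd : ((d : ℕ) : k) = ψ ((3 : ℕ) : ZMod (2 ^ a)))
    (x : ℕ) : ψ ((x : ℕ) : ZMod (2 ^ a)) = ((psi2 a d x : ℕ) : k) := by
  have h5 : (5 : k) = 0 := five
  have hη2 : ψ ((1 + 2 ^ (a - 1) : ℕ) : ZMod (2 ^ a)) ^ 2 = 1 := by
    have := psi_M_pow ψ (n := 1) (by omega)
    rwa [pow_one] at this
  have hη := (eq_one_or hη2).resolve_left hprim
  have hx : ((x : ℕ) : ZMod (2 ^ a)) = ((x % 8 : ℕ) : ZMod (2 ^ a)) := by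
    rw [ZMod.natCast_eq_natCast_iff]
    have : x ≡ x % 8 [MOD 8] := (Nat.mod_modEq x 8).symm
    refine this.of_dvd ?_
    rcases ha with rfl | rfl <;> norm_num
  rw [hx, psi2_mod ha]
  have hlt : x % 8 < 8 := Nat.mod_lt _ (by norm_num)
  generalize x % 8 = y at hlt
  have hev : ∀ y : ℕ, y % 2 = 0 → ψ ((y : ℕ) : ZMod (2 ^ a)) = 0 := by
    intro y hy
    apply ψ.map_nonunit
    rw [ZMod.isUnit_iff_coprime]
    intro h
    have h2 : 2 ∣ Nat.gcd y (2 ^ a) := Nat.dvd_gcd (Nat.dvd_of_mod_eq_zero hy) (dvd_pow_self 2 (by omega))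
    rw [h] at h2
    omega
  rcases ha with rfl | rfl
  · have h3 : ψ ((3 : ℕ) : ZMod (2 ^ 2)) = -1 := by
      have : ((1 + 2 ^ (2 - 1) : ℕ) : ZMod (2 ^ 2)) = ((3 : ℕ) : ZMod (2 ^ 2)) := by decide +kernel
      rwa [this] at hη
    have h1 : ψ ((1 : ℕ) : ZMod (2 ^ 2)) = 1 := by rw [Nat.cast_one, map_one]
    have h5' : ψ ((5 : ℕ) : ZMod (2 ^ 2)) = 1 := by
      have : ((5 : ℕ) : ZMod (2 ^ 2)) = 1 := by decide +kernel
      rw [this, map_one]
    have h7 : ψ ((7 : ℕ) : ZMod (2 ^ 2)) = -1 := by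
      have : ((7 : ℕ) : ZMod (2 ^ 2)) = ((3 : ℕ) : ZMod (2 ^ 2)) := by decide +kernel
      rw [this, h3]
    interval_cases y
    · rw [hev 0 (by norm_num)]; simp [psi2]
    · rw [h1]
      have : psi2 2 d 1 = 1 := rfl
      rw [this]; simp
    · rw [hev 2 (by norm_num)]; simp [psi2]
    · rw [h3]
      have : psi2 2 d 3 = 4 := rfl
      rw [this]; push_cast; linear_combination -h5
    · rw [hev 4 (by norm_num)]; simp [psi2]
    · rw [h5']
      have : psi2 2 d 5 = 1 := rfl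
      rw [this]; simp
    · rw [hev 6 (by norm_num)]; simp [psi2]
    · rw [h7]
      have : psi2 2 d 7 = 4 := rfl
      rw [this]; push_cast; linear_combination -h5
  · have h5' : ψ ((5 : ℕ) : ZMod (2 ^ 3)) = -1 := by
      have : ((1 + 2 ^ (3 - 1) : ℕ) : ZMod (2 ^ 3)) = ((5 : ℕ) : ZMod (2 ^ 3)) := by decide +kernel
      rwa [this] at hη
    have h1 : ψ ((1 : ℕ) : ZMod (2 ^ 3)) = 1 := by rw [Nat.cast_one, map_one]
    have h7 : ψ ((7 : ℕ) : ZMod (2 ^ 3)) = - (d : k) := by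
      have : ((7 : ℕ) : ZMod (2 ^ 3)) = ((3 : ℕ) : ZMod (2 ^ 3)) * ((5 : ℕ) : ZMod (2 ^ 3)) := by decide +kernel
      rw [this, map_mul, h5', ← hd]
      ring
    interval_cases y
    · rw [hev 0 (by norm_num)]; simp [psi2]
    · rw [h1]
      have : psi2 3 d 1 = 1 := rfl
      rw [this]; simp
    · rw [hev 2 (by norm_num)]; simp [psi2]
    · rw [← hd]
      have : psi2 3 d 3 = d := rfl
      rw [this]
    · rw [hev 4 (by norm_num)]; simp [psi2]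
    · rw [h5']
      have : psi2 3 d 5 = 4 := rfl
      rw [this]; push_cast; linear_combination -h5
    · rw [hev 6 (by norm_num)]; simp [psi2]
    · rw [h7]
      have : psi2 3 d 7 = 4 * d := rfl
      rw [this]; push_cast; linear_combination -(d : k) * h5

theorem c1 {a b m : ℕ} (ψ₁ : MulChar (ZMod (2 ^ a)) k) (ψ₂ : MulChar (ZMod (3 ^ b)) k)
    (ha : a = 2 ∨ a = 3) (hb : b ≤ 1) (hm1 : 1 ≤ m) (hm4 : m ≤ 4)
    (h3 : b = 1 → ψ₂ ((2 : ℕ) : ZMod (3 ^ b)) ≠ 1)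
    (hprim₁ : ψ₁ ((1 + 2 ^ (a - 1) : ℕ) : ZMod (2 ^ a)) ≠ 1)
    (hpar : ψ₁ (-1) * ψ₂ (-1) = (-1) ^ m) :
    ∑ x ∈ range (2 ^ a * 3 ^ b), ψ₁ (x : ZMod (2 ^ a)) * ψ₂ (x : ZMod (3 ^ b)) *
      Polynomial.aeval ((x : k) / (2 ^ a * 3 ^ b : ℕ)) (FF m) ≠ 0 := by
  intro hS
  have h5 : (5 : k) = 0 := five
  have hη2 : ψ₁ ((1 + 2 ^ (a - 1) : ℕ) : ZMod (2 ^ a)) ^ 2 = 1 := by
    have := psi_M_pow ψ₁ (n := 1) (by omega)
    rwa [pow_one] at this
  have hη := (eq_one_or hη2).resolve_left hprim₁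
  -- the value at `3`
  have h32 : ψ₁ ((3 : ℕ) : ZMod (2 ^ a)) ^ 2 = 1 := by
    rw [← map_pow]
    have : ((3 : ℕ) : ZMod (2 ^ a)) ^ 2 = 1 := by
      rcases ha with rfl | rfl <;> decide +kernel
    rw [this, map_one]
  obtain ⟨d, hd, hdv⟩ : ∃ d ∈ [1, 4], ((d : ℕ) : k) = ψ₁ ((3 : ℕ) : ZMod (2 ^ a)) := by
    rcases eq_one_or h32 with h | h
    · exact ⟨1, by simp, by rw [h, Nat.cast_one]⟩
    · exact ⟨4, by simp, by rw [h]; push_cast; linear_combination h5⟩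
  have hD : ((2 ^ a * 3 ^ b : ℕ) : k) ≠ 0 := by
    apply ne_of_not_dvd
    intro h
    have h1 : Nat.Coprime 5 (2 ^ a * 3 ^ b) :=
      Nat.Coprime.mul_right (Nat.Coprime.pow_right _ (by norm_num)) (Nat.Coprime.pow_right _ (by norm_num))
    have h2 := Nat.eq_one_of_dvd_coprimes h1 dvd_rfl h
    norm_num at h2
  have hD4 := pow4_of_ne hD
  have hterm : ∀ x : ℕ, ψ₁ (x : ZMod (2 ^ a)) * ψ₂ (x : ZMod (3 ^ b)) *
      Polynomial.aeval ((x : k) / (2 ^ a * 3 ^ b : ℕ)) (FF m) =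
      ((psi2 a d x * psi3 b x * (Fm m ((x * (2 ^ a * 3 ^ b) ^ 3) % 5) % 5) : ℕ) : k) := by
    intro x
    have e2 : ((x : ℕ) : k) / (2 ^ a * 3 ^ b : ℕ) = (((x * (2 ^ a * 3 ^ b) ^ 3) % 5 : ℕ) : k) := by
      rw [cast_mod5, div_eq_iff hD, Nat.cast_mul, Nat.cast_pow, mul_assoc, ← pow_succ, hD4, mul_one]
    rw [e2, Fm_spec hm1 hm4, val_psi3 hb ψ₂ h3, val_psi2 ha ψ₁ hprim₁ hdv, Nat.cast_mul, Nat.cast_mul, cast_mod5]
  simp only [hterm] at hS
  have hsum : ∀ n : ℕ, ((Nat.rec (motive := fun _ => ℕ) 0 (fun x s => s + psi2 a d x * psi3 b x *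
      (Fm m ((x * (2 ^ a * 3 ^ b) ^ 3) % 5) % 5)) n : ℕ) : k) =
      ∑ x ∈ range n, ((psi2 a d x * psi3 b x * (Fm m ((x * (2 ^ a * 3 ^ b) ^ 3) % 5) % 5) : ℕ) : k) := by
    intro n
    induction n with
    | zero => simp
    | succ n ih =>
      rw [Finset.sum_range_succ, ← ih, ← Nat.cast_add]
  rw [← hsum] at hS
  have hkey : reld a b d m % 5 = 0 := Nat.mod_eq_zero_of_dvd ((CharP.cast_eq_zero_iff k 5 _).1 hS)
  -- parities
  have hne := neg_one_ne_one (k := k)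
  have hmod : ∀ s : k, s = (-1) ^ m → (s = 1 → m = 2 ∨ m = 4) ∧ (s = -1 → m = 1 ∨ m = 3) := by
    intro s hs
    constructor
    · intro h
      rw [h] at hs
      have : m = 1 ∨ m = 2 ∨ m = 3 ∨ m = 4 := by omega
      rcases this with rfl | rfl | rfl | rfl
      · exact absurd (by rw [pow_one] at hs; exact hs.symm) hne
      · exact Or.inl rfl
      · exact absurd (by
          have e : (-1 : k) ^ 3 = -1 := by ring
          rw [e] at hs; exact hs.symm) hne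
      · exact Or.inr rfl
    · intro h
      rw [h] at hs
      have : m = 1 ∨ m = 2 ∨ m = 3 ∨ m = 4 := by omega
      rcases this with rfl | rfl | rfl | rfl
      · exact Or.inl rfl
      · exact absurd (by
          have e : (-1 : k) ^ 2 = 1 := by ring
          rw [e] at hs; exact hs) hne
      · exact Or.inr rfl
      · exact absurd (by
          have e : (-1 : k) ^ 4 = 1 := by ring
          rw [e] at hs; exact hs) hne
  obtain ⟨hpe, hpo⟩ := hmod _ hpar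
  obtain ⟨o1, o2, o3, o4, o5, o6⟩ := okd_true
  have hb0 : b = 0 → ψ₂ (-1) = 1 := by
    rintro rfl
    have : (-1 : ZMod (3 ^ 0)) = 1 := sub30 _ _
    rw [this, map_one]
  have hb1 : b = 1 → ψ₂ (-1) = -1 := by
    rintro rfl
    have h1 : (-1 : ZMod (3 ^ 1)) = ((2 : ℕ) : ZMod (3 ^ 1)) := by decide +kernel
    rw [h1, val_psi3 hb ψ₂ h3]
    have : psi3 1 2 = 4 := rfl
    rw [this]
    push_cast
    linear_combination h5
  rcases ha with rfl | rfl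
  · have ha1 : ψ₁ (-1) = -1 := by
      have : (-1 : ZMod (2 ^ 2)) = ((1 + 2 ^ (2 - 1) : ℕ) : ZMod (2 ^ 2)) := by decide +kernel
      rw [this, hη]
    have hd4 : reld 2 b d m = reld 2 b 4 m := by
      have : ∀ x, psi2 2 d x = psi2 2 4 x := fun x => rfl
      rfl
    rw [hd4] at hkey
    have : b = 0 ∨ b = 1 := by omega
    rcases this with rfl | rfl
    · refine o1 m ?_ hkey
      have := hpo (by rw [ha1, hb0 rfl]; ring)
      simpa using this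
    · refine o2 m ?_ hkey
      have := hpe (by rw [ha1, hb1 rfl]; ring)
      simpa using this
  · have ha1 : ψ₁ (-1) = - ψ₁ ((3 : ℕ) : ZMod (2 ^ 3)) := by
      have : (-1 : ZMod (2 ^ 3)) = ((1 + 2 ^ (3 - 1) : ℕ) : ZMod (2 ^ 3)) * ((3 : ℕ) : ZMod (2 ^ 3)) := by
        decide +kernel
      rw [this, map_mul, hη]
      ring
    have hd' : d = 1 ∨ d = 4 := by simpa using hd
    have hd1 : d = 1 → ψ₁ (-1) = -1 := by
      rintro rfl
      rw [ha1, ← hdv, Nat.cast_one]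
    have hd4 : d = 4 → ψ₁ (-1) = 1 := by
      rintro rfl
      rw [ha1, ← hdv]
      push_cast
      linear_combination -h5
    have : b = 0 ∨ b = 1 := by omega
    rcases this with rfl | rfl
    · rcases hd' with rfl | rfl
      · refine o3 m ?_ hkey
        have := hpo (by rw [hd1 rfl, hb0 rfl]; ring)
        simpa using this
      · refine o4 m ?_ hkey
        have := hpe (by rw [hd4 rfl, hb0 rfl]; ring)
        simpa using this
    · rcases hd' with rfl | rfl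
      · refine o5 m ?_ hkey
        have := hpe (by rw [hd1 rfl, hb1 rfl]; ring)
        simpa using this
      · refine o6 m ?_ hkey
        have := hpo (by rw [hd4 rfl, hb1 rfl]; ring)
        simpa using this

/-! ## The Euler factors -/

lemma eul3 {a b : ℕ} (ψ₁ : MulChar (ZMod (2 ^ a)) k) (ψ₂ : MulChar (ZMod (3 ^ b)) k) (hb : 2 ≤ b)
    (hprim₂ : ψ₂ ((1 + 3 ^ (b - 1) : ℕ) : ZMod (3 ^ b)) ≠ 1) :
    ψ₁ ((5 : ℕ) : ZMod (2 ^ a)) * ψ₂ ((5 : ℕ) : ZMod (3 ^ b)) ≠ 1 := by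
  intro h1
  have hξ3 : ψ₂ ((1 + 3 ^ (b - 1) : ℕ) : ZMod (3 ^ b)) ^ 3 = 1 := by
    have := psi_M_pow ψ₂ (n := 1) (by omega)
    rwa [pow_one] at this
  have e1 : ψ₁ ((5 : ℕ) : ZMod (2 ^ a)) ^ 2 ^ a = 1 := by
    rw [← map_pow]
    have : ((5 : ℕ) : ZMod (2 ^ a)) ^ 2 ^ a = 1 := by
      have h2 := Nat.ModEq.pow_totient (show Nat.Coprime 5 (2 ^ a) from Nat.Coprime.pow_right _ (by norm_num))
      have h3 : (2 ^ a).totient ∣ 2 ^ a := by
        rcases Nat.eq_zero_or_pos a with h | h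
        · subst h
          simp
        · rw [Nat.totient_prime_pow Nat.prime_two h, show 2 - 1 = 1 from rfl, mul_one]
          exact pow_dvd_pow _ (by omega)
      obtain ⟨w, hw⟩ := h3
      have h4 := h2.pow w
      rw [one_pow, ← pow_mul, ← hw] at h4
      have h6 := (ZMod.natCast_eq_natCast_iff _ _ _).2 h4
      push_cast at h6 ⊢
      exact h6
    rw [this, map_one]
  have e2 : ψ₂ ((5 : ℕ) : ZMod (3 ^ b)) ^ 2 ^ a = 1 := by
    have := congrArg (fun z => z ^ 2 ^ a) h1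
    simp only [mul_pow, e1, one_mul, one_pow] at this
    exact this
  obtain ⟨y, hy, hyc⟩ := pow_iter (ℓ := 3) (d := 25) (r := 1) (x := 8) (Or.inl ⟨rfl, by norm_num⟩) (by norm_num)
    (by norm_num) (b - 2)
  have e3 : ψ₂ ((5 : ℕ) : ZMod (3 ^ b)) ^ (2 * 3 ^ (b - 2)) = ψ₂ ((1 + 3 ^ (b - 1) : ℕ) : ZMod (3 ^ b)) ^ y := by
    rw [← psi_one_add ψ₂ (n := 1) (by omega), ← map_pow]
    congr 1
    have h2 : 1 + (b - 2) = b - 1 := by omega
    rw [h2] at hy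
    rw [← hy, pow_mul]
    push_cast
    norm_num
  have e4 : ψ₂ ((1 + 3 ^ (b - 1) : ℕ) : ZMod (3 ^ b)) ^ (y * 2 ^ a) = 1 := by
    rw [pow_mul, ← e3, ← pow_mul, mul_comm, pow_mul, e2, one_pow]
  exact ne_one_of_coprime (ℓ := 3) hprim₂ hξ3 (Nat.Coprime.mul_left hyc (Nat.Coprime.pow_left _ (by norm_num))) e4

lemma eul2 {a b : ℕ} (ψ₁ : MulChar (ZMod (3 ^ b)) k) (ψ₂ : MulChar (ZMod (2 ^ a)) k) (hb : b ≤ 1) (ha : 4 ≤ a)
    (hprim₂ : ψ₂ ((1 + 2 ^ (a - 1) : ℕ) : ZMod (2 ^ a)) ≠ 1) :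
    ψ₁ ((5 : ℕ) : ZMod (3 ^ b)) * ψ₂ ((5 : ℕ) : ZMod (2 ^ a)) ≠ 1 := by
  intro h1
  have hη2 : ψ₂ ((1 + 2 ^ (a - 1) : ℕ) : ZMod (2 ^ a)) ^ 2 = 1 := by
    have := psi_M_pow ψ₂ (n := 1) (by omega)
    rwa [pow_one] at this
  have hη := (eq_one_or hη2).resolve_left hprim₂
  have e1 : ψ₁ ((5 : ℕ) : ZMod (3 ^ b)) ^ 2 = 1 := by
    rw [← map_pow]
    have : ((5 : ℕ) : ZMod (3 ^ b)) ^ 2 = 1 := by
      interval_cases b
      · exact sub30 _ _
      · decide +kernel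
    rw [this, map_one]
  have e2 : ψ₂ ((5 : ℕ) : ZMod (2 ^ a)) ^ 2 = 1 := by
    have := congrArg (fun z => z ^ 2) h1
    simp only [mul_pow, e1, one_mul, one_pow] at this
    exact this
  obtain ⟨y, hy, hyc⟩ := pow_iter (ℓ := 2) (d := 5) (r := 2) (x := 1) (Or.inr ⟨rfl, by norm_num⟩) (by norm_num)
    (by norm_num) (a - 3)
  have e3 : ψ₂ ((5 : ℕ) : ZMod (2 ^ a)) ^ 2 ^ (a - 3) = ψ₂ ((1 + 2 ^ (a - 1) : ℕ) : ZMod (2 ^ a)) ^ y := by
    rw [← psi_one_add ψ₂ (n := 1) (by omega), ← map_pow]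
    congr 1
    have h2 : 2 + (a - 3) = a - 1 := by omega
    rw [h2] at hy
    rw [← hy]
    push_cast
    rfl
  have e4 : ψ₂ ((5 : ℕ) : ZMod (2 ^ a)) ^ 2 ^ (a - 3) = 1 := by
    have : 2 ^ (a - 3) = 2 * 2 ^ (a - 4) := by
      rw [← pow_succ']
      congr 1
      omega
    rw [this, pow_mul, e2, one_pow]
  rw [e4, hη] at e3
  have hyo : Odd y := by
    rw [← Nat.not_even_iff_odd, even_iff_two_dvd]
    exact fun h => by
      have := Nat.dvd_gcd h (dvd_refl 2)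
      rw [hyc] at this
      omega
  rw [hyo.neg_one_pow] at e3
  exact neg_one_ne_one e3.symm

end

end Pool.Agent.X218.GX
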