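import Pool.Agent.X218.GX.Main

/-!
# The finite checks
-/

set_option autoImplicit false
set_option maxRecDepth 100000

namespace Pool.Agent.X218.GX

theorem c5 : ok2all 5 3 = true := by decide +kernel
theorem c11 : ok2all 11 4 = true := by decide +kernel
theorem c23 : ok2all 23 4 = true := by decide +kernel
theorem c29 : ok2all 29 5 = true := by decide +kernel
theorem c41 : ok2all 41 5 = true := by decide +kernel
theorem c47 : ok2all 47 5 = true := by decide +kernel
theorem c59 : ok2all 59 5 = true := by decide +kernel
theorem c83 : ok2all 83 6 = true := by decide +kernel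
theorem c101 : ok2all 101 6 = true := by decide +kernel
theorem c113 : ok2all 113 6 = true := by decide +kernel
theorem c131 : ok2all 131 6 = true := by decide +kernel
theorem c137 : ok2all 137 6 = true := by decide +kernel
theorem c149 : ok2all 149 6 = true := by decide +kernel
theorem c167 : ok2all 167 6 = true := by decide +kernel
theorem c173 : ok2all 173 6 = true := by decide +kernel
theorem c191 : ok2all 191 6 = true := by decide +kernel
theorem c227 : ok2all 227 6 = true := by decide +kernel
theorem c239 : ok2all 239 6 = true := by decide +kernel
theorem c257 : ok2all 257 7 = true := by decide +kernel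
theorem c263 : ok2all 263 7 = true := by decide +kernel
theorem c281 : ok2all 281 7 = true := by decide +kernel
theorem c293 : ok2all 293 7 = true := by decide +kernel

theorem d11 : ok1all 11 = true ∧ ok0all 11 = true := by decide +kernel
theorem d29 : ok1all 29 = true ∧ ok0all 29 = true := by decide +kernel
theorem d41 : ok1all 41 = true ∧ ok0all 41 = true := by decide +kernel
theorem d83 : ok1all 83 = true ∧ ok0all 83 = true := by decide +kernel
theorem d137 : ok1all 137 = true ∧ ok0all 137 = true := by decide +kernel
theorem d167 : ok1all 167 = true ∧ ok0all 167 = true := by decide +kernel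
theorem d173 : ok1all 173 = true ∧ ok0all 173 = true := by decide +kernel
theorem d191 : ok1all 191 = true ∧ ok0all 191 = true := by decide +kernel
theorem d227 : ok1all 227 = true ∧ ok0all 227 = true := by decide +kernel
theorem d239 : ok1all 239 = true ∧ ok0all 239 = true := by decide +kernel

theorem list_primes : ∀ p ∈ List.range 300, (p % 9 = 2 ∨ p % 9 = 5) → 2 < p →
    p ∈ [5, 11, 23, 29, 41, 47, 59, 83, 101, 113, 131, 137, 149, 167, 173, 191, 227, 239, 257, 263, 281, 293] ∨
    ∃ q ∈ [2, 3, 5, 7, 11, 13, 17], p % q = 0 ∧ q < p := by decide +kernel

end Pool.Agent.X218.GX
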