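import Pool.Agent.X218.GX.Pow2d

/-!
# Checks for the primes `p ≡ 3 (mod 8)`
-/

set_option autoImplicit false
set_option maxRecDepth 100000

namespace Pool.Agent.X218.GX

theorem q11 : okm 11 = true ∧ okh 11 4 = true := by decide +kernel
theorem q19 : okm 19 = true ∧ okh 19 5 = true := by decide +kernel
theorem q43 : okm 43 = true ∧ okh 43 6 = true := by decide +kernel
theorem q59 : okm 59 = true ∧ okh 59 6 = true := by decide +kernel
theorem q67 : okm 67 = true ∧ okh 67 7 = true := by decide +kernel
theorem q83 : okm 83 = true ∧ okh 83 7 = true := by decide +kernel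
theorem q107 : okm 107 = true ∧ okh 107 7 = true := by decide +kernel
theorem q131 : okm 131 = true ∧ okh 131 8 = true := by decide +kernel
theorem q139 : okm 139 = true ∧ okh 139 8 = true := by decide +kernel

end Pool.Agent.X218.GX
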