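import Pool.Agent.X218.GX.Ps

/-!
# The classes modulo `3^(K-1)` for primes `p ≡ 2, 5 (mod 9)`
-/

set_option autoImplicit false

namespace Pool.Agent.X218.GX

open Finset Polynomial Pool.Agent.Y18.GX

section
variable {p : ℕ} {k : Type*} [Field k] [CharP k p]

lemma diff_zero (hp : p.Prime) (hp9 : p % 9 = 2 ∨ p % 9 = 5) (hp5 : 5 ≤ p) {K m : ℕ} (hK : 2 ≤ K)
    (χ₁ : MulChar (ZMod 1) k) (χ₂ : MulChar (ZMod (3 ^ K)) k)
    (hprim : χ₂ ((1 + 3 ^ (K - 1) : ℕ) : ZMod (3 ^ K)) ≠ 1) (hpar : χ₁ (-1) * χ₂ (-1) = (-1) ^ m)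
    (hS : ∑ a ∈ range (1 * 3 ^ K), χ₁ (a : ZMod 1) * χ₂ (a : ZMod (3 ^ K)) *
      Polynomial.aeval ((a : k) / (1 * 3 ^ K : ℕ)) (FF m) = 0) (a : ℕ) (ha : a < 2 * 3 ^ (K - 1)) (ha1 : a % 3 = 1) :
    Polynomial.aeval (((a + 3 ^ (K - 1) : ℕ) : k) / (3 ^ K : ℕ)) (FF m) =
      Polynomial.aeval ((a : k) / (3 ^ K : ℕ)) (FF m) := by
  have : Fact p.Prime := ⟨hp⟩
  have hχ : ∀ x : ZMod 1, χ₁ x = 1 := fun x => by rw [Subsingleton.elim x 1, map_one]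
  have hp3 : p % 3 = 2 := by omega
  have h3k : ((3 : ℕ) : k) ≠ 0 := left_ne_zero_of_mul_eq_one (third (k := k) hp3)
  -- `p ^ 2 - 1 = 3 u`
  have hsq : p ^ 2 % 9 = 4 ∨ p ^ 2 % 9 = 7 := by
    rw [Nat.pow_mod]
    rcases hp9 with h | h <;> rw [h] <;> simp
  obtain ⟨u, hu⟩ : ∃ u, p ^ 2 - 1 = 3 ^ 1 * u := ⟨(p ^ 2 - 1) / 3, by omega⟩
  have huc : u.Coprime 3 := by
    rw [Nat.coprime_comm, Nat.Prime.coprime_iff_not_dvd Nat.prime_three]
    rintro ⟨w, hw⟩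
    omega
  -- the equation for `b < 3^(K-1)`
  have key : ∀ b : ℕ, b < 3 ^ (K - 1) → b % 3 = 1 →
      Polynomial.aeval (((b + 3 ^ (K - 1) : ℕ) : k) / (3 ^ K : ℕ)) (FF m) =
        Polynomial.aeval ((b : k) / (3 ^ K : ℕ)) (FF m) ∧
      Polynomial.aeval (((b + 3 ^ (K - 1) * 2 : ℕ) : k) / (3 ^ K : ℕ)) (FF m) =
        Polynomial.aeval ((b : k) / (3 ^ K : ℕ)) (FF m) := by
    intro b hb hb1
    have key := class_zero (p := p) (ℓ := 3) (n := 1) (K := K) (N₁ := 1) (g := 2) (m := m) (u := u) χ₁ χ₂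
      (by omega) (Or.inl ⟨rfl, by omega⟩) le_rfl (by omega) (by norm_num) hu huc
      (fun a => by rw [hχ, one_pow]) hprim (by norm_num) (by norm_num) (by simp) h3k (FF m) _
      (fun x => FF_aeval_refl m x) hpar hS b hb (by simpa using hb1)
    have hξ3 := psi_M_pow (n := 1) χ₂ (by omega)
    rw [pow_one] at hξ3
    simp only [hχ, one_mul, pow_one, Finset.sum_range_succ, Finset.sum_range_zero, zero_add, pow_zero,
      mul_zero, add_zero, mul_one] at key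
    set ξ := χ₂ ((1 + 3 ^ (K - 1) : ℕ) : ZMod (3 ^ K)) with hξ
    have hξ2 : ξ ^ 2 + ξ + 1 = 0 := by
      have h1 : (ξ - 1) * (ξ ^ 2 + ξ + 1) = 0 := by linear_combination hξ3
      rcases mul_eq_zero.1 h1 with h2 | h2
      · exact absurd (sub_eq_zero.1 h2) hprim
      · exact h2
    have hξp : ξ ^ p = ξ ^ 2 := by
      have h1 : p = 3 * (p / 3) + 2 := by omega
      rw [h1, pow_add, pow_mul, hξ3, one_pow, one_mul]
    have f0 := frob_fix (k := k) (p := p) (FF m) b (3 ^ K) 1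
    have f1 := frob_fix (k := k) (p := p) (FF m) (b + 3 ^ (K - 1)) (3 ^ K) 1
    have f2 := frob_fix (k := k) (p := p) (FF m) (b + 3 ^ (K - 1) * 2) (3 ^ K) 1
    rw [pow_one] at f0 f1 f2
    set x0 := Polynomial.aeval ((b : k) / (3 ^ K : ℕ)) (FF m) with hx0
    set x1 := Polynomial.aeval (((b + 3 ^ (K - 1) : ℕ) : k) / (3 ^ K : ℕ)) (FF m) with hx1
    set x2 := Polynomial.aeval (((b + 3 ^ (K - 1) * 2 : ℕ) : k) / (3 ^ K : ℕ)) (FF m) with hx2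
    have e1 : (x0 - x2) + ξ * (x1 - x2) = 0 := by
      linear_combination key - x2 * hξ2
    have e2 : (x0 - x2) + ξ ^ 2 * (x1 - x2) = 0 := by
      have h1 : ((x0 - x2) + ξ * (x1 - x2)) ^ p = 0 := by rw [e1, zero_pow hp.ne_zero]
      rw [add_pow_char, mul_pow, sub_pow_char, sub_pow_char, f0, f1, f2, hξp] at h1
      exact h1
    have e3 : ξ * (ξ - 1) * (x1 - x2) = 0 := by linear_combination e2 - e1
    have hξ0 : ξ ≠ 0 := by
      intro h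
      rw [h] at hξ3
      norm_num at hξ3
    have e4 : x1 - x2 = 0 := by
      rcases mul_eq_zero.1 e3 with h | h
      · exact absurd h (mul_ne_zero hξ0 (sub_ne_zero.2 hprim))
      · exact h
    have e5 : x0 - x2 = 0 := by
      rw [e4, mul_zero, add_zero] at e1
      exact e1
    exact ⟨by linear_combination e4 - e5, by linear_combination -e5⟩
  rcases Nat.lt_or_ge a (3 ^ (K - 1)) with h | h
  · exact (key a h ha1).1
  · obtain ⟨b, rfl⟩ : ∃ b, a = b + 3 ^ (K - 1) := ⟨a - 3 ^ (K - 1), by omega⟩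
    have hM : 3 ^ (K - 1) % 3 = 0 := by
      obtain ⟨L, hL⟩ : ∃ L, K - 1 = L + 1 := ⟨K - 2, by omega⟩
      rw [hL, pow_succ]
      exact Nat.mul_mod_left _ _
    obtain ⟨h1, h2⟩ := key b (by omega) (by omega)
    have h3 : b + 3 ^ (K - 1) + 3 ^ (K - 1) = b + 3 ^ (K - 1) * 2 := by ring
    rw [h3, h2, h1]

/-- the criterion -/
lemma crit (hp : p.Prime) (hp9 : p % 9 = 2 ∨ p % 9 = 5) (hp5 : 5 ≤ p) {K m : ℕ} (hK : 2 ≤ K) (hm1 : 1 ≤ m)
    (hmp : m < p) (a : ℕ) (ha : a < 2 * 3 ^ (K - 1)) (ha1 : a % 3 = 1)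
    (hT : S (m - 1) (a * ((p + 1) / 3) ^ K % p) ((p + 1) / 3) % p ≠ 0)
    (χ₁ : MulChar (ZMod 1) k) (χ₂ : MulChar (ZMod (3 ^ K)) k)
    (hprim : χ₂ ((1 + 3 ^ (K - 1) : ℕ) : ZMod (3 ^ K)) ≠ 1) (hpar : χ₁ (-1) * χ₂ (-1) = (-1) ^ m) :
    ∑ a ∈ range (1 * 3 ^ K), χ₁ (a : ZMod 1) * χ₂ (a : ZMod (3 ^ K)) *
      Polynomial.aeval ((a : k) / (1 * 3 ^ K : ℕ)) (FF m) ≠ 0 := by
  intro hS
  have h1 := diff_zero hp hp9 hp5 hK χ₁ χ₂ hprim hpar hS a ha ha1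
  have hp3 : p % 3 = 2 := by omega
  have h3 := third (k := k) hp3
  have h30 : ((3 : ℕ) : k) ≠ 0 := left_ne_zero_of_mul_eq_one h3
  have h2 : ((a + 3 ^ (K - 1) : ℕ) : k) / ((3 ^ K : ℕ) : k) =
      ((a * ((p + 1) / 3) ^ K % p + (p + 1) / 3 : ℕ) : k) := by
    rw [Nat.cast_add, Nat.cast_add, add_div, div_pow_three hp3]
    congr 1
    rw [div_eq_iff (by push_cast; exact pow_ne_zero _ (by exact_mod_cast h30))]
    obtain ⟨L, rfl⟩ : ∃ L, K = L + 1 := ⟨K - 1, by omega⟩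
    rw [Nat.add_sub_cancel, pow_succ, Nat.cast_mul]
    linear_combination (-((3 ^ L : ℕ) : k)) * h3
  rw [h2, div_pow_three hp3, ← sub_eq_zero, FF_sub m _ _ hm1, CharP.cast_eq_zero_iff k p] at h1
  rcases (hp.dvd_mul).1 h1 with h4 | h4
  · rcases (hp.dvd_mul).1 h4 with h5 | h5
    · have := (hp.dvd_factorial).1 h5
      omega
    · have := Nat.le_of_dvd (by omega) h5
      omega
  · exact hT (Nat.mod_eq_zero_of_dvd h4)

end

end Pool.Agent.X218.GX
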