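import Pool.Agent.X218.GX.Low

/-!
# The main theorem for the levels `3^K`, under finitely many conditions
-/

set_option autoImplicit false

namespace Pool.Agent.X218.GX

open Finset Polynomial
open Pool.Agent.Y18.GX (FF FF_map FF_natDegree zc zc_spec unit_main unit_gen fst snd dec_nat dec_neg snd_prim sum_char
  Adm)

lemma level_big {p : ℕ} (hp : p.Prime) (hp9 : p % 9 = 2 ∨ p % 9 = 5) (hp5 : 5 ≤ p) {K m N : ℕ} (hN : N = 1 * 3 ^ K)
    (hK : 2 ≤ K) (hm1 : 1 ≤ m) (hmp : m < p)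
    (hT : m ≤ 3 ^ (K - 2) ∨ ∃ a, a < 2 * 3 ^ (K - 1) ∧ a % 3 = 1 ∧
      S (m - 1) (a * ((p + 1) / 3) ^ K % p) ((p + 1) / 3) % p ≠ 0)
    (ψ : DirichletCharacter ℂ N) (hc : 3 ^ K ∣ ψ.conductor) (hpar : ψ (-1) = (-1) ^ m) :
    IsUnitAt p (lValue p m ψ) := by
  subst hN
  have hcop : Nat.Coprime 1 (3 ^ K) := Nat.coprime_one_left _
  have hprim := snd_prim hcop Nat.prime_three hK one_ne_zero ψ hc
  have hN1 : 1 * 3 ^ K ≠ 1 := by
    rw [one_mul]
    exact (Nat.one_lt_pow (by omega) (by norm_num)).ne'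
  have hψ1 : ψ ≠ 1 := by
    have : NeZero (1 * 3 ^ K) := ⟨by positivity⟩
    intro h
    rw [h, DirichletCharacter.conductor_one] at hc
    have := Nat.dvd_one.1 hc
    exact (Nat.one_lt_pow (by omega) (by norm_num : 1 < 3)).ne' this
  have hfst : ∀ a, fst hcop ψ a = 1 := fun a => by rw [Subsingleton.elim (α := ZMod 1) a 1, map_one]
  have hsum : ∑ a ∈ range (1 * 3 ^ K), fst hcop ψ (a : ZMod 1) * snd hcop ψ (a : ZMod (3 ^ K)) = 0 := by
    rw [← sum_char (by positivity) ψ hψ1]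
    exact Finset.sum_congr rfl fun a _ => (dec_nat hcop ψ a).symm
  have hp1 : ¬ p ∣ 1 := fun h => by
    have := Nat.dvd_one.1 h
    omega
  by_cases hs : m ≤ 3 ^ (K - 2)
  · have hsq : p ^ 2 % 9 = 4 ∨ p ^ 2 % 9 = 7 := by
      rw [Nat.pow_mod]
      rcases hp9 with h | h <;> rw [h] <;> simp
    obtain ⟨u, hu⟩ : ∃ u, p ^ 2 - 1 = 3 ^ 1 * u := ⟨(p ^ 2 - 1) / 3, by omega⟩
    have huc : u.Coprime 3 := by
      rw [Nat.coprime_comm, Nat.Prime.coprime_iff_not_dvd Nat.prime_three]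
      rintro ⟨w, hw⟩
      omega
    have hsize : m * 1 * 3 ^ (2 * 1) ≤ 3 ^ K := by
      calc m * 1 * 3 ^ (2 * 1) = m * 3 ^ 2 := by ring
        _ ≤ 3 ^ (K - 2) * 3 ^ 2 := Nat.mul_le_mul_right _ hs
        _ = 3 ^ K := by
          rw [← pow_add]
          congr 1
          omega
    have key := unit_main hp (g := 2) (n := 1) (m := m) (fst hcop ψ) (snd hcop ψ) (by omega)
      (Or.inl ⟨rfl, by omega⟩) le_rfl (by omega) (by norm_num) hu huc
      (fun a => by rw [hfst, one_pow]) hprim (by norm_num) hp1 (by omega)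
      (by rw [← dec_neg, hpar]) hm1 hmp hsize hsum
    simp only [← dec_nat] at key
    rw [lValue_eq hN1]
    exact key
  · obtain ⟨a, ha, ha1, hT'⟩ := hT.resolve_left hs
    have h1m : m ≠ 1 := by
      rintro rfl
      exact hs (Nat.one_le_pow _ _ (by norm_num))
    have key := unit_gen hp (g := 2) (m := m) (fst hcop ψ) (snd hcop ψ) Nat.prime_three hK
      (fun a => by rw [hfst, one_pow]) hprim hp1 (by omega)
      (by rw [← dec_neg, hpar]) hm1 hmp
      (fun k _ _ χ₁ χ₂ _ h2 h3 => ⟨crit hp hp9 hp5 hK hm1 hmp a ha ha1 hT' χ₁ χ₂ h2 h3, fun h => absurd h h1m⟩) hsum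
    simp only [← dec_nat] at key
    rw [lValue_eq hN1]
    exact key

/-- the check for the level `3^K` -/
def ok2 (p K m : ℕ) : Bool :=
  [1, 4, 7, 10].any fun a => decide (a < 2 * 3 ^ (K - 1)) &&
    (S (m - 1) (a * ((p + 1) / 3) ^ K % p) ((p + 1) / 3) % p != 0)

/-- the check for the levels `3^2, …, 3^L` -/
def ok2all (p L : ℕ) : Bool :=
  decide (p ≤ 3 ^ (L - 1) + 1) && (List.range (L - 1)).all fun K => (List.range (p - 1)).all fun m =>
    decide (m + 1 ≤ 3 ^ K) || ok2 p (K + 2) (m + 1)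

/-- the check for the level `3` -/
def ok1all (p : ℕ) : Bool :=
  (List.range ((p - 1) / 2)).all fun j => S (2 * j) ((p + 1) / 3) ((p + 1) / 3) % p != 0

/-- the check for the level `1` -/
def ok0all (p : ℕ) : Bool :=
  (List.range ((p - 3) / 2)).all fun j => S (2 * j + 2) 0 p % p ^ 2 != 0

theorem big {p : ℕ} (hp : p.Prime) (hp9 : p % 9 = 2 ∨ p % 9 = 5) (hp5 : 5 ≤ p) (L : ℕ) (h2 : ok2all p L = true)
    {K m : ℕ} (hK : 2 ≤ K) (hm1 : 1 ≤ m) (hmp : m ≤ p - 1) (ψ : DirichletCharacter ℂ (3 ^ K))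
    (hprim : ψ.IsPrimitive) (hpar : ψ (-1) = (-1) ^ m) : IsUnitAt p (lValue p m ψ) := by
  refine level_big hp hp9 hp5 (one_mul _).symm hK hm1 (by omega) ?_ ψ
    (by rw [DirichletCharacter.isPrimitive_def] at hprim; rw [hprim]) hpar
  unfold ok2all at h2
  rw [Bool.and_eq_true, decide_eq_true_eq, List.all_eq_true] at h2
  obtain ⟨hL, h2⟩ := h2
  rcases Nat.lt_or_ge L K with hLK | hLK
  · left
    have : 3 ^ (L - 1) ≤ 3 ^ (K - 2) := Nat.pow_le_pow_right (by norm_num) (by omega)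
    omega
  · have h3 := h2 (K - 2) (List.mem_range.2 (by omega))
    rw [List.all_eq_true] at h3
    have h4 := h3 (m - 1) (List.mem_range.2 (by omega))
    have e1 : m - 1 + 1 = m := by omega
    have e2 : K - 2 + 2 = K := by omega
    rw [e1, e2, Bool.or_eq_true, decide_eq_true_eq] at h4
    refine h4.imp id fun h5 => ?_
    unfold ok2 at h5
    rw [List.any_eq_true] at h5
    obtain ⟨a, ha, h6⟩ := h5
    rw [Bool.and_eq_true, decide_eq_true_eq, bne_iff_ne] at h6
    refine ⟨a, h6.1, ?_, h6.2⟩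
    fin_cases ha <;> rfl

theorem all {p : ℕ} (hp : p.Prime) (hp9 : p % 9 = 2 ∨ p % 9 = 5) (hp5 : 5 ≤ p) (L : ℕ) (h2 : ok2all p L = true)
    (h1 : ok1all p = true) (h0 : ok0all p = true)
    {K m : ℕ} (hm1 : 1 ≤ m) (hmp : m ≤ p - 1) (hK0 : K = 0 → m ≠ p - 1) (ψ : DirichletCharacter ℂ (3 ^ K))
    (hprim : ψ.IsPrimitive) (hpar : ψ (-1) = (-1) ^ m) : IsUnitAt p (lValue p m ψ) := by
  have hodd : p % 2 = 1 := by
    rcases hp.eq_two_or_odd with h | h
    · omega
    · exact h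
  rcases Nat.lt_or_ge K 2 with hK | hK
  · rcases Nat.lt_or_ge K 1 with hK' | hK'
    · have hK1 : K = 0 := by omega
      subst hK1
      refine level_zero hp hp5 hm1 (by omega) (hK0 rfl) ?_ ψ hpar
      intro hm2
      unfold ok0all at h0
      rw [List.all_eq_true] at h0
      have := hK0 rfl
      have h3 := h0 (m / 2 - 1) (List.mem_range.2 (by omega))
      rw [bne_iff_ne] at h3
      have e1 : 2 * (m / 2 - 1) + 2 = m := by omega
      rwa [e1] at h3
    · have hK1 : K = 1 := by omega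
      subst hK1
      refine level_one hp (by omega) hp5 hm1 (by omega) ?_ ψ hprim hpar
      intro hm2
      unfold ok1all at h1
      rw [List.all_eq_true] at h1
      have h3 := h1 (m / 2) (List.mem_range.2 (by omega))
      rw [bne_iff_ne] at h3
      have e1 : 2 * (m / 2) = m - 1 := by omega
      rwa [e1] at h3
  · exact big hp hp9 hp5 L h2 hK hm1 hmp ψ hprim hpar

end Pool.Agent.X218.GX
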