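import Pool.Agent.Y18.GX.Dec

/-!
# Reduction of the values to sums in characteristic `p`
-/

set_option autoImplicit false

namespace Pool.Agent.X218.GX

open Finset Polynomial
open Pool.Agent.Y18.GX (FF FF_eval IsUnitAt unit_of_val val_of_res charP_res liftChar char_mem exists_over nat_val
  red_ne_one)

/-- from the nonvanishing of the sums in characteristic `p` to the values -/
theorem unit_gen2 {p N m : ℕ} (hp : p.Prime) (ψ : MulChar (ZMod N) ℂ) (hpN : ¬ p ∣ N) (hφ : ¬ p ∣ N.totient)
    (hpar : ψ (-1) = (-1) ^ m) (hm1 : 1 ≤ m) (hmp : m < p)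
    (hcore : ∀ (k : Type) [Field k] [CharP k p] (χ : MulChar (ZMod N) k),
      (∀ x, IsUnit x → ψ x ≠ 1 → χ x ≠ 1) → χ (-1) = (-1) ^ m →
      (∑ a ∈ range N, χ (a : ZMod N) * Polynomial.aeval ((a : k) / (N : ℕ)) (FF m) ≠ 0) ∧
      (m = 1 → χ (p : ZMod N) ≠ 1))
    (hsum : ∑ a ∈ range N, ψ (a : ZMod N) = 0) :
    IsUnitAt p ((1 - ψ (p : ZMod N) * (p : ℂ) ^ (m - 1)) *
      ((N : ℂ) ^ (m - 1) * ∑ a ∈ range N, ψ (a : ZMod N) *
        (((Polynomial.bernoulli m).eval ((a : ℚ) / N) : ℚ) : ℂ)) / m) := by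
  have : Fact p.Prime := ⟨hp⟩
  have hN0' : N ≠ 0 := by
    intro h
    rw [h] at hpN
    exact hpN (dvd_zero _)
  have : NeZero N := ⟨hN0'⟩
  have hpm : ¬ p ∣ m := fun h => by
    have := Nat.le_of_dvd (by omega) h
    omega
  have hpf : ¬ p ∣ m.factorial := fun h => by
    have := (hp.dvd_factorial).1 h
    omega
  -- the sum in terms of `FF`
  have hT : ((m.factorial : ℕ) : ℂ) * ∑ a ∈ range N, ψ (a : ZMod N) *
      (((Polynomial.bernoulli m).eval ((a : ℚ) / (N : ℕ)) : ℚ) : ℂ) =
      ∑ a ∈ range N, ψ (a : ZMod N) * aeval ((a : ℂ) / (N : ℕ)) (FF m) := by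
    have h1 : ∀ a : ℕ, aeval ((a : ℂ) / (N : ℕ)) (FF m) = ((m.factorial : ℕ) : ℂ) *
        ((((Polynomial.bernoulli m).eval ((a : ℚ) / (N : ℕ)) : ℚ) : ℂ) - ((_root_.bernoulli m : ℚ) : ℂ)) := by
      intro a
      rw [← FF_eval]
      push_cast
      rfl
    simp only [h1]
    have h2 : ∑ a ∈ range N, ψ (a : ZMod N) * (((m.factorial : ℕ) : ℂ) *
        ((((Polynomial.bernoulli m).eval ((a : ℚ) / (N : ℕ)) : ℚ) : ℂ) - ((_root_.bernoulli m : ℚ) : ℂ))) =
        ((m.factorial : ℕ) : ℂ) * ∑ a ∈ range N, ψ (a : ZMod N) *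
      (((Polynomial.bernoulli m).eval ((a : ℚ) / (N : ℕ)) : ℚ) : ℂ) -
      ((m.factorial : ℕ) : ℂ) * ((_root_.bernoulli m : ℚ) : ℂ) *
        ∑ a ∈ range N, ψ (a : ZMod N) := by
      rw [Finset.mul_sum, Finset.mul_sum, ← Finset.sum_sub_distrib]
      refine Finset.sum_congr rfl fun a _ => ?_
      ring
    rw [h2, hsum, mul_zero, sub_zero]
  set S := ∑ a ∈ range N, ψ (a : ZMod N) *
      (((Polynomial.bernoulli m).eval ((a : ℚ) / (N : ℕ)) : ℚ) : ℂ) with hS
  set T := ∑ a ∈ range N, ψ (a : ZMod N) * aeval ((a : ℂ) / (N : ℕ)) (FF m) with hTd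
  set E := 1 - ψ (p : ZMod N) * (p : ℂ) ^ (m - 1) with hE
  -- the valuations
  have hval : ∀ B : ValuationSubring ℂ, B.valuation (p : ℂ) < 1 → B.valuation T = 1 ∧ B.valuation E = 1 := by
    intro B hB
    have hch := charP_res B hp hB
    have hm1' : ∀ a, ψ a ∈ B := char_mem B hN0' ψ
    set χ := liftChar B ψ hm1' with hχ
    set ρ := IsLocalRing.residue B with hρ
    have hck1 : ∀ a, (χ.ringHomComp ρ) a = ρ (χ a) := fun a => rfl
    have hc1 : ∀ a, ((χ a : B) : ℂ) = ψ a := fun a => rfl
    have hnk : ∀ n : ℕ, ¬ p ∣ n → ((n : ℕ) : IsLocalRing.ResidueField B) ≠ 0 := fun n hn h =>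
      hn ((CharP.cast_eq_zero_iff (IsLocalRing.ResidueField B) p n).1 h)
    -- properties of the reductions
    have hprim' : ∀ x, IsUnit x → ψ x ≠ 1 → (χ.ringHomComp ρ) x ≠ 1 := by
      intro x hx h1
      rw [hck1]
      refine red_ne_one hp hB hφ _ ?_ ?_
      · apply Subtype.ext
        obtain ⟨U, rfl⟩ := hx
        push_cast
        rw [hc1, ← map_pow, ← Units.val_pow_eq_pow_val, ZMod.pow_totient, Units.val_one, map_one]
      · intro h
        exact h1 (congrArg Subtype.val h)
    have hpar' : (χ.ringHomComp ρ) (-1) = (-1) ^ m := by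
      have h1 : χ (-1) = (-1) ^ m := by
        apply Subtype.ext
        push_cast
        rw [hc1]
        exact hpar
      rw [hck1, h1, map_pow, map_neg, map_one]
    constructor
    · -- `T`
      have hNB : IsUnit (N : B) := by
        rw [← IsLocalRing.residue_ne_zero_iff_isUnit, map_natCast]
        exact hnk N hpN
      obtain ⟨ν, hν⟩ := hNB.exists_right_inv
      have hνC : ∀ a : ℕ, (((a : B) * ν : B) : ℂ) = (a : ℂ) / (N : ℕ) := by
        intro a
        have h1 : (N : ℂ) * (ν : ℂ) = 1 := by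
          have := congrArg (Subtype.val) hν
          push_cast at this
          exact this
        have h2 : (N : ℂ) ≠ 0 := by exact_mod_cast hN0'
        push_cast
        field_simp
        linear_combination (a : ℂ) * h1
      have hνk : ∀ a : ℕ, ρ ((a : B) * ν) = (a : IsLocalRing.ResidueField B) / (N : ℕ) := by
        intro a
        have h1 : (N : IsLocalRing.ResidueField B) * ρ ν = 1 := by
          have := congrArg ρ hν
          rwa [map_mul, map_natCast, map_one] at this
        have h2 := hnk N hpN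
        rw [map_mul, map_natCast]
        field_simp
        linear_combination (a : IsLocalRing.ResidueField B) * h1
      set TB : B := ∑ a ∈ range N, χ (a : ZMod N) * aeval ((a : B) * ν) (FF m)
        with hTB
      have e1 : (TB : ℂ) = T := by
        have h1 : (TB : ℂ) = B.subtype TB := rfl
        rw [h1, hTB, hTd, map_sum]
        refine Finset.sum_congr rfl fun a _ => ?_
        rw [map_mul]
        have h2 : B.subtype (aeval ((a : B) * ν) (FF m)) = aeval (B.subtype ((a : B) * ν)) (FF m) :=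
          (Polynomial.aeval_algHom_apply B.subtype.toIntAlgHom ((a : B) * ν) (FF m)).symm
        rw [h2]
        have h4 : B.subtype ((a : B) * ν) = (a : ℂ) / (N : ℕ) := hνC a
        rw [h4]
        rfl
      have e2 : ρ TB = ∑ a ∈ range N, (χ.ringHomComp ρ) (a : ZMod N) *
          aeval ((a : IsLocalRing.ResidueField B) / (N : ℕ)) (FF m) := by
        rw [hTB, map_sum]
        refine Finset.sum_congr rfl fun a _ => ?_
        rw [map_mul]
        have h2 : ρ (aeval ((a : B) * ν) (FF m)) = aeval (ρ ((a : B) * ν)) (FF m) :=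
          (Polynomial.aeval_algHom_apply ρ.toIntAlgHom ((a : B) * ν) (FF m)).symm
        rw [h2, hνk]
        rfl
      rw [← e1]
      apply val_of_res
      rw [e2]
      exact (hcore _ (χ.ringHomComp ρ) hprim' hpar').1
    · -- the Euler factor
      have h1 : ((1 - χ (p : ZMod N) * (p : B) ^ (m - 1) : B) : ℂ) = E := by
        rw [hE]
        push_cast
        rfl
      rw [← h1]
      apply val_of_res
      have hp0 : ((p : ℕ) : IsLocalRing.ResidueField B) = 0 :=
        (CharP.cast_eq_zero_iff (IsLocalRing.ResidueField B) p p).2 dvd_rfl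
      have h2 : IsLocalRing.residue B (1 - χ (p : ZMod N) * (p : B) ^ (m - 1)) =
          1 - (χ.ringHomComp ρ) (p : ZMod N) * ((p : ℕ) : IsLocalRing.ResidueField B) ^ (m - 1) := by
        rw [hck1, hρ, map_sub, map_one, map_mul (IsLocalRing.residue B),
          map_pow, map_natCast (IsLocalRing.residue B)]
      rw [h2, hp0]
      rcases Nat.lt_or_ge 1 m with h4 | h4
      · rw [zero_pow (by omega), mul_zero, sub_zero]
        exact one_ne_zero
      · have h5 : m = 1 := by omega
        subst h5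
        rw [Nat.sub_self, pow_zero, mul_one]
        intro h6
        exact (hcore _ (χ.ringHomComp ρ) hprim' hpar').2 rfl (sub_eq_zero.1 h6).symm
  -- the conclusion
  have hz : E * ((N : ℂ) ^ (m - 1) * S) / m = E * (N : ℂ) ^ (m - 1) * T / (((m.factorial : ℕ) : ℂ) * m) := by
    rw [← hT]
    have h1 : ((m.factorial : ℕ) : ℂ) ≠ 0 := by exact_mod_cast (Nat.factorial_pos m).ne'
    field_simp
  rw [hz]
  have hv1 : ∀ B : ValuationSubring ℂ, B.valuation (p : ℂ) < 1 →
      B.valuation (E * (N : ℂ) ^ (m - 1) * T / (((m.factorial : ℕ) : ℂ) * m)) = 1 := by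
    intro B hB
    obtain ⟨h1, h2⟩ := hval B hB
    rw [map_div₀, map_mul, map_mul, map_mul, map_pow, h1, h2, nat_val hp hB hpN, nat_val hp hB hpm,
      nat_val hp hB hpf]
    simp
  refine unit_of_val hp ?_ hv1
  intro h0
  obtain ⟨B, hB⟩ := exists_over hp
  have h1 := hv1 B hB
  rw [h0, map_zero] at h1
  exact zero_ne_one h1

/-! ## Decomposition of a character -/

section
variable {k : Type*} [Field k] {N₁ Q : ℕ} (h : N₁.Coprime Q) (ψ : MulChar (ZMod (N₁ * Q)) k)

noncomputable def fstk : MulChar (ZMod N₁) k where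
  toFun x := ψ ((ZMod.chineseRemainder h).symm (x, 1))
  map_one' := by
    have : ((1 : ZMod N₁), (1 : ZMod Q)) = 1 := rfl
    rw [this, map_one, map_one]
  map_mul' x y := by
    have : ((x * y : ZMod N₁), (1 : ZMod Q)) = (x, 1) * (y, 1) := by simp
    rw [this, map_mul, map_mul]
  map_nonunit' x hx := by
    apply ψ.map_nonunit
    intro h1
    apply hx
    have h2 := h1.map (ZMod.chineseRemainder h)
    rw [RingEquiv.apply_symm_apply, Prod.isUnit_iff] at h2
    exact h2.1

noncomputable def sndk : MulChar (ZMod Q) k where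
  toFun x := ψ ((ZMod.chineseRemainder h).symm (1, x))
  map_one' := by
    have : ((1 : ZMod N₁), (1 : ZMod Q)) = 1 := rfl
    rw [this, map_one, map_one]
  map_mul' x y := by
    have : ((1 : ZMod N₁), (x * y : ZMod Q)) = (1, x) * (1, y) := by simp
    rw [this, map_mul, map_mul]
  map_nonunit' x hx := by
    apply ψ.map_nonunit
    intro h1
    apply hx
    have h2 := h1.map (ZMod.chineseRemainder h)
    rw [RingEquiv.apply_symm_apply, Prod.isUnit_iff] at h2
    exact h2.2

lemma deck_mul (x : ZMod (N₁ * Q)) : ψ x = fstk h ψ ((ZMod.chineseRemainder h) x).1 *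
    sndk h ψ ((ZMod.chineseRemainder h) x).2 := by
  have h1 : fstk h ψ ((ZMod.chineseRemainder h) x).1 * sndk h ψ ((ZMod.chineseRemainder h) x).2 =
      ψ ((ZMod.chineseRemainder h).symm (((ZMod.chineseRemainder h) x).1, 1)) *
      ψ ((ZMod.chineseRemainder h).symm (1, ((ZMod.chineseRemainder h) x).2)) := rfl
  rw [h1, ← map_mul, ← map_mul]
  simp

lemma deck_nat (a : ℕ) : ψ (a : ZMod (N₁ * Q)) = fstk h ψ (a : ZMod N₁) * sndk h ψ (a : ZMod Q) := by
  rw [deck_mul h ψ, map_natCast]
  rfl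

lemma deck_neg : ψ (-1) = fstk h ψ (-1) * sndk h ψ (-1) := by
  rw [deck_mul h ψ, map_neg, map_one]
  rfl

end

/-- a primitive character is not trivial on the units which are `1` modulo `N / q` -/
lemma prim_unit {N q : ℕ} (hN : N ≠ 0) (hq : q ≠ 1) (hqN : q ∣ N) (ψ : DirichletCharacter ℂ N) (hprim : ψ.IsPrimitive) :
    ∃ a : ℕ, a ≡ 1 [MOD N / q] ∧ IsUnit (a : ZMod N) ∧ ψ (a : ZMod N) ≠ 1 := by
  by_contra hcon
  push Not at hcon
  have : NeZero N := ⟨hN⟩
  have hd : N / q ∣ N := Nat.div_dvd_of_dvd hqN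
  have h2 : ψ.FactorsThrough (N / q) := by
    rw [DirichletCharacter.factorsThrough_iff_ker_unitsMap hd]
    intro U hU
    rw [MonoidHom.mem_ker] at hU ⊢
    have h3 : ((U : ZMod N).cast : ZMod (N / q)) = 1 := by
      have := congrArg Units.val hU
      simpa [ZMod.unitsMap] using this
    set a := (U : ZMod N).val with ha
    have haU : ((a : ℕ) : ZMod N) = U := by rw [ha, ZMod.natCast_val, ZMod.cast_id', id_eq]
    have h4 : a ≡ 1 [MOD N / q] := by
      rw [← ZMod.natCast_eq_natCast_iff, Nat.cast_one, ← h3, ha, ZMod.natCast_val]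
    have h9 := hcon a h4 (by rw [haU]; exact U.isUnit)
    apply Units.ext
    rw [MulChar.coe_toUnitHom, ← haU, h9, Units.val_one]
  have h3 := DirichletCharacter.conductor_dvd_of_mem_conductorSet (χ := ψ) (d := N / q) h2
  rw [DirichletCharacter.isPrimitive_def] at hprim
  rw [hprim] at h3
  have hq0 : q ≠ 0 := by
    rintro rfl
    exact hN (Nat.eq_zero_of_zero_dvd hqN)
  have h4 := Nat.le_of_dvd (Nat.div_pos (Nat.le_of_dvd (Nat.pos_of_ne_zero hN) hqN) (Nat.pos_of_ne_zero hq0)) h3
  have h5 := Nat.div_lt_self (Nat.pos_of_ne_zero hN) (show 1 < q by omega)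
  omega

end Pool.Agent.X218.GX
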