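import Pool.Agent.X218.GX.Cases3
import Pool.Agent.X218.GX.Uni
import Pool.Agent.X218.GX.Main

/-!
# The prime `5` and the conductors `2^a 3^b`
-/

set_option autoImplicit false

namespace Pool.Agent.X218.GX

open Finset Polynomial
open Pool.Agent.Y18.GX (FF sum_char psi_one_add ne_of_not_dvd five)

theorem five_ok2 : ok2all 5 3 = true := by decide +kernel
theorem five_ok1 : ok1all 5 = true ∧ ok0all 5 = true := by decide +kernel

lemma totient_five (a b : ℕ) : ¬ 5 ∣ (2 ^ a * 3 ^ b).totient := by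
  rw [Nat.totient_mul (Nat.Coprime.pow _ _ (by norm_num))]
  have h1 : Nat.Coprime 5 (2 ^ a).totient := by
    rcases Nat.eq_zero_or_pos a with h | h
    · subst h
      simp
    · rw [Nat.totient_prime_pow Nat.prime_two h]
      exact Nat.Coprime.mul_right (Nat.Coprime.pow_right _ (by norm_num)) (by norm_num)
  have h2 : Nat.Coprime 5 (3 ^ b).totient := by
    rcases Nat.eq_zero_or_pos b with h | h
    · subst h
      simp
    · rw [Nat.totient_prime_pow Nat.prime_three h]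
      exact Nat.Coprime.mul_right (Nat.Coprime.pow_right _ (by norm_num)) (by norm_num)
  exact (Nat.Prime.coprime_iff_not_dvd (by norm_num)).1 (Nat.Coprime.mul_right h1 h2)

lemma five_not_dvd (a b : ℕ) : ¬ 5 ∣ 2 ^ a * 3 ^ b :=
  (Nat.Prime.coprime_iff_not_dvd (by norm_num)).1
    (Nat.Coprime.mul_right (Nat.Coprime.pow_right _ (by norm_num)) (Nat.Coprime.pow_right _ (by norm_num)))

/-- the component of a character at a prime power -/
lemma comp_prim {k : Type*} [Field k] {ℓ K x : ℕ} (hℓ : 1 < ℓ) (hK : 2 ≤ K) (ψ : MulChar (ZMod (ℓ ^ K)) k)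
    (hx : x ≡ 1 [MOD ℓ ^ (K - 1)]) (h1 : ψ ((x : ℕ) : ZMod (ℓ ^ K)) ≠ 1) :
    ψ ((1 + ℓ ^ (K - 1) : ℕ) : ZMod (ℓ ^ K)) ≠ 1 := by
  intro h
  apply h1
  have hx0 : x ≠ 0 := by
    rintro rfl
    have h7 := (Nat.modEq_iff_dvd' (Nat.zero_le 1)).1 hx
    have h8 := Nat.dvd_one.1 h7
    exact (Nat.one_lt_pow (by omega) hℓ).ne' h8
  obtain ⟨y, hy⟩ := (Nat.modEq_iff_dvd' (Nat.pos_of_ne_zero hx0)).1 hx.symm
  have h7 : x = 1 + ℓ ^ (K - 1) * y := by omega
  rw [h7, psi_one_add (n := 1) ψ (by omega), h, one_pow]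

theorem five_core {a b m : ℕ} (ha : 2 ≤ a) (hm1 : 1 ≤ m) (hm4 : m ≤ 4)
    (e4 : ¬ (2 ^ a * 3 ^ b = 4 ∧ m = 1)) (e24 : ¬ (2 ^ a * 3 ^ b = 24 ∧ m = 1)) (e16 : ¬ (2 ^ a * 3 ^ b = 16 ∧ m = 2))
    (e48 : ¬ (2 ^ a * 3 ^ b = 48 ∧ m = 3)) (e36 : ¬ (2 ^ a * 3 ^ b = 36 ∧ m = 4))
    (ψ : DirichletCharacter ℂ (2 ^ a * 3 ^ b)) (hprim : ψ.IsPrimitive) (hpar : ψ (-1) = (-1) ^ m) :
    IsUnitAt 5 (lValue 5 m ψ) := by
  have hN0 : 2 ^ a * 3 ^ b ≠ 0 := by positivity
  have h4le : 4 ≤ 2 ^ a := by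
    calc 4 = 2 ^ 2 := by norm_num
      _ ≤ 2 ^ a := Nat.pow_le_pow_right (by norm_num) ha
  have hN1 : 2 ^ a * 3 ^ b ≠ 1 := by
    have : 1 ≤ 3 ^ b := Nat.one_le_pow _ _ (by norm_num)
    nlinarith
  have hψ1 : ψ ≠ 1 := by
    intro h
    have : NeZero (2 ^ a * 3 ^ b) := ⟨hN0⟩
    rw [h, DirichletCharacter.isPrimitive_def, DirichletCharacter.conductor_one] at hprim
    exact hN1 hprim.symm
  have h2N : 2 ∣ 2 ^ a * 3 ^ b := (dvd_pow_self 2 (by omega)).mul_right _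
  have hdiv2 : 2 ^ a * 3 ^ b / 2 = 2 ^ (a - 1) * 3 ^ b := by
    have : 2 ^ a * 3 ^ b = 2 * (2 ^ (a - 1) * 3 ^ b) := by
      rw [← mul_assoc, ← pow_succ']
      congr 2
      omega
    rw [this, Nat.mul_div_cancel_left _ (by norm_num)]
  obtain ⟨x2, hx2, hu2, hn2⟩ := prim_unit hN0 (by norm_num : 2 ≠ 1) h2N ψ hprim
  rw [hdiv2] at hx2
  have hp3 : b ≠ 0 → ∃ x : ℕ, x ≡ 1 [MOD 2 ^ a * 3 ^ (b - 1)] ∧ IsUnit ((x : ℕ) : ZMod (2 ^ a * 3 ^ b)) ∧
      ψ ((x : ℕ) : ZMod (2 ^ a * 3 ^ b)) ≠ 1 := by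
    intro hb
    have h3N : 3 ∣ 2 ^ a * 3 ^ b := (dvd_pow_self 3 hb).mul_left _
    obtain ⟨x, h1, h2, h3⟩ := prim_unit hN0 (by norm_num : 3 ≠ 1) h3N ψ hprim
    have hdiv3 : 2 ^ a * 3 ^ b / 3 = 2 ^ a * 3 ^ (b - 1) := by
      have : 2 ^ a * 3 ^ b = 3 * (2 ^ a * 3 ^ (b - 1)) := by
        rw [← mul_assoc, mul_comm 3, mul_assoc, ← pow_succ']
        congr 2
        omega
      rw [this, Nat.mul_div_cancel_left _ (by norm_num)]
    rw [hdiv3] at h1
    exact ⟨x, h1, h2, h3⟩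
  rw [lValue_eq hN1]
  refine unit_gen2 (by norm_num) ψ (five_not_dvd a b) (totient_five a b) hpar hm1 (by omega) ?_ (sum_char hN0 ψ hψ1)
  intro k _ _ χ hinj hparχ
  have hcop : (2 ^ a).Coprime (3 ^ b) := Nat.Coprime.pow _ _ (by norm_num)
  set χ₁ := fstk hcop χ with hχ₁
  set χ₂ := sndk hcop χ with hχ₂
  have hdec : ∀ x : ℕ, χ ((x : ℕ) : ZMod (2 ^ a * 3 ^ b)) = χ₁ ((x : ℕ) : ZMod (2 ^ a)) * χ₂ ((x : ℕ) : ZMod (3 ^ b)) :=
    deck_nat hcop χ
  rw [deck_neg hcop χ, ← hχ₁, ← hχ₂] at hparχ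
  -- primitivity at `2`
  have hpr1 : χ₁ ((1 + 2 ^ (a - 1) : ℕ) : ZMod (2 ^ a)) ≠ 1 := by
    have h1 := hinj _ hu2 hn2
    rw [hdec] at h1
    have h2 : ((x2 : ℕ) : ZMod (3 ^ b)) = 1 := by
      rw [← Nat.cast_one, ZMod.natCast_eq_natCast_iff]
      exact hx2.of_dvd (dvd_mul_left _ _)
    rw [h2, map_one, mul_one] at h1
    exact comp_prim (by norm_num) ha χ₁ (hx2.of_dvd (dvd_mul_right _ _)) h1
  rcases Nat.lt_or_ge b 2 with hb | hb
  · -- `b ≤ 1`
    have h3 : b = 1 → χ₂ ((2 : ℕ) : ZMod (3 ^ b)) ≠ 1 := by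
      intro hb1
      obtain ⟨x, h1, h2, h4⟩ := hp3 (by omega)
      have h5 := hinj _ h2 h4
      rw [hdec] at h5
      have h6 : ((x : ℕ) : ZMod (2 ^ a)) = 1 := by
        rw [← Nat.cast_one, ZMod.natCast_eq_natCast_iff]
        exact h1.of_dvd (dvd_mul_right _ _)
      rw [h6, map_one, one_mul] at h5
      subst hb1
      have h7 : ((x : ℕ) : ZMod (3 ^ 1)) = ((x % 3 : ℕ) : ZMod (3 ^ 1)) := by
        rw [ZMod.natCast_eq_natCast_iff]
        exact (Nat.mod_modEq x 3).symm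
      rw [h7] at h5
      have : x % 3 = 0 ∨ x % 3 = 1 ∨ x % 3 = 2 := by omega
      rcases this with h | h | h
      · exfalso
        have h8 := (ZMod.isUnit_iff_coprime x (2 ^ a * 3 ^ 1)).1 h2
        have h9 : 3 ∣ Nat.gcd x (2 ^ a * 3 ^ 1) := Nat.dvd_gcd (Nat.dvd_of_mod_eq_zero h) (by
          rw [pow_one]
          exact dvd_mul_left _ _)
        rw [h8] at h9
        omega
      · rw [h, Nat.cast_one, map_one] at h5
        exact absurd rfl h5
      · rw [h] at h5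
        exact h5
    rcases Nat.lt_or_ge a 4 with ha4 | ha4
    · -- `a = 2, 3`
      have ha' : a = 2 ∨ a = 3 := by omega
      refine ⟨?_, ?_⟩
      · have h := c1 χ₁ χ₂ ha' (by omega) hm1 hm4 h3 hpr1 hparχ
        simp only [← hdec] at h
        exact h
      · rintro rfl
        have hb' : b = 0 ∨ b = 1 := by omega
        rcases ha' with rfl | rfl
        · rcases hb' with rfl | rfl
          · exact absurd ⟨by norm_num, rfl⟩ e4
          · -- parity
            exfalso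
            have hη2 : χ₁ ((1 + 2 ^ (2 - 1) : ℕ) : ZMod (2 ^ 2)) ^ 2 = 1 := by
              have := Pool.Agent.Y18.GX.psi_M_pow χ₁ (n := 1) (by omega)
              rwa [pow_one] at this
            have hη := (eq_one_or hη2).resolve_left hpr1
            have h1 : (-1 : ZMod (2 ^ 2)) = ((1 + 2 ^ (2 - 1) : ℕ) : ZMod (2 ^ 2)) := by decide +kernel
            have h2 : χ₂ (-1) = -1 := by
              have h4 : ((2 : ℕ) : ZMod (3 ^ 1)) = -1 := by decide +kernel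
              have h5 := h3 rfl
              rw [h4] at h5
              have h6 : χ₂ (-1) ^ 2 = 1 := by
                rw [← map_pow]
                simp
              exact (eq_one_or h6).resolve_left h5
            rw [h1, hη, h2] at hparχ
            apply neg_one_ne_one (k := k)
            rw [pow_one] at hparχ
            rw [← hparχ]
            ring
        · rcases hb' with rfl | rfl
          · have h1 := hdec 5
            have h2 : ((5 : ℕ) : ZMod (3 ^ 0)) = 1 := sub30 _ _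
            have h4 : ((1 + 2 ^ (3 - 1) : ℕ) : ZMod (2 ^ 3)) = ((5 : ℕ) : ZMod (2 ^ 3)) := by decide +kernel
            rw [h4] at hpr1
            rw [h1, h2, map_one, mul_one]
            exact hpr1
          · exact absurd ⟨by norm_num, rfl⟩ e24
    · -- `a ≥ 4`
      have hex1 : ¬ (a = 4 ∧ b = 0 ∧ m = 2) := by
        rintro ⟨rfl, rfl, rfl⟩
        exact e16 ⟨by norm_num, rfl⟩
      have hex2 : ¬ (a = 4 ∧ b = 1 ∧ m = 3) := by
        rintro ⟨rfl, rfl, rfl⟩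
        exact e48 ⟨by norm_num, rfl⟩
      refine ⟨?_, ?_⟩
      · have h := c3 χ₂ χ₁ (by omega) ha4 hm1 hm4 hex1 hex2 h3 hpr1 (by rw [mul_comm]; exact hparχ)
        have e1 : 3 ^ b * 2 ^ a = 2 ^ a * 3 ^ b := mul_comm _ _
        rw [e1] at h
        intro h0
        apply h
        rw [← h0]
        refine Finset.sum_congr rfl fun x _ => ?_
        rw [hdec]
        ring
      · intro _
        have h := eul2 χ₂ χ₁ (by omega) ha4 hpr1
        have h1 := hdec 5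
        rw [h1, mul_comm]
        exact h
  · -- `b ≥ 2`
    have hpr2 : χ₂ ((1 + 3 ^ (b - 1) : ℕ) : ZMod (3 ^ b)) ≠ 1 := by
      obtain ⟨x, h1, h2, h4⟩ := hp3 (by omega)
      have h5 := hinj _ h2 h4
      rw [hdec] at h5
      have h6 : ((x : ℕ) : ZMod (2 ^ a)) = 1 := by
        rw [← Nat.cast_one, ZMod.natCast_eq_natCast_iff]
        exact h1.of_dvd (dvd_mul_right _ _)
      rw [h6, map_one, one_mul] at h5
      exact comp_prim (by norm_num) hb χ₂ (h1.of_dvd (dvd_mul_left _ _)) h5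
    refine ⟨?_, ?_⟩
    · rcases Nat.lt_or_ge a 6 with ha6 | ha6
      · have h := c2 χ₁ χ₂ ha (by omega) hb hm1 hm4 (by
          rintro ⟨rfl, rfl, rfl⟩
          exact e36 ⟨by norm_num, rfl⟩) hpr1 hpr2 hparχ
        simp only [← hdec] at h
        exact h
      · have h := c4 χ₁ χ₂ ha6 hb hm1 hm4 hpr1 hpr2 hparχ
        simp only [← hdec] at h
        exact h
    · intro _
      have h := eul3 χ₁ χ₂ hb hpr2
      have h1 := hdec 5
      rw [h1]
      exact h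

/-- there is no primitive character modulo `2 N` with `N` odd -/
lemma no_prim {b : ℕ} (ψ : DirichletCharacter ℂ (2 * 3 ^ b)) (hprim : ψ.IsPrimitive) : False := by
  obtain ⟨x, h1, h2, h3⟩ := prim_unit (by positivity) (by norm_num : 2 ≠ 1) (dvd_mul_right 2 (3 ^ b)) ψ hprim
  apply h3
  rw [Nat.mul_div_cancel_left _ (by norm_num)] at h1
  have h4 : x ≡ 1 [MOD 2] := by
    have h5 := (ZMod.isUnit_iff_coprime x (2 * 3 ^ b)).1 h2
    have h6 : ¬ 2 ∣ x := by
      intro h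
      have h9 : 2 ∣ Nat.gcd x (2 * 3 ^ b) := Nat.dvd_gcd h (dvd_mul_right _ _)
      rw [h5] at h9
      omega
    change x % 2 = 1 % 2
    omega
  have h5 : x ≡ 1 [MOD 2 * 3 ^ b] :=
    (Nat.modEq_and_modEq_iff_modEq_mul (Nat.Coprime.pow_right _ (by norm_num))).1 ⟨h4, h1⟩
  have h6 : ((x : ℕ) : ZMod (2 * 3 ^ b)) = 1 := by
    rw [← Nat.cast_one, ZMod.natCast_eq_natCast_iff]
    exact h5
  rw [h6, map_one]

lemma two_three {N : ℕ} (hN0 : N ≠ 0) (hN : N.primeFactors ⊆ {2, 3}) : ∃ a b, N = 2 ^ a * 3 ^ b := by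
  obtain ⟨a, n, hn, h1⟩ := Nat.exists_eq_pow_mul_and_not_dvd hN0 2 (by norm_num)
  have hn0 : n ≠ 0 := by
    rintro rfl
    exact hn (dvd_zero _)
  obtain ⟨b, r, hr, h2⟩ := Nat.exists_eq_pow_mul_and_not_dvd hn0 3 (by norm_num)
  refine ⟨a, b, ?_⟩
  have hr1 : r = 1 := by
    by_contra hcon
    obtain ⟨q, hq, hqr⟩ := Nat.exists_prime_and_dvd hcon
    have h3 : q ∣ n := by rw [h2]; exact hqr.mul_left _
    have h4 : q ∈ N.primeFactors := Nat.mem_primeFactors.2 ⟨hq, by rw [h1]; exact h3.mul_left _, hN0⟩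
    have h5 := hN h4
    simp only [Finset.mem_insert, Finset.mem_singleton] at h5
    rcases h5 with rfl | rfl
    · exact hn h3
    · exact hr hqr
  rw [h1, h2, hr1, mul_one]

theorem five_all {N m : ℕ} (hN0 : N ≠ 0) (hN : N.primeFactors ⊆ {2, 3}) (hm1 : 1 ≤ m) (hm4 : m ≤ 4)
    (e1 : ¬ (N = 1 ∧ m = 4)) (e4 : ¬ (N = 4 ∧ m = 1)) (e24 : ¬ (N = 24 ∧ m = 1)) (e16 : ¬ (N = 16 ∧ m = 2))
    (e48 : ¬ (N = 48 ∧ m = 3)) (e36 : ¬ (N = 36 ∧ m = 4))
    (ψ : DirichletCharacter ℂ N) (hprim : ψ.IsPrimitive) (hpar : ψ (-1) = (-1) ^ m) :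
    IsUnitAt 5 (lValue 5 m ψ) := by
  obtain ⟨a, b, hab⟩ := two_three hN0 hN
  rcases Nat.lt_or_ge a 2 with ha | ha
  · rcases Nat.lt_or_ge a 1 with ha' | ha'
    · have ha0 : a = 0 := by omega
      subst ha0
      rw [pow_zero, one_mul] at hab
      subst hab
      exact all (by norm_num) (by norm_num) (by norm_num) 3 five_ok2 five_ok1.1 five_ok1.2 hm1 (by omega)
        (fun h0 h4 => e1 ⟨by rw [h0, pow_zero], by omega⟩) ψ hprim hpar
    · exfalso
      have ha1 : a = 1 := by omega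
      subst ha1
      rw [pow_one] at hab
      subst hab
      exact no_prim ψ hprim
  · subst hab
    exact five_core ha hm1 hm4 e4 e24 e16 e48 e36 ψ hprim hpar

end Pool.Agent.X218.GX
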