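import Pool.Agent.X218.GX.Five

/-!
# The trivial zeros for `p = 5`
-/

set_option autoImplicit false

namespace Pool.Agent.X218.GX

open Finset Polynomial

lemma bern5 (x : ℚ) : (Polynomial.bernoulli 5).eval x = x ^ 5 - 5 / 2 * x ^ 4 + 5 / 3 * x ^ 3 - x / 6 := by
  have h3 : _root_.bernoulli 3 = 0 := bernoulli_eq_zero_of_odd (by decide) (by norm_num)
  have h5 : _root_.bernoulli 5 = 0 := bernoulli_eq_zero_of_odd (by decide) (by norm_num)
  have h4 : _root_.bernoulli 4 = -1 / 30 := by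
    rw [bernoulli_eq_bernoulli'_of_ne_one (by norm_num), bernoulli'_four]
  have h2 : _root_.bernoulli 2 = 1 / 6 := by
    rw [bernoulli_eq_bernoulli'_of_ne_one (by norm_num), bernoulli'_two]
  rw [Polynomial.bernoulli, Finset.sum_range_succ, Finset.sum_range_succ, Finset.sum_range_succ,
    Finset.sum_range_succ, Finset.sum_range_succ, Finset.sum_range_succ, Finset.sum_range_zero, h2, h3, h4, h5,
    _root_.bernoulli_zero, _root_.bernoulli_one]
  simp only [eval_add, eval_monomial, eval_zero, Nat.sub_self]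
  norm_num [Nat.choose]
  ring

/-- the character `χ_{-4}` -/
def c4t (a : ℕ) : ℤ := if a % 4 = 1 then 1 else if a % 4 = 3 then -1 else 0

/-- the character `χ_{-24}` -/
def c24t (a : ℕ) : ℤ := if a % 24 ∈ [1, 5, 7, 11] then 1 else if a % 24 ∈ [13, 17, 19, 23] then -1 else 0

lemma val_four (ψ : DirichletCharacter ℂ 4) (hpar : ψ (-1) = -1) :
    ∀ a < 4, ψ ((a : ℕ) : ZMod 4) = ((c4t a : ℤ) : ℂ) := by
  have h3 : ψ ((3 : ℕ) : ZMod 4) = -1 := by
    have : ((3 : ℕ) : ZMod 4) = -1 := by decide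
    rw [this, hpar]
  have hn : ∀ a : ℕ, ¬ IsUnit ((a : ℕ) : ZMod 4) → ψ ((a : ℕ) : ZMod 4) = 0 := fun a h => ψ.map_nonunit h
  intro a ha
  interval_cases a
  · rw [hn 0 (by decide)]; simp [c4t]
  · rw [Nat.cast_one, map_one]; simp [c4t]
  · rw [hn 2 (by decide)]; simp [c4t]
  · rw [h3]; simp [c4t]

lemma val_24 (ψ : DirichletCharacter ℂ 24) (hprim : ψ.IsPrimitive) (hpar : ψ (-1) = -1) :
    ∀ a < 24, ψ ((a : ℕ) : ZMod 24) = ((c24t a : ℤ) : ℂ) := by
  have h23 : ψ ((23 : ℕ) : ZMod 24) = -1 := by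
    have : ((23 : ℕ) : ZMod 24) = -1 := by decide
    rw [this, hpar]
  have hn : ∀ a : ℕ, ¬ IsUnit ((a : ℕ) : ZMod 24) → ψ ((a : ℕ) : ZMod 24) = 0 := fun a h => ψ.map_nonunit h
  have hsq : ∀ a : ℕ, ((a : ℕ) : ZMod 24) ^ 2 = 1 → ψ ((a : ℕ) : ZMod 24) ≠ 1 → ψ ((a : ℕ) : ZMod 24) = -1 := by
    intro a h h1
    have h2 : ψ ((a : ℕ) : ZMod 24) ^ 2 = 1 := by rw [← map_pow, h, map_one]
    have h3 : (ψ ((a : ℕ) : ZMod 24) - 1) * (ψ ((a : ℕ) : ZMod 24) + 1) = 0 := by linear_combination h2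
    rcases mul_eq_zero.1 h3 with h4 | h4
    · exact absurd (sub_eq_zero.1 h4) h1
    · exact eq_neg_of_add_eq_zero_left h4
  have h13 : ψ ((13 : ℕ) : ZMod 24) = -1 := by
    apply hsq 13 (by decide)
    obtain ⟨x, h1, h2, h3⟩ := prim_unit (by norm_num) (by norm_num : 2 ≠ 1) (by norm_num) ψ hprim
    intro h
    apply h3
    have h4 : x % 12 = 1 := h1
    have h5 : ((x : ℕ) : ZMod 24) = ((x % 24 : ℕ) : ZMod 24) := by
      rw [ZMod.natCast_eq_natCast_iff]
      exact (Nat.mod_modEq x 24).symm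
    rw [h5]
    have : x % 24 = 1 ∨ x % 24 = 13 := by omega
    rcases this with h6 | h6 <;> rw [h6]
    · rw [Nat.cast_one, map_one]
    · exact h
  have h17 : ψ ((17 : ℕ) : ZMod 24) = -1 := by
    apply hsq 17 (by decide)
    obtain ⟨x, h1, h2, h3⟩ := prim_unit (by norm_num) (by norm_num : 3 ≠ 1) (by norm_num) ψ hprim
    intro h
    apply h3
    have h4 : x % 8 = 1 := h1
    have h5 : ((x : ℕ) : ZMod 24) = ((x % 24 : ℕ) : ZMod 24) := by
      rw [ZMod.natCast_eq_natCast_iff]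
      exact (Nat.mod_modEq x 24).symm
    have h2' := h2
    rw [h5] at h2' ⊢
    have : x % 24 = 1 ∨ x % 24 = 9 ∨ x % 24 = 17 := by omega
    rcases this with h6 | h6 | h6 <;> rw [h6] at h2' ⊢
    · rw [Nat.cast_one, map_one]
    · exact absurd h2' (by decide)
    · exact h
  have h5 : ψ ((5 : ℕ) : ZMod 24) = 1 := by
    have : ((5 : ℕ) : ZMod 24) = ((13 : ℕ) : ZMod 24) * ((17 : ℕ) : ZMod 24) := by decide
    rw [this, map_mul, h13, h17]; norm_num
  have h11 : ψ ((11 : ℕ) : ZMod 24) = 1 := by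
    have : ((11 : ℕ) : ZMod 24) = ((13 : ℕ) : ZMod 24) * ((23 : ℕ) : ZMod 24) := by decide
    rw [this, map_mul, h13, h23]; norm_num
  have h7 : ψ ((7 : ℕ) : ZMod 24) = 1 := by
    have : ((7 : ℕ) : ZMod 24) = ((17 : ℕ) : ZMod 24) * ((23 : ℕ) : ZMod 24) := by decide
    rw [this, map_mul, h17, h23]; norm_num
  have h19 : ψ ((19 : ℕ) : ZMod 24) = -1 := by
    have : ((19 : ℕ) : ZMod 24) = ((5 : ℕ) : ZMod 24) * ((23 : ℕ) : ZMod 24) := by decide
    rw [this, map_mul, h5, h23]; norm_num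
  intro a ha
  interval_cases a
  · rw [hn 0 (by decide)]; simp [c24t]
  · rw [Nat.cast_one, map_one]; simp [c24t]
  · rw [hn 2 (by decide)]; simp [c24t]
  · rw [hn 3 (by decide)]; simp [c24t]
  · rw [hn 4 (by decide)]; simp [c24t]
  · rw [h5]; simp [c24t]
  · rw [hn 6 (by decide)]; simp [c24t]
  · rw [h7]; simp [c24t]
  · rw [hn 8 (by decide)]; simp [c24t]
  · rw [hn 9 (by decide)]; simp [c24t]
  · rw [hn 10 (by decide)]; simp [c24t]
  · rw [h11]; simp [c24t]
  · rw [hn 12 (by decide)]; simp [c24t]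
  · rw [h13]; simp [c24t]
  · rw [hn 14 (by decide)]; simp [c24t]
  · rw [hn 15 (by decide)]; simp [c24t]
  · rw [hn 16 (by decide)]; simp [c24t]
  · rw [h17]; simp [c24t]
  · rw [hn 18 (by decide)]; simp [c24t]
  · rw [h19]; simp [c24t]
  · rw [hn 20 (by decide)]; simp [c24t]
  · rw [hn 21 (by decide)]; simp [c24t]
  · rw [hn 22 (by decide)]; simp [c24t]
  · rw [h23]; simp [c24t]

theorem five_zero {N : ℕ} (hN : N = 4 ∨ N = 24) (ψ : DirichletCharacter ℂ N) (hprim : ψ.IsPrimitive)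
    (hpar : ψ (-1) = -1) : IsUnitAt 5 (lValue 5 5 ψ / 5) := by
  rcases hN with rfl | rfl
  · have hv := val_four ψ hpar
    have h5 : ψ ((5 : ℕ) : ZMod 4) = 1 := by
      have : ((5 : ℕ) : ZMod 4) = 1 := by decide
      rw [this, map_one]
    have hS : ∑ a ∈ range 4, ψ (a : ZMod 4) * (((Polynomial.bernoulli 5).eval ((a : ℚ) / (4 : ℕ)) : ℚ) : ℂ) =
        ((∑ a ∈ range 4, (c4t a : ℚ) * (Polynomial.bernoulli 5).eval ((a : ℚ) / (4 : ℕ)) : ℚ) : ℂ) := by
      push_cast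
      refine Finset.sum_congr rfl fun a ha => ?_
      rw [hv a (mem_range.1 ha)]
    have hQ : ∑ a ∈ range 4, (c4t a : ℚ) * (Polynomial.bernoulli 5).eval ((a : ℚ) / (4 : ℕ)) = -25 / 512 := by
      simp only [bern5, Finset.sum_range_succ, Finset.sum_range_zero, c4t]
      norm_num
    refine unit_rat' (by norm_num) 312 1 (by norm_num) (by norm_num) ?_
    rw [lValue_eq (by norm_num), hS, hQ, h5]
    push_cast
    norm_num
  · have hv := val_24 ψ hprim hpar
    have h5 : ψ ((5 : ℕ) : ZMod 24) = 1 := by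
      rw [hv 5 (by norm_num)]
      simp [c24t]
    have hS : ∑ a ∈ range 24, ψ (a : ZMod 24) * (((Polynomial.bernoulli 5).eval ((a : ℚ) / (24 : ℕ)) : ℚ) : ℂ) =
        ((∑ a ∈ range 24, (c24t a : ℚ) * (Polynomial.bernoulli 5).eval ((a : ℚ) / (24 : ℕ)) : ℚ) : ℂ) := by
      push_cast
      refine Finset.sum_congr rfl fun a ha => ?_
      rw [hv a (mem_range.1 ha)]
    have hQ : ∑ a ∈ range 24, (c24t a : ℚ) * (Polynomial.bernoulli 5).eval ((a : ℚ) / (24 : ℕ)) =
        -39850 / 331776 := by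
      simp only [bern5, Finset.sum_range_succ, Finset.sum_range_zero, c24t]
      norm_num
    refine unit_rat' (by norm_num) (1594 * 624) 1 (by norm_num) (by norm_num) ?_
    rw [lValue_eq (by norm_num), hS, hQ, h5]
    push_cast
    norm_num

end Pool.Agent.X218.GX
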