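import Pool.Agent.X218.GX.Cls

/-!
# The levels `1` and `3`, and the main theorem
-/

set_option autoImplicit false

namespace Pool.Agent.X218.GX

open Finset Polynomial
open Pool.Agent.Y18.GX (FF FF_map FF_natDegree zc zc_spec unit_main unit_gen fst snd dec_nat dec_neg snd_prim sum_char
  Adm)

/-- The generalized Bernoulli number `B_{m,ψ} = N^(m-1) ∑_{a=1}^N ψ(a) B_m(a/N)`. -/
noncomputable def genBernoulli (m : ℕ) {N : ℕ} (ψ : DirichletCharacter ℂ N) : ℂ :=
  (N : ℂ) ^ (m - 1) * ∑ a ∈ Finset.Icc 1 N, ψ (a : ZMod N) *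
    (((Polynomial.bernoulli m).eval ((a : ℚ) / N) : ℚ) : ℂ)

/-- `(1 - ψ(p) p^(m-1)) B_{m,ψ} / m`, the value at `1 - m` of the `L`-function of `ψ` without Euler factor
at `p` (up to the sign). -/
noncomputable def lValue (p m : ℕ) {N : ℕ} (ψ : DirichletCharacter ℂ N) : ℂ :=
  (1 - ψ (p : ZMod N) * (p : ℂ) ^ (m - 1)) * genBernoulli m ψ / m

/-- `z` is a unit at all places above `p`: it is not zero, and for some integer `c` prime to `p` the numbers
`c z` and `c / z` are algebraic integers. -/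
def IsUnitAt (p : ℕ) (z : ℂ) : Prop :=
  z ≠ 0 ∧ ∃ c : ℤ, IsCoprime (p : ℤ) c ∧ IsIntegral ℤ ((c : ℂ) * z) ∧ IsIntegral ℤ ((c : ℂ) * z⁻¹)

lemma sum_Icc {N : ℕ} (f : ℕ → ℂ) (h0 : f 0 = 0) (hN : f N = 0) :
    ∑ a ∈ Icc 1 N, f a = ∑ a ∈ range N, f a := by
  rcases Nat.eq_zero_or_pos N with h | h
  · subst h
    simp
  · have h1 : ∑ a ∈ range (N + 1), f a = ∑ a ∈ range N, f a + f N := Finset.sum_range_succ f N
    have h2 : ∑ a ∈ range (N + 1), f a = ∑ a ∈ Icc 1 N, f a + f 0 := by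
      rw [Finset.sum_range_succ']
      congr 1
      refine Finset.sum_bij (fun a _ => a + 1) ?_ ?_ ?_ (fun _ _ => rfl)
      · intro a ha
        have := mem_range.1 ha
        rw [mem_Icc]
        omega
      · intro a _ b _ hab
        omega
      · intro b hb
        rw [mem_Icc] at hb
        exact ⟨b - 1, mem_range.2 (by omega), by omega⟩
    rw [h1, hN, h0, add_zero, add_zero] at h2
    exact h2.symm

lemma lValue_eq {p m N : ℕ} (hN1 : N ≠ 1) (ψ : DirichletCharacter ℂ N) :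
    lValue p m ψ = (1 - ψ (p : ZMod N) * (p : ℂ) ^ (m - 1)) * ((N : ℂ) ^ (m - 1) *
      ∑ a ∈ range N, ψ (a : ZMod N) * (((Polynomial.bernoulli m).eval ((a : ℚ) / N) : ℚ) : ℂ)) / m := by
  unfold lValue genBernoulli
  rw [sum_Icc]
  · rw [Nat.cast_zero, DirichletCharacter.map_zero' ψ hN1, zero_mul]
  · rw [ZMod.natCast_self, DirichletCharacter.map_zero' ψ hN1, zero_mul]

lemma unit_rat {p : ℕ} (a b : ℤ) (ha : a ≠ 0) (hb : b ≠ 0) (hpa : IsCoprime (p : ℤ) a) (hpb : IsCoprime (p : ℤ) b)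
    {z : ℂ} (hz : z = a / b) : IsUnitAt p z := by
  have ha' : (a : ℂ) ≠ 0 := by exact_mod_cast ha
  have hb' : (b : ℂ) ≠ 0 := by exact_mod_cast hb
  refine ⟨by rw [hz]; exact div_ne_zero ha' hb', a * b, hpa.mul_right hpb, ?_, ?_⟩
  · have : ((a * b : ℤ) : ℂ) * z = ((a ^ 2 : ℤ) : ℂ) := by
      rw [hz]
      push_cast
      field_simp
    rw [this]
    exact isIntegral_algebraMap (x := a ^ 2)
  · have : ((a * b : ℤ) : ℂ) * z⁻¹ = ((b ^ 2 : ℤ) : ℂ) := by
      rw [hz]
      push_cast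
      field_simp
    rw [this]
    exact isIntegral_algebraMap (x := b ^ 2)

/-- units among the rational numbers -/
lemma unit_rat' {p : ℕ} (hp : p.Prime) (a b : ℤ) (hpa : ¬ (p : ℤ) ∣ a) (hpb : ¬ (p : ℤ) ∣ b)
    {z : ℂ} (hz : z = a / b) : IsUnitAt p z := by
  have hp' : Prime (p : ℤ) := Nat.prime_iff_prime_int.1 hp
  refine unit_rat a b ?_ ?_ ?_ ?_ hz
  · rintro rfl
    exact hpa (dvd_zero _)
  · rintro rfl
    exact hpb (dvd_zero _)
  · exact (Irreducible.coprime_iff_not_dvd hp'.irreducible).2 hpa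
  · exact (Irreducible.coprime_iff_not_dvd hp'.irreducible).2 hpb

/-- `d^m f(x/d)` as an integer -/
def homog (m : ℕ) (f : ℤ[X]) (x d : ℤ) : ℤ := ∑ i ∈ range (m + 1), f.coeff i * x ^ i * d ^ (m - i)

lemma homog_cast {k : Type*} [Field k] {m : ℕ} {f : ℤ[X]} (hf : f.natDegree ≤ m) (x d : ℤ) (hd : (d : k) ≠ 0) :
    ((homog m f x d : ℤ) : k) = (d : k) ^ m * aeval ((x : k) / (d : k)) f := by
  unfold homog
  rw [aeval_eq_sum_range' (Nat.lt_succ_of_le hf), Finset.mul_sum]
  push_cast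
  refine Finset.sum_congr rfl fun i hi => ?_
  have hi' : i ≤ m := Nat.lt_succ_iff.1 (mem_range.1 hi)
  rw [zsmul_eq_mul, div_pow]
  have : (d : k) ^ m = (d : k) ^ i * (d : k) ^ (m - i) := by
    rw [← pow_add]
    congr 1
    omega
  rw [this]
  field_simp

lemma not_dvd_fact {p m : ℕ} (hp : p.Prime) (hmp : m < p) : ¬ p ∣ m.factorial := fun h => by
  have := (hp.dvd_factorial).1 h
  omega

/-- the level `3` -/
lemma level_one {p m : ℕ} (hp : p.Prime) (hp3 : p % 3 = 2) (hp5 : 5 ≤ p) (hm1 : 1 ≤ m) (hmp : m < p)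
    (hT : m % 2 = 1 → S (m - 1) ((p + 1) / 3) ((p + 1) / 3) % p ≠ 0)
    (ψ : DirichletCharacter ℂ (3 ^ 1)) (hprim : ψ.IsPrimitive) (hpar : ψ (-1) = (-1) ^ m) :
    IsUnitAt p (lValue p m ψ) := by
  have hψ1 : ψ ≠ 1 := by
    intro h
    rw [h, DirichletCharacter.isPrimitive_def, DirichletCharacter.conductor_one] at hprim
    norm_num at hprim
  have hψ2 : ψ 2 = -1 := by
    have h2 : ψ 2 ^ 2 = 1 := by
      rw [← map_pow]
      have : (2 : ZMod (3 ^ 1)) ^ 2 = 1 := by decide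
      rw [this, map_one]
    have h2' : (ψ 2 - 1) * (ψ 2 + 1) = 0 := by linear_combination h2
    rcases mul_eq_zero.1 h2' with h3 | h3
    · rw [sub_eq_zero] at h3
      exfalso
      apply hψ1
      ext U
      have h4 : ∀ x : ZMod (3 ^ 1), IsUnit x → x = 1 ∨ x = 2 := by decide
      rcases h4 U U.isUnit with h5 | h5
      · rw [h5, map_one, MulChar.one_apply isUnit_one]
      · rw [h5, h3]
        have : IsUnit (2 : ZMod (3 ^ 1)) := h5 ▸ U.isUnit
        rw [MulChar.one_apply this]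
    · exact eq_neg_of_add_eq_zero_left h3
  have hneg : (-1 : ZMod (3 ^ 1)) = 2 := by decide
  rw [hneg, hψ2] at hpar
  have hodd : m % 2 = 1 := by
    by_contra hcon
    have : Even m := Nat.even_iff.2 (by omega)
    rw [this.neg_one_pow] at hpar
    norm_num at hpar
  have hT' := hT hodd
  have h5 : ((p : ℕ) : ZMod (3 ^ 1)) = 2 := by
    have : ((p : ℕ) : ZMod 3) = ((2 : ℕ) : ZMod 3) := (ZMod.natCast_eq_natCast_iff' _ _ _).2 (by omega)
    exact this
  have h33 : (3 : ℕ) ^ 1 ≠ 1 := by norm_num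
  have h0 : ψ ((0 : ℕ) : ZMod (3 ^ 1)) = 0 := by
    rw [Nat.cast_zero]
    exact DirichletCharacter.map_zero' ψ h33
  have h1 : ψ ((1 : ℕ) : ZMod (3 ^ 1)) = 1 := by rw [Nat.cast_one, map_one]
  have h2 : ψ ((2 : ℕ) : ZMod (3 ^ 1)) = -1 := by
    have : ((2 : ℕ) : ZMod (3 ^ 1)) = 2 := by decide
    rw [this, hψ2]
  have hr : range (3 ^ 1) = {0, 1, 2} := by decide
  have hval : lValue p m ψ = (1 + (p : ℂ) ^ (m - 1)) * ((3 : ℂ) ^ (m - 1) *
      ((((Polynomial.bernoulli m).eval ((1 : ℚ) / 3) : ℚ) : ℂ) -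
        (((Polynomial.bernoulli m).eval ((2 : ℚ) / 3) : ℚ) : ℂ))) / m := by
    rw [lValue_eq h33, h5, hψ2, hr, Finset.sum_insert (by decide), Finset.sum_insert (by decide),
      Finset.sum_singleton, h0, h1, h2]
    push_cast
    norm_num
    ring
  -- the integers `3^m F(1/3)` and `3^m F(2/3)`
  set H1 := homog m (FF m) 1 3 with hH1
  set H2 := homog m (FF m) 2 3 with hH2
  have hFQ : ∀ x : ℚ, aeval x (FF m) = (m.factorial : ℚ) * ((Polynomial.bernoulli m).eval x - _root_.bernoulli m) := by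
    intro x
    have h2 := congrArg (fun f => f.eval x) (FF_map m)
    simp only [eval_mul, eval_C, eval_sub] at h2
    rw [← h2, eval_map, aeval_def]
    rfl
  have hQ1 := homog_cast (k := ℚ) (FF_natDegree m) 1 3 (by norm_num)
  have hQ2 := homog_cast (k := ℚ) (FF_natDegree m) 2 3 (by norm_num)
  rw [hFQ] at hQ1 hQ2
  rw [← hH1] at hQ1
  rw [← hH2] at hQ2
  have hdiff : ((H1 - H2 : ℤ) : ℚ) = 3 ^ m * (m.factorial : ℚ) * ((Polynomial.bernoulli m).eval ((1 : ℚ) / 3) -
      (Polynomial.bernoulli m).eval ((2 : ℚ) / 3)) := by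
    push_cast at hQ1 hQ2 ⊢
    linear_combination hQ1 - hQ2
  have hdiffC : ((H1 - H2 : ℤ) : ℂ) = 3 ^ m * (m.factorial : ℂ) *
      ((((Polynomial.bernoulli m).eval ((1 : ℚ) / 3) : ℚ) : ℂ) -
        (((Polynomial.bernoulli m).eval ((2 : ℚ) / 3) : ℚ) : ℂ)) := by
    have := congrArg (fun x : ℚ => (x : ℂ)) hdiff
    push_cast at this ⊢
    exact this
  have : Fact p.Prime := ⟨hp⟩
  have h3 := third (k := ZMod p) hp3
  have h30 : ((3 : ℕ) : ZMod p) ≠ 0 := left_ne_zero_of_mul_eq_one h3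
  have hp' : Prime (p : ℤ) := Nat.prime_iff_prime_int.1 hp
  have hndH : ¬ (p : ℤ) ∣ H1 - H2 := by
    intro h
    rw [← ZMod.intCast_zmod_eq_zero_iff_dvd] at h
    have hZ1 := homog_cast (k := ZMod p) (FF_natDegree m) 1 3 (by exact_mod_cast h30)
    have hZ2 := homog_cast (k := ZMod p) (FF_natDegree m) 2 3 (by exact_mod_cast h30)
    rw [← hH1] at hZ1
    rw [← hH2] at hZ2
    have e1 : ((1 : ℤ) : ZMod p) / ((3 : ℤ) : ZMod p) = (((p + 1) / 3 : ℕ) : ZMod p) := by
      rw [div_eq_iff (by exact_mod_cast h30)]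
      push_cast at h3 ⊢
      linear_combination -h3
    have e2 : ((2 : ℤ) : ZMod p) / ((3 : ℤ) : ZMod p) = (((p + 1) / 3 + (p + 1) / 3 : ℕ) : ZMod p) := by
      rw [div_eq_iff (by exact_mod_cast h30)]
      push_cast at h3 ⊢
      linear_combination -2 * h3
    rw [e1] at hZ1
    rw [e2] at hZ2
    have e3 := FF_sub (k := ZMod p) m ((p + 1) / 3) ((p + 1) / 3) hm1
    have e4 : ((3 : ℤ) : ZMod p) ^ m * ((m.factorial * m * S (m - 1) ((p + 1) / 3) ((p + 1) / 3) : ℕ) : ZMod p) = 0 := by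
      rw [← e3]
      push_cast at h hZ1 hZ2 ⊢
      linear_combination hZ1 - hZ2 - h
    rcases mul_eq_zero.1 e4 with h4 | h4
    · exact pow_ne_zero _ (by exact_mod_cast h30) h4
    · rw [ZMod.natCast_eq_zero_iff] at h4
      rcases (hp.dvd_mul).1 h4 with h4 | h4
      · rcases (hp.dvd_mul).1 h4 with h5 | h5
        · exact not_dvd_fact hp hmp h5
        · have := Nat.le_of_dvd (by omega) h5
          omega
      · exact hT' (Nat.mod_eq_zero_of_dvd h4)
  refine unit_rat' hp ((1 + (p : ℤ) ^ (m - 1)) * (H1 - H2)) (3 * m.factorial * m) ?_ ?_ ?_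
  · intro h
    rcases hp'.dvd_mul.1 h with h | h
    · rcases Nat.lt_or_ge 1 m with h6 | h6
      · have h7 : (p : ℤ) ∣ (p : ℤ) ^ (m - 1) := dvd_pow_self _ (by omega)
        have h8 : (p : ℤ) ∣ 1 := (dvd_add_left h7).1 h
        have h9 := Int.le_of_dvd one_pos h8
        omega
      · have h7 : m = 1 := by omega
        subst h7
        have h9 := Int.le_of_dvd (by norm_num) h
        norm_num at h9
        omega
    · exact hndH h
  · intro h
    have h' : p ∣ 3 * m.factorial * m := by exact_mod_cast h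
    rcases (hp.dvd_mul).1 h' with h4 | h4
    · rcases (hp.dvd_mul).1 h4 with h5 | h5
      · have := Nat.le_of_dvd (by norm_num) h5
        omega
      · exact not_dvd_fact hp hmp h5
    · have := Nat.le_of_dvd (by omega) h4
      omega
  · rw [hval]
    have hm0 : (m : ℂ) ≠ 0 := by exact_mod_cast (by omega : m ≠ 0)
    have hf0 : (m.factorial : ℂ) ≠ 0 := by exact_mod_cast (Nat.factorial_pos m).ne'
    push_cast at hdiffC ⊢
    rw [hdiffC]
    obtain ⟨e, rfl⟩ : ∃ e, m = e + 1 := ⟨m - 1, by omega⟩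
    rw [Nat.add_sub_cancel]
    field_simp
    ring

/-- the level `1` -/
lemma level_zero {p m : ℕ} (hp : p.Prime) (hp5 : 5 ≤ p) (hm1 : 1 ≤ m) (hmp : m < p) (hmp' : m ≠ p - 1)
    (hT : m % 2 = 0 → S m 0 p % p ^ 2 ≠ 0)
    (ψ : DirichletCharacter ℂ (3 ^ 0)) (hpar : ψ (-1) = (-1) ^ m) :
    IsUnitAt p (lValue p m ψ) := by
  have hψ : ∀ x, ψ x = 1 := fun x => by
    have : x = 1 := Subsingleton.elim (α := ZMod 1) x 1
    rw [this, map_one]
  rw [hψ] at hpar
  have hev : m % 2 = 0 := by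
    by_contra hcon
    have : Odd m := Nat.odd_iff.2 (by omega)
    rw [this.neg_one_pow] at hpar
    norm_num at hpar
  have hT' := hT hev
  have hp' : Prime (p : ℤ) := Nat.prime_iff_prime_int.1 hp
  have hB : (Polynomial.bernoulli m).eval (1 : ℚ) = _root_.bernoulli m := by
    rw [Polynomial.bernoulli_eval_one, bernoulli_eq_bernoulli'_of_ne_one (by omega)]
  have hval : lValue p m ψ = (1 - (p : ℂ) ^ (m - 1)) * ((_root_.bernoulli m : ℚ) : ℂ) / m := by
    unfold lValue genBernoulli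
    simp only [hψ, pow_zero, Icc_self, sum_singleton, Nat.cast_one, div_one, hB, one_pow, one_mul]
  have hz := zc_spec (Nat.lt_succ_self m)
  rw [Nat.succ_eq_add_one] at hz
  have hz' : (zc (m + 1) m : ℚ) = ((m + 1).factorial : ℚ) * (m + 1 : ℕ) * _root_.bernoulli m := by
    rw [hz, Nat.choose_succ_self_right]
    ring
  -- `p` does not divide `zc`
  have hnd : ¬ (p : ℤ) ∣ zc (m + 1) m := by
    intro h
    have h1 := FF_eval_nat (m + 1) p (by omega)
    rw [FF, eval_finset_sum, Finset.sum_range_succ] at h1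
    simp only [eval_monomial] at h1
    have h2 : (p : ℤ) ^ 2 ∣ ∑ i ∈ range m, zc (m + 1) i * (p : ℤ) ^ (m + 1 - i) := by
      refine Finset.dvd_sum fun i hi => ?_
      have := mem_range.1 hi
      exact Dvd.dvd.mul_left (pow_dvd_pow _ (by omega)) _
    have h3 : (p : ℤ) ^ 2 ∣ zc (m + 1) m * (p : ℤ) ^ (m + 1 - m) := by
      have : m + 1 - m = 1 := by omega
      rw [this, pow_one, pow_two]
      exact mul_dvd_mul_right h _
    have h4 := dvd_add h2 h3
    rw [h1] at h4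
    have h5 : p ^ 2 ∣ (m + 1).factorial * (m + 1) * ∑ j ∈ range p, j ^ m := by
      rw [Nat.add_sub_cancel] at h4
      exact_mod_cast h4
    have h6 : (p ^ 2).Coprime ((m + 1).factorial * (m + 1)) := by
      apply Nat.Coprime.pow_left
      rw [Nat.Prime.coprime_iff_not_dvd hp]
      intro h7
      rcases (hp.dvd_mul).1 h7 with h8 | h8
      · exact not_dvd_fact hp (by omega) h8
      · have := Nat.le_of_dvd (by omega) h8
        omega
    have h7 := h6.dvd_of_dvd_mul_left h5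
    apply hT'
    rw [S_eq]
    simp only [zero_add]
    exact Nat.mod_eq_zero_of_dvd h7
  refine unit_rat' hp ((1 - (p : ℤ) ^ (m - 1)) * zc (m + 1) m) ((m + 1).factorial * (m + 1 : ℕ) * m) ?_ ?_ ?_
  · intro h
    rcases hp'.dvd_mul.1 h with h | h
    · have h7 : (p : ℤ) ∣ (p : ℤ) ^ (m - 1) := dvd_pow_self _ (by omega)
      have h8 : (p : ℤ) ∣ 1 := (dvd_sub_left h7).1 h
      have h9 := Int.le_of_dvd one_pos h8
      omega
    · exact hnd h
  · intro h
    have h' : p ∣ (m + 1).factorial * (m + 1) * m := by exact_mod_cast h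
    rcases (hp.dvd_mul).1 h' with h4 | h4
    · rcases (hp.dvd_mul).1 h4 with h5 | h5
      · exact not_dvd_fact hp (by omega) h5
      · have := Nat.le_of_dvd (by omega) h5
        omega
    · have := Nat.le_of_dvd (by omega) h4
      omega
  · rw [hval]
    have hm0 : (m : ℂ) ≠ 0 := by exact_mod_cast (by omega : m ≠ 0)
    have hm0' : (m : ℂ) + 1 ≠ 0 := by exact_mod_cast (by omega : m + 1 ≠ 0)
    have hf0 : ((m + 1).factorial : ℂ) ≠ 0 := by exact_mod_cast (Nat.factorial_pos (m + 1)).ne'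
    have hzC : ((zc (m + 1) m : ℤ) : ℂ) = ((m + 1).factorial : ℂ) * (m + 1 : ℕ) * ((_root_.bernoulli m : ℚ) : ℂ) := by
      have := congrArg (fun x : ℚ => (x : ℂ)) hz'
      push_cast at this ⊢
      exact this
    push_cast at hzC ⊢
    rw [hzC]
    field_simp

end Pool.Agent.X218.GX
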