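import Pool.Agent.X218.GX.Rel
import Pool.Agent.Y18.GX.Small

/-!
# The field with `25` elements
-/

set_option autoImplicit false

namespace Pool.Agent.X218.GX

open Finset
open Pool.Agent.Y18.GX

/-- the code of `u + v θ` -/
def mk (u v : ℕ) : ℕ := Nat.add (Nat.mod u 5) (Nat.mul 5 (Nat.mod v 5))

/-- the product, `θ² = A θ + B` -/
def mul25 (A B w x : ℕ) : ℕ :=
  mk (Nat.add (Nat.mul (Nat.mod w 5) (Nat.mod x 5)) (Nat.mul B (Nat.mul (Nat.div w 5) (Nat.div x 5))))
    (Nat.add (Nat.add (Nat.mul (Nat.mod w 5) (Nat.div x 5)) (Nat.mul (Nat.div w 5) (Nat.mod x 5)))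
      (Nat.mul A (Nat.mul (Nat.div w 5) (Nat.div x 5))))

def add25 (w x : ℕ) : ℕ := mk (Nat.add (Nat.mod w 5) (Nat.mod x 5)) (Nat.add (Nat.div w 5) (Nat.div x 5))

def smul25 (n w : ℕ) : ℕ := mk (Nat.mul n (Nat.mod w 5)) (Nat.mul n (Nat.div w 5))

/-- the values of `FF` -/
def Fm (m x : ℕ) : ℕ :=
  match m with
  | 0 => 0
  | 1 => x
  | 2 => 2 * x ^ 2 + 3 * x
  | 3 => x ^ 3 + x ^ 2 + 3 * x
  | _ + 4 => 4 * x ^ 4 + 2 * x ^ 3 + 4 * x ^ 2

def AA (τ : ℕ) : ℕ := match τ with | 0 => 4 | 1 => 3 | 2 => 2 | _ + 3 => 1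
def BB (τ : ℕ) : ℕ := match τ with | 0 => 3 | 1 => 2 | 2 => 2 | _ + 3 => 3

def TT (τ : ℕ) : ℕ :=
  match τ with
  | 0 => 526184615219514835946367837108133025
  | 1 => 689775993554474286939928328245822625
  | 2 => 807960326721064421852761182950437025
  | _ + 3 => 548379909700992342241447614987608225

def pw (T i : ℕ) : ℕ := Nat.mod (Nat.shiftRight T (Nat.mul 5 i)) 32

def pe (τ m e y : ℕ) : ℕ :=
  Nat.rec (motive := fun _ => ℕ) 0 (fun t s => add25 s (smul25 (Nat.mod (Fm m (4 * (y + t))) 5)
    (pw (TT τ) (Nat.mod (Nat.mul e t) 24)))) 24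

def PTab : ℕ := 186386103333024812595719127293840791568677886548291932493368566484677743309227418904538478182165879134682791167514208367591028330560860934651468568987490182655438884543688835826367912092975859469027547619640369154231630627418207333239886122155487872717627734403114315567784652613218292253312599435035257033371900548984970212621622539338990173449837531757492899687527408922846518275272070431958086776599916471252093075428288610126531424834292308391110027257126121227308826918847083832945795528271125581646485926862282691095615926553422026022778150516877519026787567822200962411810425484488553765497614756391613575999457797326336837530046305468055304871827064796654067509260506080210100699263897053387470604738945771789065447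

def pt (τ m e y : ℕ) : ℕ :=
  Nat.mod (Nat.shiftRight PTab (5 * (((τ * 4 + (m - 1)) * 6 + e / 2) * 5 + y))) 32

def allb (n : ℕ) (f : ℕ → Bool) : Bool :=
  Nat.rec (motive := fun _ => Bool) true (fun i r => and (f i) r) n

lemma allb_spec {n : ℕ} {f : ℕ → Bool} (h : allb n f = true) : ∀ i, i < n → f i = true := by
  induction n with
  | zero => intro i hi; omega
  | succ n ih =>
    have h' : (f n && allb n f) = true := h
    rw [Bool.and_eq_true] at h'
    intro i hi
    rcases Nat.lt_succ_iff_lt_or_eq.1 hi with h1 | h1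
    · exact ih h'.2 i h1
    · rw [h1]; exact h'.1

def relb (τ m μ ζ w c f : ℕ) : Bool :=
  Nat.beq (add25 (pt τ m c (c * μ % 5)) (mul25 (AA τ) (BB τ) (pw (TT τ) ((w + 17 * c * f) % 24))
    (pt τ m (7 * c % 24) ((c * ζ + 4 * f) % 5)))) 0

def cons (c f d g : ℕ) : Bool := and (Nat.ble (d * f + 1) (c * (g + 1))) (Nat.ble (c * g + 1) (d * (f + 1)))

def ok (τ m μ ζ w : ℕ) : Bool :=
  or (!relb τ m μ ζ w 1 0) (allb 5 fun f => or (!relb τ m μ ζ w 5 f) (allb 7 fun g =>
    or (!cons 5 f 7 g) (or (!relb τ m μ ζ w 7 g) (allb 11 fun h =>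
      or (!cons 5 f 11 h) (or (!cons 7 g 11 h) (!relb τ m μ ζ w 11 h))))))

def okall : Bool := allb 4 fun τ => allb 4 fun m => allb 4 fun μ => allb 5 fun ζ => allb 24 fun w =>
  ok τ (m + 1) (μ + 1) ζ w

theorem tab_eq : (allb 4 fun τ => allb 4 fun m => allb 4 fun e => allb 5 fun y =>
    Nat.beq (pt τ (m + 1) (pw 367777 e) y) (pe τ (m + 1) (pw 367777 e) y)) = true := by
  decide +kernel

theorem okall_true : okall = true := by decide +kernel

theorem TT_spec : ∀ τ < 4, pw (TT τ) 0 = 1 ∧ ∀ i < 23, pw (TT τ) (i + 1) = mul25 (AA τ) (BB τ) (pw (TT τ) i) 5 := by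
  decide +kernel

end Pool.Agent.X218.GX
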