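import Pool.Agent.X218.GX.Main

/-!
# The primes `p ≡ 4, 7 (mod 9)` and the levels `3^K`
-/

set_option autoImplicit false

namespace Pool.Agent.X218.GX

open Finset Polynomial
open Pool.Agent.Y18.GX (FF FF_map FF_natDegree zc zc_spec unit_main unit_gen fst snd dec_nat dec_neg snd_prim sum_char
  Adm class_zero FF_aeval_refl psi_M_pow bern_int)

section
variable {p : ℕ} {k : Type*} [Field k] [CharP k p]

lemma cast_of_mod {c : ℕ} {a b : ℕ} (hc : c * a % p = b % p) : ((c : ℕ) : k) * ((a : ℕ) : k) = ((b : ℕ) : k) := by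
  rw [← Nat.cast_mul]
  exact (CharP.cast_eq_iff_mod_eq k p).2 hc

lemma div_pow_three' {c : ℕ} (hc : 3 * c % p = 1 % p) (a K : ℕ) :
    ((a : ℕ) : k) / ((3 ^ K : ℕ) : k) = ((a * c ^ K % p : ℕ) : k) := by
  have h3 : ((3 : ℕ) : k) * ((c : ℕ) : k) = 1 := by
    rw [cast_of_mod (k := k) hc, Nat.cast_one]
  have h30 : ((3 : ℕ) : k) ≠ 0 := left_ne_zero_of_mul_eq_one h3
  have h1 : ((a * c ^ K % p : ℕ) : k) = ((a * c ^ K : ℕ) : k) := by
    rw [CharP.cast_eq_iff_mod_eq k p]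
    exact Nat.mod_mod _ _
  rw [h1, div_eq_iff (by push_cast; exact pow_ne_zero _ (by exact_mod_cast h30))]
  push_cast
  have h2 : ((c : ℕ) : k) ^ K * 3 ^ K = 1 := by
    rw [← mul_pow, mul_comm]
    have : (3 : k) = ((3 : ℕ) : k) := by norm_num
    rw [this, h3, one_pow]
  linear_combination (-(a : k)) * h2

/-- the criterion for the classes, `p ≡ 4, 7 (mod 9)` -/
lemma crit1 (hp : p.Prime) (hp9 : p % 9 = 4 ∨ p % 9 = 7) (hp5 : 5 ≤ p) {K m c c' : ℕ} (hK : 2 ≤ K) (hm1 : 1 ≤ m)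
    (hmp : m < p) (hc : 3 * c % p = 1 % p) (hc' : 3 * c' % p = 2 % p) (a : ℕ) (ha : a < 3 ^ (K - 1)) (ha1 : a % 3 = 1)
    (u v : ℕ) (hu : u = S (m - 1) (a * c ^ K % p) c % p) (hv : v = S (m - 1) (a * c ^ K % p) c' % p)
    (hT : (u * u + v * v + (p - 1) * (u * v)) % p ≠ 0)
    (χ₁ : MulChar (ZMod 1) k) (χ₂ : MulChar (ZMod (3 ^ K)) k)
    (hprim : χ₂ ((1 + 3 ^ (K - 1) : ℕ) : ZMod (3 ^ K)) ≠ 1) (hpar : χ₁ (-1) * χ₂ (-1) = (-1) ^ m) :
    ∑ a ∈ range (1 * 3 ^ K), χ₁ (a : ZMod 1) * χ₂ (a : ZMod (3 ^ K)) *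
      Polynomial.aeval ((a : k) / (1 * 3 ^ K : ℕ)) (FF m) ≠ 0 := by
  intro hS
  have : Fact p.Prime := ⟨hp⟩
  have hχ : ∀ x : ZMod 1, χ₁ x = 1 := fun x => by rw [Subsingleton.elim x 1, map_one]
  have h3 : ((3 : ℕ) : k) * ((c : ℕ) : k) = 1 := by rw [cast_of_mod (k := k) hc, Nat.cast_one]
  have h3' : ((3 : ℕ) : k) * ((c' : ℕ) : k) = 2 := by
    rw [cast_of_mod (k := k) hc']
    norm_num
  have h3k : ((3 : ℕ) : k) ≠ 0 := left_ne_zero_of_mul_eq_one h3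
  have hsq : p ^ 2 % 9 = 4 ∨ p ^ 2 % 9 = 7 := by
    rw [Nat.pow_mod]
    rcases hp9 with h | h <;> rw [h] <;> simp
  obtain ⟨w, hw⟩ : ∃ w, p ^ 2 - 1 = 3 ^ 1 * w := ⟨(p ^ 2 - 1) / 3, by omega⟩
  have hwc : w.Coprime 3 := by
    rw [Nat.coprime_comm, Nat.Prime.coprime_iff_not_dvd Nat.prime_three]
    rintro ⟨w', hw'⟩
    omega
  have key := class_zero (p := p) (ℓ := 3) (n := 1) (K := K) (N₁ := 1) (g := 2) (m := m) (u := w) χ₁ χ₂
    (by omega) (Or.inl ⟨rfl, by omega⟩) le_rfl (by omega) (by norm_num) hw hwc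
    (fun a => by rw [hχ, one_pow]) hprim (by norm_num) (by norm_num) (by simp) h3k (FF m) _
    (fun x => FF_aeval_refl m x) hpar hS a ha (by simpa using ha1)
  have hξ3 := psi_M_pow (n := 1) χ₂ (by omega)
  rw [pow_one] at hξ3
  simp only [hχ, one_mul, pow_one, Finset.sum_range_succ, Finset.sum_range_zero, zero_add, pow_zero,
    mul_zero, add_zero, mul_one] at key
  set ξ := χ₂ ((1 + 3 ^ (K - 1) : ℕ) : ZMod (3 ^ K)) with hξ
  have hξ2 : ξ ^ 2 + ξ + 1 = 0 := by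
    have h1 : (ξ - 1) * (ξ ^ 2 + ξ + 1) = 0 := by linear_combination hξ3
    rcases mul_eq_zero.1 h1 with h2 | h2
    · exact absurd (sub_eq_zero.1 h2) hprim
    · exact h2
  have hξ0 : ξ ≠ 0 := by
    intro h
    rw [h] at hξ3
    norm_num at hξ3
  have hMM : ((3 ^ K : ℕ) : k) = ((3 ^ (K - 1) : ℕ) : k) * ((3 : ℕ) : k) := by
    rw [← Nat.cast_mul, ← pow_succ]
    congr 2
    omega
  have hM0 : ((3 ^ (K - 1) : ℕ) : k) ≠ 0 := by
    push_cast
    exact pow_ne_zero _ (by exact_mod_cast h3k)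
  have e1 : ((3 ^ (K - 1) : ℕ) : k) / ((3 ^ K : ℕ) : k) = ((c : ℕ) : k) := by
    rw [hMM, div_eq_iff (mul_ne_zero hM0 h3k)]
    linear_combination (-((3 ^ (K - 1) : ℕ) : k)) * h3
  have e2 : ((3 ^ (K - 1) * 2 : ℕ) : k) / ((3 ^ K : ℕ) : k) = ((c' : ℕ) : k) := by
    rw [hMM, div_eq_iff (mul_ne_zero hM0 h3k), Nat.cast_mul]
    push_cast at h3' ⊢
    linear_combination (-((3 : k) ^ (K - 1))) * h3'
  have x1 : ((a + 3 ^ (K - 1) : ℕ) : k) / ((3 ^ K : ℕ) : k) = ((a * c ^ K % p + c : ℕ) : k) := by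
    rw [Nat.cast_add, Nat.cast_add, add_div, div_pow_three' hc, e1]
  have x2 : ((a + 3 ^ (K - 1) * 2 : ℕ) : k) / ((3 ^ K : ℕ) : k) = ((a * c ^ K % p + c' : ℕ) : k) := by
    rw [Nat.cast_add, Nat.cast_add, add_div, div_pow_three' hc, e2]
  rw [x1, x2, div_pow_three' hc] at key
  have f1 := FF_sub (k := k) m (a * c ^ K % p) c hm1
  have f2 := FF_sub (k := k) m (a * c ^ K % p) c' hm1
  set X := a * c ^ K % p with hX
  have hA : ((m.factorial * m : ℕ) : k) ≠ 0 := by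
    intro h
    rw [CharP.cast_eq_zero_iff k p] at h
    rcases (hp.dvd_mul).1 h with h5 | h5
    · have := (hp.dvd_factorial).1 h5
      omega
    · have := Nat.le_of_dvd (by omega) h5
      omega
  have hu' : ((u : ℕ) : k) = ((S (m - 1) X c : ℕ) : k) := by
    rw [hu, CharP.cast_eq_iff_mod_eq k p]
    exact Nat.mod_mod _ _
  have hv' : ((v : ℕ) : k) = ((S (m - 1) X c' : ℕ) : k) := by
    rw [hv, CharP.cast_eq_iff_mod_eq k p]
    exact Nat.mod_mod _ _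
  rw [Nat.cast_mul, ← hu'] at f1
  rw [Nat.cast_mul, ← hv'] at f2
  have e3 : ((m.factorial * m : ℕ) : k) * (ξ * ((u : k) + ξ * v)) = 0 := by
    linear_combination key - ξ * f1 - ξ ^ 2 * f2 - aeval ((X : ℕ) : k) (FF m) * hξ2
  have e4 : (u : k) + ξ * v = 0 := by
    rcases mul_eq_zero.1 e3 with h | h
    · exact absurd h hA
    · exact (mul_eq_zero.1 h).resolve_left hξ0
  have e5 : ((u * u + v * v + (p - 1) * (u * v) : ℕ) : k) = 0 := by
    have h1 : 1 ≤ p := by omega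
    rw [Nat.cast_add, Nat.cast_mul (p - 1), Nat.cast_sub h1, CharP.cast_eq_zero k p]
    push_cast
    linear_combination ((u : k) + ξ ^ 2 * v) * e4 - ((u : k) * v) * hξ2 - (v : k) ^ 2 * hξ3
  rw [CharP.cast_eq_zero_iff k p] at e5
  exact hT (Nat.mod_eq_zero_of_dvd e5)

end

lemma level_big1 {p : ℕ} (hp : p.Prime) (hp9 : p % 9 = 4 ∨ p % 9 = 7) (hp5 : 5 ≤ p) {K m N c c' : ℕ}
    (hN : N = 1 * 3 ^ K) (hK : 2 ≤ K) (hm1 : 1 ≤ m) (hmp : m < p)
    (hc : 3 * c % p = 1 % p) (hc' : 3 * c' % p = 2 % p)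
    (hT : m ≤ 3 ^ (K - 2) ∨ ∃ a, a < 3 ^ (K - 1) ∧ a % 3 = 1 ∧ ∃ u v : ℕ,
      u = S (m - 1) (a * c ^ K % p) c % p ∧ v = S (m - 1) (a * c ^ K % p) c' % p ∧
        (u * u + v * v + (p - 1) * (u * v)) % p ≠ 0)
    (ψ : DirichletCharacter ℂ N) (hcd : 3 ^ K ∣ ψ.conductor) (hpar : ψ (-1) = (-1) ^ m) :
    IsUnitAt p (lValue p m ψ) := by
  subst hN
  have hcop : Nat.Coprime 1 (3 ^ K) := Nat.coprime_one_left _
  have hprim := snd_prim hcop Nat.prime_three hK one_ne_zero ψ hcd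
  have hN1 : 1 * 3 ^ K ≠ 1 := by
    rw [one_mul]
    exact (Nat.one_lt_pow (by omega) (by norm_num)).ne'
  have hψ1 : ψ ≠ 1 := by
    have : NeZero (1 * 3 ^ K) := ⟨by positivity⟩
    intro h
    rw [h, DirichletCharacter.conductor_one] at hcd
    have := Nat.dvd_one.1 hcd
    exact (Nat.one_lt_pow (by omega) (by norm_num : 1 < 3)).ne' this
  have hfst : ∀ a, fst hcop ψ a = 1 := fun a => by rw [Subsingleton.elim (α := ZMod 1) a 1, map_one]
  have hsum : ∑ a ∈ range (1 * 3 ^ K), fst hcop ψ (a : ZMod 1) * snd hcop ψ (a : ZMod (3 ^ K)) = 0 := by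
    rw [← sum_char (by positivity) ψ hψ1]
    exact Finset.sum_congr rfl fun a _ => (dec_nat hcop ψ a).symm
  have hp1 : ¬ p ∣ 1 := fun h => by
    have := Nat.dvd_one.1 h
    omega
  by_cases hs : m ≤ 3 ^ (K - 2)
  · have hsq : p ^ 2 % 9 = 4 ∨ p ^ 2 % 9 = 7 := by
      rw [Nat.pow_mod]
      rcases hp9 with h | h <;> rw [h] <;> simp
    obtain ⟨u, hu⟩ : ∃ u, p ^ 2 - 1 = 3 ^ 1 * u := ⟨(p ^ 2 - 1) / 3, by omega⟩
    have huc : u.Coprime 3 := by
      rw [Nat.coprime_comm, Nat.Prime.coprime_iff_not_dvd Nat.prime_three]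
      rintro ⟨w, hw⟩
      omega
    have hsize : m * 1 * 3 ^ (2 * 1) ≤ 3 ^ K := by
      calc m * 1 * 3 ^ (2 * 1) = m * 3 ^ 2 := by ring
        _ ≤ 3 ^ (K - 2) * 3 ^ 2 := Nat.mul_le_mul_right _ hs
        _ = 3 ^ K := by
          rw [← pow_add]
          congr 1
          omega
    have key := unit_main hp (g := 2) (n := 1) (m := m) (fst hcop ψ) (snd hcop ψ) (by omega)
      (Or.inl ⟨rfl, by omega⟩) le_rfl (by omega) (by norm_num) hu huc
      (fun a => by rw [hfst, one_pow]) hprim (by norm_num) hp1 (by omega)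
      (by rw [← dec_neg, hpar]) hm1 hmp hsize hsum
    simp only [← dec_nat] at key
    rw [lValue_eq hN1]
    exact key
  · obtain ⟨a, ha, ha1, u, v, hu, hv, hT'⟩ := hT.resolve_left hs
    have h1m : m ≠ 1 := by
      rintro rfl
      exact hs (Nat.one_le_pow _ _ (by norm_num))
    have key := unit_gen hp (g := 2) (m := m) (fst hcop ψ) (snd hcop ψ) Nat.prime_three hK
      (fun a => by rw [hfst, one_pow]) hprim hp1 (by omega)
      (by rw [← dec_neg, hpar]) hm1 hmp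
      (fun k _ _ χ₁ χ₂ _ h2 h3 => ⟨crit1 hp hp9 hp5 hK hm1 hmp hc hc' a ha ha1 u v hu hv hT' χ₁ χ₂ h2 h3,
        fun h => absurd h h1m⟩) hsum
    simp only [← dec_nat] at key
    rw [lValue_eq hN1]
    exact key

end Pool.Agent.X218.GX
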