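import Pool.Agent.X218.GX.One

/-!
# The primes `p ≡ 1 (mod 3)` and the level `3`; the trivial zero
-/

set_option autoImplicit false

namespace Pool.Agent.X218.GX

open Finset Polynomial
open Pool.Agent.Y18.GX (FF FF_map FF_natDegree zc zc_spec bern_int)

lemma psi_two (ψ : DirichletCharacter ℂ (3 ^ 1)) (hprim : ψ.IsPrimitive) : ψ 2 = -1 := by
  have hψ1 : ψ ≠ 1 := by
    intro h
    rw [h, DirichletCharacter.isPrimitive_def, DirichletCharacter.conductor_one] at hprim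
    norm_num at hprim
  have h2 : ψ 2 ^ 2 = 1 := by
    rw [← map_pow]
    have : (2 : ZMod (3 ^ 1)) ^ 2 = 1 := by decide
    rw [this, map_one]
  have h2' : (ψ 2 - 1) * (ψ 2 + 1) = 0 := by linear_combination h2
  rcases mul_eq_zero.1 h2' with h3 | h3
  · rw [sub_eq_zero] at h3
    exfalso
    apply hψ1
    ext U
    have h4 : ∀ x : ZMod (3 ^ 1), IsUnit x → x = 1 ∨ x = 2 := by decide
    rcases h4 U U.isUnit with h5 | h5
    · rw [h5, map_one, MulChar.one_apply isUnit_one]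
    · rw [h5, h3]
      have : IsUnit (2 : ZMod (3 ^ 1)) := h5 ▸ U.isUnit
      rw [MulChar.one_apply this]
  · exact eq_neg_of_add_eq_zero_left h3

lemma lValue_three {p m : ℕ} (hp3 : p % 3 = 1) (ψ : DirichletCharacter ℂ (3 ^ 1)) (hprim : ψ.IsPrimitive) :
    lValue p m ψ = (1 - (p : ℂ) ^ (m - 1)) * ((3 : ℂ) ^ (m - 1) *
      ((((Polynomial.bernoulli m).eval ((1 : ℚ) / 3) : ℚ) : ℂ) -
        (((Polynomial.bernoulli m).eval ((2 : ℚ) / 3) : ℚ) : ℂ))) / m := by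
  have hψ2 := psi_two ψ hprim
  have h5 : ((p : ℕ) : ZMod (3 ^ 1)) = 1 := by
    have : ((p : ℕ) : ZMod 3) = ((1 : ℕ) : ZMod 3) := (ZMod.natCast_eq_natCast_iff' _ _ _).2 (by omega)
    rw [Nat.cast_one] at this
    exact this
  have h33 : (3 : ℕ) ^ 1 ≠ 1 := by norm_num
  have h0 : ψ ((0 : ℕ) : ZMod (3 ^ 1)) = 0 := by
    rw [Nat.cast_zero]
    exact DirichletCharacter.map_zero' ψ h33
  have h1 : ψ ((1 : ℕ) : ZMod (3 ^ 1)) = 1 := by rw [Nat.cast_one, map_one]
  have h2 : ψ ((2 : ℕ) : ZMod (3 ^ 1)) = -1 := by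
    have : ((2 : ℕ) : ZMod (3 ^ 1)) = 2 := by decide
    rw [this, hψ2]
  have hr : range (3 ^ 1) = {0, 1, 2} := by decide
  rw [lValue_eq h33, h5, map_one, hr, Finset.sum_insert (by decide), Finset.sum_insert (by decide),
    Finset.sum_singleton, h0, h1, h2]
  push_cast
  norm_num
  ring

lemma homog_diff (m : ℕ) : ((homog m (FF m) 1 3 - homog m (FF m) 2 3 : ℤ) : ℂ) = 3 ^ m * (m.factorial : ℂ) *
      ((((Polynomial.bernoulli m).eval ((1 : ℚ) / 3) : ℚ) : ℂ) -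
        (((Polynomial.bernoulli m).eval ((2 : ℚ) / 3) : ℚ) : ℂ)) := by
  have hFQ : ∀ x : ℚ, aeval x (FF m) = (m.factorial : ℚ) * ((Polynomial.bernoulli m).eval x - _root_.bernoulli m) := by
    intro x
    have h2 := congrArg (fun f => f.eval x) (FF_map m)
    simp only [eval_mul, eval_C, eval_sub] at h2
    rw [← h2, eval_map, aeval_def]
    rfl
  have hQ1 := homog_cast (k := ℚ) (FF_natDegree m) 1 3 (by norm_num)
  have hQ2 := homog_cast (k := ℚ) (FF_natDegree m) 2 3 (by norm_num)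
  rw [hFQ] at hQ1 hQ2
  set H1 := homog m (FF m) 1 3 with hH1
  set H2 := homog m (FF m) 2 3 with hH2
  have hdiff : ((H1 - H2 : ℤ) : ℚ) = 3 ^ m * (m.factorial : ℚ) * ((Polynomial.bernoulli m).eval ((1 : ℚ) / 3) -
      (Polynomial.bernoulli m).eval ((2 : ℚ) / 3)) := by
    push_cast at hQ1 hQ2 ⊢
    linear_combination hQ1 - hQ2
  have := congrArg (fun x : ℚ => (x : ℂ)) hdiff
  push_cast at this ⊢
  exact this

/-- the level `3` for `p ≡ 1 (mod 3)`, `m ≠ 1` -/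
lemma level_one1 {p m c c' : ℕ} (hp : p.Prime) (hp3 : p % 3 = 1) (hp5 : 5 ≤ p) (hm2 : 2 ≤ m) (hmp : m < p)
    (hc : 3 * c % p = 1 % p) (hc' : 3 * c' % p = 2 % p) (hcc : c' ≤ c)
    (hT : m % 2 = 1 → S (m - 1) c' (c - c') % p ≠ 0)
    (ψ : DirichletCharacter ℂ (3 ^ 1)) (hprim : ψ.IsPrimitive) (hpar : ψ (-1) = (-1) ^ m) :
    IsUnitAt p (lValue p m ψ) := by
  have hψ2 := psi_two ψ hprim
  have hneg : (-1 : ZMod (3 ^ 1)) = 2 := by decide
  rw [hneg, hψ2] at hpar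
  have hodd : m % 2 = 1 := by
    by_contra hcon
    have : Even m := Nat.even_iff.2 (by omega)
    rw [this.neg_one_pow] at hpar
    norm_num at hpar
  have hT' := hT hodd
  have hval := lValue_three (m := m) hp3 ψ hprim
  have hdiffC := homog_diff m
  set H1 := homog m (FF m) 1 3 with hH1
  set H2 := homog m (FF m) 2 3 with hH2
  have : Fact p.Prime := ⟨hp⟩
  have h3 : ((3 : ℕ) : ZMod p) * ((c : ℕ) : ZMod p) = 1 := by rw [cast_of_mod (k := ZMod p) hc, Nat.cast_one]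
  have h3' : ((3 : ℕ) : ZMod p) * ((c' : ℕ) : ZMod p) = 2 := by
    rw [cast_of_mod (k := ZMod p) hc']
    norm_num
  have h30 : ((3 : ℕ) : ZMod p) ≠ 0 := left_ne_zero_of_mul_eq_one h3
  have hp' : Prime (p : ℤ) := Nat.prime_iff_prime_int.1 hp
  have hndH : ¬ (p : ℤ) ∣ H1 - H2 := by
    intro h
    rw [← ZMod.intCast_zmod_eq_zero_iff_dvd] at h
    have hZ1 := homog_cast (k := ZMod p) (FF_natDegree m) 1 3 (by exact_mod_cast h30)
    have hZ2 := homog_cast (k := ZMod p) (FF_natDegree m) 2 3 (by exact_mod_cast h30)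
    rw [← hH1] at hZ1
    rw [← hH2] at hZ2
    have e1 : ((1 : ℤ) : ZMod p) / ((3 : ℤ) : ZMod p) = ((c' + (c - c') : ℕ) : ZMod p) := by
      rw [div_eq_iff (by exact_mod_cast h30), Nat.add_sub_cancel' hcc]
      push_cast at h3 ⊢
      linear_combination -h3
    have e2 : ((2 : ℤ) : ZMod p) / ((3 : ℤ) : ZMod p) = ((c' : ℕ) : ZMod p) := by
      rw [div_eq_iff (by exact_mod_cast h30)]
      push_cast at h3' ⊢
      linear_combination -h3'
    rw [e1] at hZ1
    rw [e2] at hZ2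
    have e3 := FF_sub (k := ZMod p) m c' (c - c') (by omega)
    have e4 : ((3 : ℤ) : ZMod p) ^ m * ((m.factorial * m * S (m - 1) c' (c - c') : ℕ) : ZMod p) = 0 := by
      rw [← e3]
      push_cast at h hZ1 hZ2 ⊢
      linear_combination h - hZ1 + hZ2
    rcases mul_eq_zero.1 e4 with h4 | h4
    · exact pow_ne_zero _ (by exact_mod_cast h30) h4
    · rw [ZMod.natCast_eq_zero_iff] at h4
      rcases (hp.dvd_mul).1 h4 with h4 | h4
      · rcases (hp.dvd_mul).1 h4 with h5 | h5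
        · exact not_dvd_fact hp hmp h5
        · have := Nat.le_of_dvd (by omega) h5
          omega
      · exact hT' (Nat.mod_eq_zero_of_dvd h4)
  refine unit_rat' hp ((1 - (p : ℤ) ^ (m - 1)) * (H1 - H2)) (3 * m.factorial * m) ?_ ?_ ?_
  · intro h
    rcases hp'.dvd_mul.1 h with h | h
    · have h7 : (p : ℤ) ∣ (p : ℤ) ^ (m - 1) := dvd_pow_self _ (by omega)
      have h8 : (p : ℤ) ∣ 1 := (dvd_sub_left h7).1 h
      have h9 := Int.le_of_dvd one_pos h8
      omega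
    · exact hndH h
  · intro h
    have h' : p ∣ 3 * m.factorial * m := by exact_mod_cast h
    rcases (hp.dvd_mul).1 h' with h4 | h4
    · rcases (hp.dvd_mul).1 h4 with h5 | h5
      · have := Nat.le_of_dvd (by norm_num) h5
        omega
      · exact not_dvd_fact hp hmp h5
    · have := Nat.le_of_dvd (by omega) h4
      omega
  · rw [hval]
    have hm0 : (m : ℂ) ≠ 0 := by exact_mod_cast (by omega : m ≠ 0)
    have hf0 : (m.factorial : ℂ) ≠ 0 := by exact_mod_cast (Nat.factorial_pos m).ne'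
    push_cast at hdiffC ⊢
    rw [hdiffC]
    obtain ⟨e, rfl⟩ : ∃ e, m = e + 1 := ⟨m - 1, by omega⟩
    rw [Nat.add_sub_cancel]
    field_simp
    ring

/-- the coefficients of `p! (B_p(x) - B_p)` are divisible by `p` -/
lemma p_dvd_zc {p i : ℕ} (hp : p.Prime) (hi : i < p) : (p : ℤ) ∣ zc p i := by
  have h := zc_spec hi
  obtain ⟨z, hz⟩ := bern_int i
  obtain ⟨w, hw⟩ := Nat.factorial_dvd_factorial (show i + 1 ≤ p by omega)
  rcases Nat.eq_zero_or_pos i with h0 | h0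
  · subst h0
    have h1 : (zc p 0 : ℚ) = ((p.factorial : ℤ) : ℚ) := by
      rw [h]
      simp
    have h2 : zc p 0 = (p.factorial : ℤ) := by exact_mod_cast h1
    rw [h2]
    exact_mod_cast Nat.dvd_factorial hp.pos le_rfl
  · obtain ⟨c, hc⟩ := hp.dvd_choose_self h0.ne' hi
    have h1 : (zc p i : ℚ) = (((p : ℤ) * (w * z * c) : ℤ) : ℚ) := by
      rw [h, hc, hw]
      push_cast
      rw [← hz]
      ring
    have h2 : zc p i = (p : ℤ) * (w * z * c) := by exact_mod_cast h1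
    rw [h2]
    exact dvd_mul_right _ _

lemma p_dvd_coeff {p : ℕ} (hp : p.Prime) (i : ℕ) : (p : ℤ) ∣ (FF p).coeff i := by
  rw [FF, finset_sum_coeff]
  refine Finset.dvd_sum fun j hj => ?_
  rw [coeff_monomial]
  split_ifs
  · exact p_dvd_zc hp (mem_range.1 hj)
  · exact dvd_zero _

/-- `3^p F(x/3)` modulo `p^4` -/
lemma homog_mod {p : ℕ} (hp : p.Prime) (x X : ℤ) (hX : (p : ℤ) ^ 3 ∣ 3 * X - x) :
    (p : ℤ) ^ 4 ∣ 3 ^ p * (FF p).eval X - homog p (FF p) x 3 := by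
  have h1 : 3 ^ p * (FF p).eval X - homog p (FF p) x 3 =
      ∑ i ∈ range (p + 1), (FF p).coeff i * 3 ^ (p - i) * ((3 * X) ^ i - x ^ i) := by
    unfold homog
    rw [eval_eq_sum_range' (Nat.lt_succ_of_le (FF_natDegree p)), Finset.mul_sum, ← Finset.sum_sub_distrib]
    refine Finset.sum_congr rfl fun i hi => ?_
    have hi' : i ≤ p := Nat.lt_succ_iff.1 (mem_range.1 hi)
    have : (3 : ℤ) ^ p = 3 ^ i * 3 ^ (p - i) := by
      rw [← pow_add]
      congr 1
      omega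
    rw [this, mul_pow]
    ring
  rw [h1]
  refine Finset.dvd_sum fun i _ => ?_
  have h2 : (p : ℤ) ^ 3 ∣ (3 * X) ^ i - x ^ i := hX.trans (sub_dvd_pow_sub_pow _ _ i)
  have h3 : (p : ℤ) ^ 4 = p * p ^ 3 := by ring
  rw [h3]
  exact mul_dvd_mul ((p_dvd_coeff hp i).mul_right _) h2

/-- the trivial zero -/
lemma trivial_zero {p X1 X2 : ℕ} (hp : p.Prime) (hp3 : p % 3 = 1) (hp5 : 5 ≤ p)
    (h1 : 3 * X1 % p ^ 3 = 1) (h2 : 3 * X2 % p ^ 3 = 2) (h12 : X2 ≤ X1)
    (hD : S (p - 1) X2 (X1 - X2) % p = 0) (hD' : S (p - 1) X2 (X1 - X2) % p ^ 2 ≠ 0)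
    (ψ : DirichletCharacter ℂ (3 ^ 1)) (hprim : ψ.IsPrimitive) :
    IsUnitAt p (lValue p p ψ / p) := by
  have hval := lValue_three (m := p) hp3 ψ hprim
  have hdiffC := homog_diff p
  have hp' : Prime (p : ℤ) := Nat.prime_iff_prime_int.1 hp
  have hm1 : (p : ℤ) ^ 4 ∣ 3 ^ p * (FF p).eval (X1 : ℤ) - homog p (FF p) 1 3 := by
    apply homog_mod hp
    have : ((3 * X1 : ℕ) : ℤ) - ((1 : ℕ) : ℤ) = 3 * (X1 : ℤ) - 1 := by push_cast; ring
    rw [← this, ← Nat.cast_pow]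
    exact (Nat.modEq_iff_dvd).1 (by
      show 1 % p ^ 3 = 3 * X1 % p ^ 3
      rw [h1]
      exact Nat.mod_eq_of_lt (by
        calc 1 < p := by omega
          _ = p ^ 1 := (pow_one p).symm
          _ ≤ p ^ 3 := Nat.pow_le_pow_right (by omega) (by norm_num)))
  have hm2 : (p : ℤ) ^ 4 ∣ 3 ^ p * (FF p).eval (X2 : ℤ) - homog p (FF p) 2 3 := by
    apply homog_mod hp
    have : ((3 * X2 : ℕ) : ℤ) - ((2 : ℕ) : ℤ) = 3 * (X2 : ℤ) - 2 := by push_cast; ring
    rw [← this, ← Nat.cast_pow]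
    exact (Nat.modEq_iff_dvd).1 (by
      show 2 % p ^ 3 = 3 * X2 % p ^ 3
      rw [h2]
      exact Nat.mod_eq_of_lt (by
        calc 2 < p := by omega
          _ = p ^ 1 := (pow_one p).symm
          _ ≤ p ^ 3 := Nat.pow_le_pow_right (by omega) (by norm_num)))
  set H1 := homog p (FF p) 1 3 with hH1
  set H2 := homog p (FF p) 2 3 with hH2
  set D := S (p - 1) X2 (X1 - X2) with hDd
  -- the difference of the values at the integers
  have hdiff : (FF p).eval (X1 : ℤ) - (FF p).eval (X2 : ℤ) = (p.factorial : ℤ) * p * D := by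
    have h3 := FF_eval_nat p X1 hp.one_lt.le
    have h4 := FF_eval_nat p X2 hp.one_lt.le
    have h5 : ∑ j ∈ range X1, (j : ℤ) ^ (p - 1) = ∑ j ∈ range X2, (j : ℤ) ^ (p - 1) + (D : ℤ) := by
      have h6 : X1 = X2 + (X1 - X2) := by omega
      conv_lhs => rw [h6]
      rw [Finset.sum_range_add, hDd, S_eq]
      push_cast
      rfl
    rw [h3, h4, h5]
    ring
  obtain ⟨e, he⟩ : ∃ e, p = e + 1 := ⟨p - 1, by omega⟩
  have hfac : p.factorial = p * (p - 1).factorial := by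
    rw [he, Nat.factorial_succ, Nat.add_sub_cancel]
  obtain ⟨D', hD2⟩ : p ∣ D := Nat.dvd_of_mod_eq_zero hD
  have hD3 : ¬ p ∣ D' := by
    rintro ⟨D'', h6⟩
    apply hD'
    rw [hD2, h6, ← mul_assoc, ← pow_two]
    exact Nat.mul_mod_right _ _
  have hH : (p : ℤ) ^ 4 ∣ (H1 - H2) - 3 ^ p * ((p.factorial : ℤ) * p * D) := by
    rw [← hdiff]
    have h6 := dvd_sub hm2 hm1
    have h7 : 3 ^ p * (FF p).eval (X2 : ℤ) - H2 - (3 ^ p * (FF p).eval (X1 : ℤ) - H1) =
      (H1 - H2) - 3 ^ p * ((FF p).eval (X1 : ℤ) - (FF p).eval (X2 : ℤ)) := by ring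
    rwa [h7] at h6
  obtain ⟨q, hq⟩ := hH
  have hHeq : H1 - H2 = (p : ℤ) ^ 3 * (3 ^ p * ((p - 1).factorial * D') + p * q) := by
    have h8 : H1 - H2 = 3 ^ p * ((p.factorial : ℤ) * p * D) + (p : ℤ) ^ 4 * q := by linear_combination hq
    rw [h8, hD2, hfac]
    push_cast
    ring
  set h := 3 ^ p * (((p - 1).factorial : ℤ) * D') + p * q with hh
  have hph : ¬ (p : ℤ) ∣ h := by
    intro h6
    rw [hh, dvd_add_left (dvd_mul_right _ _)] at h6
    rcases hp'.dvd_mul.1 h6 with h7 | h7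
    · have h8 := hp'.dvd_of_dvd_pow h7
      have h9 := Int.le_of_dvd (by norm_num) h8
      omega
    · rcases hp'.dvd_mul.1 h7 with h8 | h8
      · have h9 : p ∣ (p - 1).factorial := by exact_mod_cast h8
        exact not_dvd_fact hp (by omega) h9
      · exact hD3 (by exact_mod_cast h8)
  refine unit_rat' hp ((1 - (p : ℤ) ^ (p - 1)) * h) (3 * (p - 1).factorial) ?_ ?_ ?_
  · intro h6
    rcases hp'.dvd_mul.1 h6 with h6 | h6
    · have h7 : (p : ℤ) ∣ (p : ℤ) ^ (p - 1) := dvd_pow_self _ (by omega)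
      have h8 : (p : ℤ) ∣ 1 := (dvd_sub_left h7).1 h6
      have h9 := Int.le_of_dvd one_pos h8
      omega
    · exact hph h6
  · intro h6
    have h' : p ∣ 3 * (p - 1).factorial := by exact_mod_cast h6
    rcases (hp.dvd_mul).1 h' with h5 | h5
    · have := Nat.le_of_dvd (by norm_num) h5
      omega
    · exact not_dvd_fact hp (by omega) h5
  · rw [hval]
    have hm0 : (p : ℂ) ≠ 0 := by exact_mod_cast (by omega : p ≠ 0)
    have hf0 : ((p - 1).factorial : ℂ) ≠ 0 := by exact_mod_cast (Nat.factorial_pos (p - 1)).ne'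
    rw [hHeq, hfac] at hdiffC
    push_cast at hdiffC ⊢
    have h3p : (3 : ℂ) ^ p = 3 ^ (p - 1) * 3 := by
      rw [← pow_succ]
      congr 1
      omega
    generalize hB : (((Polynomial.bernoulli p).eval ((1 : ℚ) / 3) : ℚ) : ℂ) -
        (((Polynomial.bernoulli p).eval ((2 : ℚ) / 3) : ℚ) : ℂ) = B at hdiffC ⊢
    have hB2 : B * (3 ^ (p - 1) * 3 * (p * ((p - 1).factorial : ℂ))) = (p : ℂ) ^ 3 * (h : ℂ) := by
      rw [← h3p]
      linear_combination -hdiffC
    rw [div_div, div_eq_div_iff (mul_ne_zero hm0 hm0) (mul_ne_zero (by norm_num) hf0)]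
    have hp0 : (p : ℂ) * ((1 - (p : ℂ) ^ (p - 1)) * (3 ^ (p - 1) * B) * (3 * ((p - 1).factorial : ℂ)) -
        (1 - (p : ℂ) ^ (p - 1)) * h * (p * p)) = 0 := by
      linear_combination (1 - (p : ℂ) ^ (p - 1)) * hB2
    have := (mul_eq_zero.1 hp0).resolve_left hm0
    linear_combination this

end Pool.Agent.X218.GX
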