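import Pool.Agent.X218.GX.Two

/-!
# The relations for pairs of classes
-/

set_option autoImplicit false

namespace Pool.Agent.X218.GX

open Finset
open Pool.Agent.Y18.GX

section
variable {k : Type*} [Field k] (Ψ : ℕ → k) {M : ℕ} (hmul : ∀ x y, Ψ (x * y) = Ψ x * Ψ y)
  (hper : ∀ x y, Ψ (x + 24 * M * y) = Ψ x) (h1 : Ψ 1 = 1) (hM : 24 ∣ M)

include hmul hper h1 hM

lemma P_one_add (s : ℕ) : Ψ (1 + M * s) = Ψ (1 + M) ^ s := by
  induction s with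
  | zero => simpa using h1
  | succ s ih =>
    obtain ⟨w, hw⟩ := hM
    rw [pow_succ, ← ih, ← hmul]
    have : (1 + M * s) * (1 + M) = 1 + M * (s + 1) + 24 * M * (w * s) := by
      have h2 : M * M = 24 * M * w := by
        conv_lhs => rw [hw]
        conv_rhs => rw [hw]
        ring
      calc (1 + M * s) * (1 + M) = 1 + M * (s + 1) + M * M * s := by ring
        _ = 1 + M * (s + 1) + 24 * M * (w * s) := by rw [h2]; ring
    rw [this, hper]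

lemma P_add {c : ℕ} (hc : c * c % 24 = 1) (t : ℕ) : Ψ (c + M * t) = Ψ c * Ψ (1 + M) ^ (c * t) := by
  rw [← P_one_add Ψ hmul hper h1 hM, ← hmul]
  have : c * (1 + M * (c * t)) = c + M * t + 24 * M * (t * (c * c / 24)) := by
    have h2 : c * c = 24 * (c * c / 24) + 1 := by omega
    calc c * (1 + M * (c * t)) = c + M * t * (c * c) := by ring
      _ = c + M * t * (24 * (c * c / 24) + 1) := by rw [← h2]
      _ = _ := by ring
  rw [this, hper]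

lemma theta24 : Ψ (1 + M) ^ 24 = 1 := by
  rw [← P_one_add Ψ hmul hper h1 hM]
  have := hper 1 1
  rw [h1, mul_one] at this
  rw [← this]
  congr 1
  ring

omit hmul hper h1 hM in
lemma pow_mod24 {θ : k} (h : θ ^ 24 = 1) {x y : ℕ} (hxy : x % 24 = y % 24) : θ ^ x = θ ^ y := by
  rw [← Nat.div_add_mod x 24, ← Nat.div_add_mod y 24, hxy, pow_add, pow_add, pow_mul, pow_mul, h, one_pow, one_pow]

lemma P_geom {c : ℕ} (hc : c * c % 24 = 1) (hθ : Ψ (1 + M) ≠ 1) : ∑ t ∈ range 24, Ψ (c + M * t) = 0 := by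
  have h24 := theta24 Ψ hmul hper h1 hM
  simp only [P_add Ψ hmul hper h1 hM hc]
  rw [← Finset.mul_sum]
  have h2 : ∑ t ∈ range 24, Ψ (1 + M) ^ (c * t) = ∑ t ∈ range 24, (Ψ (1 + M) ^ c) ^ t :=
    Finset.sum_congr rfl fun t _ => pow_mul _ _ _
  rw [h2]
  have h3 : Ψ (1 + M) ^ c ≠ 1 := by
    intro h
    apply hθ
    have h4 : Ψ (1 + M) ^ (c * c) = Ψ (1 + M) ^ 1 := pow_mod24 h24 (by omega)
    rw [pow_mul, h, one_pow, pow_one] at h4
    exact h4.symm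
  have h4 := mul_neg_geom_sum (Ψ (1 + M) ^ c) 24
  rw [← pow_mul, mul_comm c 24, pow_mul, h24, one_pow, sub_self] at h4
  rcases mul_eq_zero.1 h4 with h5 | h5
  · exact absurd (sub_eq_zero.1 h5).symm h3
  · rw [h5, mul_zero]

end

lemma if_four {k : Type*} [AddCommMonoid k] (A B C D : Prop) [Decidable A] [Decidable B] [Decidable C] [Decidable D]
    (h1 : ¬ (A ∧ B)) (h2 : ¬ (C ∧ D)) (v : k) :
    (if A ∧ C then v else 0) + (if B ∧ D then v else 0) + (if B ∧ C then v else 0) + (if A ∧ D then v else 0) =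
      if A ∨ B then (if C ∨ D then v else 0) else 0 := by
  by_cases hA : A <;> by_cases hB : B <;> by_cases hC : C <;> by_cases hD : D <;> simp_all

section
variable {k : Type*} [Field k] {p : ℕ} [Fact p.Prime] [CharP k p]

/-- the relation for a pair of classes -/
theorem pair {a b g₂ g₃ u₂ u₃ m : ℕ} (ψ₁ : MulChar (ZMod (2 ^ a)) k) (ψ₂ : MulChar (ZMod (3 ^ b)) k)
    (hp2 : p ≠ 2) (ha : 6 ≤ a) (hb : 2 ≤ b)
    (hA3 : Adm 3 (p ^ g₃)) (hq3 : p ^ g₃ - 1 = 3 ^ 1 * u₃) (hu3 : u₃.Coprime 3) (hψ₁ : ∀ x, ψ₁ x ^ p ^ g₃ = ψ₁ x)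
    (hA2 : Adm 2 (p ^ g₂)) (hq2 : p ^ g₂ - 1 = 2 ^ 3 * u₂) (hu2 : u₂.Coprime 2) (hψ₂ : ∀ x, ψ₂ x ^ p ^ g₂ = ψ₂ x)
    (hprim₁ : ψ₁ ((1 + 2 ^ (a - 1) : ℕ) : ZMod (2 ^ a)) ≠ 1)
    (hprim₂ : ψ₂ ((1 + 3 ^ (b - 1) : ℕ) : ZMod (3 ^ b)) ≠ 1)
    (h2k : ((2 : ℕ) : k) ≠ 0) (h3k : ((3 : ℕ) : k) ≠ 0)
    (F : Polynomial ℤ) (c₀ : k)
    (hF : ∀ x : k, Polynomial.aeval (1 - x) F = (-1) ^ m * Polynomial.aeval x F + c₀)
    (hpar : ψ₁ (-1) * ψ₂ (-1) = (-1) ^ m)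
    (hS : ∑ x ∈ range (2 ^ a * 3 ^ b), ψ₁ (x : ZMod (2 ^ a)) * ψ₂ (x : ZMod (3 ^ b)) *
      Polynomial.aeval ((x : k) / (2 ^ a * 3 ^ b : ℕ)) F = 0)
    (hgeom : ∀ c, c * c % 24 = 1 → ∑ t ∈ range 24,
      ψ₁ ((c + 2 ^ (a - 3) * 3 ^ (b - 1) * t : ℕ) : ZMod (2 ^ a)) *
      ψ₂ ((c + 2 ^ (a - 3) * 3 ^ (b - 1) * t : ℕ) : ZMod (3 ^ b)) = 0)
    (c c' : ℕ) (hc : c < 2 ^ (a - 3) * 3 ^ (b - 1)) (hc' : c' < 2 ^ (a - 3) * 3 ^ (b - 1)) (hc24 : c * c % 24 = 1)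
    (h2 : 2 ^ (a - 3) ∣ c + c') (h3 : c' % 3 ^ (b - 1) = c % 3 ^ (b - 1)) :
    ∑ t ∈ range 24, ψ₁ ((c + 2 ^ (a - 3) * 3 ^ (b - 1) * t : ℕ) : ZMod (2 ^ a)) *
      ψ₂ ((c + 2 ^ (a - 3) * 3 ^ (b - 1) * t : ℕ) : ZMod (3 ^ b)) *
      Polynomial.aeval (((c + 2 ^ (a - 3) * 3 ^ (b - 1) * t : ℕ) : k) / (2 ^ a * 3 ^ b : ℕ)) F +
    ∑ t ∈ range 24, ψ₁ ((c' + 2 ^ (a - 3) * 3 ^ (b - 1) * t : ℕ) : ZMod (2 ^ a)) *
      ψ₂ ((c' + 2 ^ (a - 3) * 3 ^ (b - 1) * t : ℕ) : ZMod (3 ^ b)) *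
      Polynomial.aeval (((c' + 2 ^ (a - 3) * 3 ^ (b - 1) * t : ℕ) : k) / (2 ^ a * 3 ^ b : ℕ)) F = 0 := by
  set N := 2 ^ a * 3 ^ b with hN
  set M₂ := 2 ^ (a - 3) with hM₂
  set M₃ := 3 ^ (b - 1) with hM₃
  have hNM : N = M₂ * M₃ * 24 := by
    have e1 : 2 ^ a = 2 ^ (a - 3) * 2 ^ 3 := by rw [← pow_add]; congr 1; omega
    have e2 : 3 ^ b = 3 ^ (b - 1) * 3 := by rw [← pow_succ]; congr 1; omega
    rw [hN, hM₂, hM₃, e1, e2]
    ring
  have hM20 : 0 < M₂ := by positivity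
  have hM30 : 0 < M₃ := by positivity
  have h8 : 8 ∣ M₂ := by
    rw [hM₂, show (8 : ℕ) = 2 ^ 3 by norm_num]
    exact pow_dvd_pow _ (by omega)
  have h3d : 3 ∣ M₃ := by
    rw [hM₃]
    exact dvd_pow_self 3 (by omega)
  have hcop : M₂.Coprime M₃ := Nat.Coprime.pow _ _ (by norm_num)
  have hNk0 : ((N : ℕ) : k) ≠ 0 := by
    rw [hN]
    push_cast at h2k h3k ⊢
    exact mul_ne_zero (pow_ne_zero _ h2k) (pow_ne_zero _ h3k)
  -- the residues of `c` and `c'`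
  have hc8 : c % 8 % 2 = 1 := by
    by_contra hcon
    have : c % 2 = 0 := by omega
    have h4 : c * c % 2 = 0 := by rw [Nat.mul_mod, this]
    omega
  have hc3 : c % 3 ≠ 0 := by
    intro h
    have h4 : c * c % 3 = 0 := by rw [Nat.mul_mod, h]
    omega
  have hc'24 : c' * c' % 24 = 1 := by
    have e1 : 8 ∣ c + c' := h8.trans h2
    have e2 : c' % 3 = c % 3 := by
      have := congrArg (fun x => x % 3) h3
      simpa only [Nat.mod_mod_of_dvd _ h3d] using this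
    have e3 : c' % 24 = 7 * c % 24 := by omega
    rw [Nat.mul_mod, e3, ← Nat.mul_mod]
    have : 7 * c * (7 * c) = 49 * (c * c) := by ring
    rw [this, Nat.mul_mod, hc24]
  have hc'2 : c' % 2 = 1 := by
    by_contra hcon
    have : c' % 2 = 0 := by omega
    have h4 : c' * c' % 2 = 0 := by rw [Nat.mul_mod, this]
    omega
  -- the first step
  have hst1 := two_classes ψ₂ hp2 hA3 le_rfl (by omega) hq3 hu3 hprim₂ h3k N
    (fun x => ψ₁ (x : ZMod (2 ^ a)) * Polynomial.aeval ((x : k) / (N : ℕ)) F) (by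
      intro x
      rw [mul_pow, frob_fix, hψ₁]) (by
      rw [← hS]
      refine Finset.sum_congr rfl fun x _ => ?_
      ring) (c % M₃) (Nat.mod_lt _ hM30) (by
      intro h
      have h4 : 3 ∣ c := (Nat.dvd_mod_iff h3d).1 h
      omega)
  have hst2 := two_classes ψ₁ hp2 hA2 (by norm_num) (show 2 * 3 ≤ a by omega) hq2 hu2 hprim₁ h2k N
    (fun x => if x % M₃ = c % M₃ ∨ x % M₃ = M₃ - c % M₃ then
      ψ₂ (x : ZMod (3 ^ b)) * Polynomial.aeval ((x : k) / (N : ℕ)) F else 0) (by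
      intro x
      split_ifs
      · rw [mul_pow, frob_fix, hψ₂]
      · rw [zero_pow]
        exact (Nat.pos_of_ne_zero (pow_ne_zero _ (Fact.out : p.Prime).ne_zero)).ne') (by
      refine Eq.trans (Finset.sum_congr rfl fun x _ => ?_) hst1
      rw [mul_ite, mul_zero, ← hM₃]
      split_ifs
      · ring
      · rfl) (c % M₂) (Nat.mod_lt _ hM20) (by
      intro h
      have h4 : 2 ∣ c := (Nat.dvd_mod_iff ((by norm_num : 2 ∣ 8).trans h8)).1 h
      omega)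
  rw [← hM₂] at hst2
  -- the four classes
  have hc0 : c ≠ 0 := by
    rintro rfl
    norm_num at hc24
  have hc'0 : c' ≠ 0 := by
    rintro rfl
    norm_num at hc'24
  set M := M₂ * M₃ with hM
  have hc2' : c' % M₂ = M₂ - c % M₂ := by
    have e1 : (c % M₂ + c' % M₂) % M₂ = 0 := by
      rw [← Nat.add_mod]
      exact Nat.mod_eq_zero_of_dvd h2
    have e2 : c % M₂ < M₂ := Nat.mod_lt _ hM20
    have e3 : c' % M₂ < M₂ := Nat.mod_lt _ hM20
    have e4 : c % M₂ ≠ 0 := by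
      intro h
      have h4 : 2 ∣ c := ((by norm_num : 2 ∣ 8).trans h8).trans (Nat.dvd_of_mod_eq_zero h)
      omega
    obtain ⟨w, hw⟩ := Nat.dvd_of_mod_eq_zero e1
    have : w = 1 := by
      rcases Nat.lt_or_ge w 1 with h | h
      · have : w = 0 := by omega
        subst this
        omega
      · rcases Nat.lt_or_ge 1 w with h' | h'
        · have : M₂ * 2 ≤ M₂ * w := Nat.mul_le_mul_left _ h'
          omega
        · omega
    subst this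
    omega
  have hneg : ∀ d : ℕ, 0 < d → ∀ e, e < M → e % d ≠ 0 → d ∣ M → (M - e) % d = d - e % d := by
    intro d hd e he he0 hdM
    obtain ⟨w, hw⟩ := hdM
    have e1 := Nat.mod_add_div e d
    have e2 : e % d < d := Nat.mod_lt _ hd
    have e3 : e / d < w := by
      by_contra hcon
      push Not at hcon
      have : d * w ≤ d * (e / d) := Nat.mul_le_mul_left _ hcon
      omega
    have e4 : M - e = (d - e % d) + d * (w - 1 - e / d) := by
      have h9 : d * w = d * (w - 1 - e / d) + d * (e / d) + d := by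
        have : w = (w - 1 - e / d) + e / d + 1 := by omega
        conv_lhs => rw [this]
        ring
      omega
    rw [e4, Nat.add_mul_mod_self_left, Nat.mod_eq_of_lt (by omega)]
  have hcM2 : c % M₂ ≠ 0 := by
    intro h
    have h4 : 2 ∣ c := ((by norm_num : 2 ∣ 8).trans h8).trans (Nat.dvd_of_mod_eq_zero h)
    omega
  have hcM3 : c % M₃ ≠ 0 := by
    intro h
    have h4 : 3 ∣ c := h3d.trans (Nat.dvd_of_mod_eq_zero h)
    omega
  have hc'M2 : c' % M₂ ≠ 0 := by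
    intro h
    have h4 : 2 ∣ c' := ((by norm_num : 2 ∣ 8).trans h8).trans (Nat.dvd_of_mod_eq_zero h)
    omega
  have hc'M3 : c' % M₃ ≠ 0 := by rw [h3]; exact hcM3
  have q1 : ∀ x, x % M = c ↔ x % M₂ = c % M₂ ∧ x % M₃ = c % M₃ := fun x => crt_class hcop hc
  have q2 : ∀ x, x % M = M - c ↔ x % M₂ = M₂ - c % M₂ ∧ x % M₃ = M₃ - c % M₃ := by
    intro x
    rw [hM, crt_class hcop (by omega), ← hM, hneg M₂ hM20 c hc hcM2 (dvd_mul_right _ _),
      hneg M₃ hM30 c hc hcM3 (dvd_mul_left _ _)]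
  have q3 : ∀ x, x % M = c' ↔ x % M₂ = M₂ - c % M₂ ∧ x % M₃ = c % M₃ := by
    intro x
    rw [hM, crt_class hcop hc', hc2', h3]
  have q4 : ∀ x, x % M = M - c' ↔ x % M₂ = c % M₂ ∧ x % M₃ = M₃ - c % M₃ := by
    intro x
    have e2 : c % M₂ < M₂ := Nat.mod_lt _ hM20
    rw [hM, crt_class hcop (by omega), ← hM, hneg M₂ hM20 c' hc' hc'M2 (dvd_mul_right _ _),
      hneg M₃ hM30 c' hc' hc'M3 (dvd_mul_left _ _), hc2', h3]
    have : M₂ - (M₂ - c % M₂) = c % M₂ := by omega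
    rw [this]
  have d2 : c % M₂ ≠ M₂ - c % M₂ := by
    intro h
    have e2 : c % M₂ < M₂ := Nat.mod_lt _ hM20
    obtain ⟨w, hw⟩ := h8
    have e3 : c % M₂ % 2 = c % 2 := Nat.mod_mod_of_dvd _ ((by norm_num : 2 ∣ 8).trans ⟨w, hw⟩)
    omega
  have d3 : c % M₃ ≠ M₃ - c % M₃ := by
    intro h
    have e2 : c % M₃ < M₃ := Nat.mod_lt _ hM30
    have e3 : c % M₃ % 3 = c % 3 := Nat.mod_mod_of_dvd _ h3d
    omega
  set Ψ : ℕ → k := fun x => ψ₁ (x : ZMod (2 ^ a)) * ψ₂ (x : ZMod (3 ^ b)) with hΨ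
  have hfour : ∑ x ∈ range N, (if x % M = c then Ψ x * Polynomial.aeval ((x : k) / (N : ℕ)) F else 0) +
      ∑ x ∈ range N, (if x % M = M - c then Ψ x * Polynomial.aeval ((x : k) / (N : ℕ)) F else 0) +
      ∑ x ∈ range N, (if x % M = c' then Ψ x * Polynomial.aeval ((x : k) / (N : ℕ)) F else 0) +
      ∑ x ∈ range N, (if x % M = M - c' then Ψ x * Polynomial.aeval ((x : k) / (N : ℕ)) F else 0) = 0 := by
    rw [← Finset.sum_add_distrib, ← Finset.sum_add_distrib, ← Finset.sum_add_distrib]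
    refine Eq.trans (Finset.sum_congr rfl fun x _ => ?_) hst2
    have e1 := if_four (x % M₂ = c % M₂) (x % M₂ = M₂ - c % M₂) (x % M₃ = c % M₃) (x % M₃ = M₃ - c % M₃)
      (fun h => d2 (h.1.symm.trans h.2)) (fun h => d3 (h.1.symm.trans h.2))
      (Ψ x * Polynomial.aeval ((x : k) / (N : ℕ)) F)
    have e2 : ψ₁ (x : ZMod (2 ^ a)) * (if x % M₃ = c % M₃ ∨ x % M₃ = M₃ - c % M₃ then
        ψ₂ (x : ZMod (3 ^ b)) * Polynomial.aeval ((x : k) / (N : ℕ)) F else 0) =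
        if x % M₃ = c % M₃ ∨ x % M₃ = M₃ - c % M₃ then
          Ψ x * Polynomial.aeval ((x : k) / (N : ℕ)) F else 0 := by
      rw [mul_ite, mul_zero, ← mul_assoc]
    rw [e2, ← e1]
    simp only [q1, q2, q3, q4]
  -- reflection
  have hΨN : ∀ j, j ≤ N → Ψ (N - j) = (-1) ^ m * Ψ j := by
    intro j hj
    have e1 : ((N - j : ℕ) : ZMod (2 ^ a)) = (-1) * (j : ZMod (2 ^ a)) := by
      rw [Nat.cast_sub hj, hN, Nat.cast_mul, ZMod.natCast_self (2 ^ a)]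
      ring
    have e2 : ((N - j : ℕ) : ZMod (3 ^ b)) = (-1) * (j : ZMod (3 ^ b)) := by
      rw [Nat.cast_sub hj, hN, Nat.cast_mul, ZMod.natCast_self (3 ^ b)]
      ring
    simp only [hΨ]
    rw [e1, e2, map_mul, map_mul, ← hpar]
    ring
  have hMN : M ∣ N := ⟨24, hNM⟩
  have hM0 : 0 < M := Nat.mul_pos hM20 hM30
  rw [refl_class hMN hM0 F c₀ hF Ψ hΨN hNk0 c hc0 hc, refl_class hMN hM0 F c₀ hF Ψ hΨN hNk0 c' hc'0 hc'] at hfour
  rw [hNM, class_sum M 24 c hc, class_sum M 24 c hc, class_sum M 24 c' hc', class_sum M 24 c' hc', ← hNM] at hfour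
  have g1 : ∑ t ∈ range 24, Ψ (c + M * t) = 0 := hgeom c hc24
  have g2 : ∑ t ∈ range 24, Ψ (c' + M * t) = 0 := hgeom c' hc'24
  rw [Finset.sum_add_distrib, Finset.sum_add_distrib, ← Finset.mul_sum, ← Finset.mul_sum, g1, g2, mul_zero,
    add_zero, add_zero] at hfour
  have h22 : (2 : k) ≠ 0 := by exact_mod_cast h2k
  have hfin : (2 : k) * (∑ t ∈ range 24, Ψ (c + M * t) * Polynomial.aeval (((c + M * t : ℕ) : k) / (N : ℕ)) F +
      ∑ t ∈ range 24, Ψ (c' + M * t) * Polynomial.aeval (((c' + M * t : ℕ) : k) / (N : ℕ)) F) = 0 := by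
    linear_combination hfour
  exact (mul_eq_zero.1 hfin).resolve_left h22

end

end Pool.Agent.X218.GX
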