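import Pool.Agent.X218.GX.Ps

/-!
# Conductors `2^K` for primes `p ≡ 3 (mod 8)`: the relations
-/

set_option autoImplicit false

namespace Pool.Agent.X218.GX

open Finset Polynomial Pool.Agent.Y18.GX

section
variable {p : ℕ} {k : Type*} [Field k] [CharP k p]

lemma half (hp2 : p % 2 = 1) : ((2 : ℕ) : k) * (((p + 1) / 2 : ℕ) : k) = 1 := by
  rw [← Nat.cast_mul]
  have : 2 * ((p + 1) / 2) = p + 1 := by omega
  rw [this]
  push_cast
  rw [CharP.cast_eq_zero k p, zero_add]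

/-- `a / 2^K` in characteristic `p` -/
lemma div_pow_two (hp2 : p % 2 = 1) (a K : ℕ) :
    ((a : ℕ) : k) / ((2 ^ K : ℕ) : k) = ((a * ((p + 1) / 2) ^ K % p : ℕ) : k) := by
  have h3 := half (k := k) hp2
  have h30 : ((2 : ℕ) : k) ≠ 0 := left_ne_zero_of_mul_eq_one h3
  have h1 : ((a * ((p + 1) / 2) ^ K % p : ℕ) : k) = ((a * ((p + 1) / 2) ^ K : ℕ) : k) := by
    rw [CharP.cast_eq_iff_mod_eq k p]
    exact Nat.mod_mod _ _
  rw [h1, div_eq_iff (by push_cast; exact pow_ne_zero _ (by exact_mod_cast h30))]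
  push_cast
  have h2 : (((p + 1) / 2 : ℕ) : k) ^ K * 2 ^ K = 1 := by
    rw [← mul_pow, mul_comm]
    have : (2 : k) = ((2 : ℕ) : k) := by norm_num
    rw [this, h3, one_pow]
  linear_combination (-(a : k)) * h2

/-- the power sum which gives the difference at distance `1/2` -/
def sv (p K m a : ℕ) : ℕ := S (m - 1) (a * ((p + 1) / 2) ^ K % p) ((p + 1) / 2) % p

lemma diff_half (hp2 : p % 2 = 1) {K m : ℕ} (hK : 1 ≤ K) (hm : 1 ≤ m) (a : ℕ) :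
    Polynomial.aeval (((a + 2 ^ (K - 1) : ℕ) : k) / (2 ^ K : ℕ)) (FF m) -
      Polynomial.aeval ((a : k) / (2 ^ K : ℕ)) (FF m) = ((m.factorial * m * sv p K m a : ℕ) : k) := by
  have h3 := half (k := k) hp2
  have h30 : ((2 : ℕ) : k) ≠ 0 := left_ne_zero_of_mul_eq_one h3
  have h2 : ((a + 2 ^ (K - 1) : ℕ) : k) / ((2 ^ K : ℕ) : k) =
      ((a * ((p + 1) / 2) ^ K % p + (p + 1) / 2 : ℕ) : k) := by
    rw [Nat.cast_add, Nat.cast_add, add_div, div_pow_two hp2]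
    congr 1
    rw [div_eq_iff (by push_cast; exact pow_ne_zero _ (by exact_mod_cast h30))]
    obtain ⟨L, rfl⟩ : ∃ L, K = L + 1 := ⟨K - 1, by omega⟩
    rw [Nat.add_sub_cancel, pow_succ, Nat.cast_mul]
    linear_combination (-((2 ^ L : ℕ) : k)) * h3
  rw [h2, div_pow_two hp2, FF_sub m _ _ hm]
  unfold sv
  rw [Nat.cast_mul, Nat.cast_mul (m.factorial * m)]
  congr 1
  rw [CharP.cast_eq_iff_mod_eq k p]
  exact (Nat.mod_mod _ _).symm

/-- the two quadratic relations -/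
lemma quad (hp : p.Prime) (hp8 : p % 8 = 3) {ξ D0 D1 D2 D3 : k} (hξ : ξ ^ 4 = -1) (h0 : D0 ^ p = D0) (h1 : D1 ^ p = D1)
    (h2 : D2 ^ p = D2) (h3 : D3 ^ p = D3) (h : D0 + ξ * D1 + ξ ^ 2 * D2 + ξ ^ 3 * D3 = 0) :
    2 * D0 ^ 2 + (D1 + D3) ^ 2 = 0 ∧ 2 * D2 ^ 2 + (D1 - D3) ^ 2 = 0 := by
  have : Fact p.Prime := ⟨hp⟩
  have hξ8 : ξ ^ 8 = 1 := by
    rw [show 8 = 4 * 2 by norm_num, pow_mul, hξ]
    ring
  have hξ0 : ξ ≠ 0 := by
    rintro rfl
    norm_num at hξ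
  have hξp : ξ ^ p = ξ ^ 3 := by
    have h4 : p = 8 * (p / 8) + 3 := by omega
    rw [h4, pow_add, pow_mul, hξ8, one_pow, one_mul]
  have hF : D0 + ξ ^ 3 * D1 - ξ ^ 2 * D2 + ξ * D3 = 0 := by
    have h4 : (D0 + ξ * D1 + ξ ^ 2 * D2 + ξ ^ 3 * D3) ^ p = 0 := by rw [h, zero_pow hp.ne_zero]
    rw [add_pow_char, add_pow_char, add_pow_char, mul_pow, mul_pow, mul_pow, h0, h1, h2, h3, ← pow_mul, ← pow_mul,
      mul_comm 2 p, mul_comm 3 p, pow_mul, pow_mul, hξp] at h4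
    linear_combination h4 - (ξ ^ 2 * D2 + (ξ ^ 5 - ξ) * D3) * hξ
  have e1 : 2 * D0 + (ξ + ξ ^ 3) * (D1 + D3) = 0 := by linear_combination h + hF
  have e2 : ξ * ((D1 - D3) * (1 - ξ ^ 2) + 2 * ξ * D2) = 0 := by linear_combination h - hF
  have e3 := (mul_eq_zero.1 e2).resolve_left hξ0
  have h2k : (2 : k) ≠ 0 := by
    have := half (k := k) (p := p) (by omega)
    have h5 : ((2 : ℕ) : k) ≠ 0 := left_ne_zero_of_mul_eq_one this
    exact_mod_cast h5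
  constructor
  · have : 2 * (2 * D0 ^ 2 + (D1 + D3) ^ 2) = 0 := by
      linear_combination (2 * D0 - (ξ + ξ ^ 3) * (D1 + D3)) * e1 + ((D1 + D3) ^ 2 * (ξ ^ 2 + 2)) * hξ
    exact (mul_eq_zero.1 this).resolve_left h2k
  · have : (2 * ξ ^ 2) * (2 * D2 ^ 2 + (D1 - D3) ^ 2) = 0 := by
      linear_combination (2 * ξ * D2 - (D1 - D3) * (1 - ξ ^ 2)) * e3 + (D1 - D3) ^ 2 * hξ
    exact (mul_eq_zero.1 this).resolve_left (mul_ne_zero h2k (pow_ne_zero _ hξ0))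

/-- the numerical test for four differences -/
def qt (p a b c d : ℕ) : Bool :=
  ((2 * a ^ 2 + (b + d) ^ 2) % p != 0) || ((2 * c ^ 2 + (b + (p - d % p)) ^ 2) % p != 0)

lemma quad_nat (hp : p.Prime) (hp8 : p % 8 = 3) {ξ e : k} (he : e ≠ 0) (hep : e ^ p = e) {a b c d : ℕ} (hξ : ξ ^ 4 = -1)
    (h : e * (a : k) + ξ * (e * b) + ξ ^ 2 * (e * c) + ξ ^ 3 * (e * d) = 0) : qt p a b c d = false := by
  have : Fact p.Prime := ⟨hp⟩
  have hfix : ∀ n : ℕ, ((n : ℕ) : k) ^ p = n := fun n => by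
    have h1 := frobenius_def (R := k) p (n : k)
    rw [← h1, map_natCast]
  have hf : ∀ n : ℕ, (e * (n : k)) ^ p = e * n := fun n => by rw [mul_pow, hep, hfix]
  obtain ⟨h1, h2⟩ := quad hp hp8 hξ (hf a) (hf b) (hf c) (hf d) h
  have e1 : e ^ 2 * (((2 * a ^ 2 + (b + d) ^ 2 : ℕ)) : k) = 0 := by
    push_cast
    linear_combination h1
  have hdp : d % p ≤ p := (Nat.mod_lt _ hp.pos).le
  have hd : (((p - d % p : ℕ)) : k) = - (d : k) := by
    rw [Nat.cast_sub hdp, CharP.cast_eq_zero k p, zero_sub]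
    congr 1
    rw [CharP.cast_eq_iff_mod_eq k p]
    exact Nat.mod_mod _ _
  have e2 : e ^ 2 * (((2 * c ^ 2 + (b + (p - d % p)) ^ 2 : ℕ)) : k) = 0 := by
    rw [Nat.cast_add, Nat.cast_pow (b + (p - d % p)), Nat.cast_add b, hd]
    push_cast
    linear_combination h2
  have e3 := (CharP.cast_eq_zero_iff k p _).1 ((mul_eq_zero.1 e1).resolve_left (pow_ne_zero _ he))
  have e4 := (CharP.cast_eq_zero_iff k p _).1 ((mul_eq_zero.1 e2).resolve_left (pow_ne_zero _ he))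
  unfold qt
  rw [Nat.mod_eq_zero_of_dvd e3, Nat.mod_eq_zero_of_dvd e4]
  rfl

end

end Pool.Agent.X218.GX
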