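import Pool.Agent.X218.GX.Pow2

/-!
# Conductors `2^K` for primes `p ≡ 3 (mod 8)`: the levels
-/

set_option autoImplicit false

namespace Pool.Agent.X218.GX

open Finset Polynomial Pool.Agent.Y18.GX

section
variable {p : ℕ} {k : Type*} [Field k] [CharP k p]

/-- the values of `F_m` -/
noncomputable def Av (k : Type*) [Field k] (K m a : ℕ) : k := Polynomial.aeval ((a : k) / (2 ^ K : ℕ)) (FF m)

/-- the differences -/
noncomputable def Dv (k : Type*) [Field k] (K m a : ℕ) : k := Av k K m a - Av k K m (a + 2 ^ (K - 1))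

lemma Dv_eq (hp2 : p % 2 = 1) {K m : ℕ} (hK : 1 ≤ K) (hm : 1 ≤ m) (a : ℕ) :
    Dv k K m a = (-((m.factorial * m : ℕ) : k)) * (sv p K m a : ℕ) := by
  have h := diff_half (k := k) hp2 hK hm a
  unfold Dv Av
  rw [Nat.cast_mul] at h
  linear_combination -h

lemma chi_even {K : ℕ} (hK : 1 ≤ K) (χ : MulChar (ZMod (2 ^ K)) k) (a : ℕ) (ha : a % 2 = 0) :
    χ ((a : ℕ) : ZMod (2 ^ K)) = 0 := by
  apply χ.map_nonunit
  rw [ZMod.isUnit_iff_coprime]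
  intro h
  have h2 : 2 ∣ Nat.gcd a (2 ^ K) := Nat.dvd_gcd (Nat.dvd_of_mod_eq_zero ha) (dvd_pow_self 2 (by omega))
  rw [h] at h2
  omega

lemma chi_prim {K : ℕ} (hK : 2 ≤ K) (χ : MulChar (ZMod (2 ^ K)) k)
    (hprim : χ ((1 + 2 ^ (K - 1) : ℕ) : ZMod (2 ^ K)) ≠ 1) : χ ((1 + 2 ^ (K - 1) : ℕ) : ZMod (2 ^ K)) = -1 := by
  have h := psi_M_pow χ (n := 1) (by omega)
  rw [pow_one] at h
  have h1 : (χ ((1 + 2 ^ (K - 1) : ℕ) : ZMod (2 ^ K)) - 1) * (χ ((1 + 2 ^ (K - 1) : ℕ) : ZMod (2 ^ K)) + 1) = 0 := by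
    linear_combination h
  rcases mul_eq_zero.1 h1 with h2 | h2
  · exact absurd (sub_eq_zero.1 h2) hprim
  · exact eq_neg_of_add_eq_zero_left h2

lemma chi_half {K : ℕ} (hK : 2 ≤ K) (χ : MulChar (ZMod (2 ^ K)) k)
    (hprim : χ ((1 + 2 ^ (K - 1) : ℕ) : ZMod (2 ^ K)) ≠ 1) (a : ℕ) :
    χ ((a + 2 ^ (K - 1) : ℕ) : ZMod (2 ^ K)) = - χ ((a : ℕ) : ZMod (2 ^ K)) := by
  rcases Nat.mod_two_eq_zero_or_one a with ha | ha
  · have h2 : (a + 2 ^ (K - 1)) % 2 = 0 := by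
      have : 2 ^ (K - 1) % 2 = 0 := by
        obtain ⟨L, hL⟩ : ∃ L, K - 1 = L + 1 := ⟨K - 2, by omega⟩
        rw [hL, pow_succ]
        exact Nat.mul_mod_left _ _
      omega
    rw [chi_even (by omega) χ _ ha, chi_even (by omega) χ _ h2, neg_zero]
  · have h1 : ((a + 2 ^ (K - 1) : ℕ) : ZMod (2 ^ K)) = ((a : ℕ) : ZMod (2 ^ K)) * ((1 + 2 ^ (K - 1) : ℕ) : ZMod (2 ^ K)) := by
      rw [← Nat.cast_mul, ZMod.natCast_eq_natCast_iff]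
      obtain ⟨b, rfl⟩ : ∃ b, a = 2 * b + 1 := ⟨a / 2, by omega⟩
      have h2 : (2 * b + 1) * (1 + 2 ^ (K - 1)) = 2 * b + 1 + 2 ^ (K - 1) + 2 ^ K * b := by
        have : 2 ^ K = 2 * 2 ^ (K - 1) := by
          rw [← pow_succ']
          congr 1
          omega
        rw [this]
        ring
      rw [h2]
      exact (Nat.ModEq.symm (by
        rw [Nat.ModEq, Nat.add_mul_mod_self_left]))
    rw [h1, map_mul, chi_prim hK χ hprim]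
    ring

lemma halfsum {K : ℕ} (hK : 2 ≤ K) (m : ℕ) (χ : MulChar (ZMod (2 ^ K)) k)
    (hprim : χ ((1 + 2 ^ (K - 1) : ℕ) : ZMod (2 ^ K)) ≠ 1)
    (hS : ∑ a ∈ range (2 ^ K), χ (a : ZMod (2 ^ K)) * Av k K m a = 0) :
    ∑ a ∈ range (2 ^ (K - 1)), χ (a : ZMod (2 ^ K)) * Dv k K m a = 0 := by
  have h1 : 2 ^ K = 2 ^ (K - 1) + 2 ^ (K - 1) := by
    rw [← two_mul, ← pow_succ']
    congr 1
    omega
  rw [show range (2 ^ K) = range (2 ^ (K - 1) + 2 ^ (K - 1)) by rw [← h1], Finset.sum_range_add,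
    ← Finset.sum_add_distrib] at hS
  rw [← hS]
  refine Finset.sum_congr rfl fun a _ => ?_
  rw [add_comm (2 ^ (K - 1)) a, chi_half hK χ hprim a]
  unfold Dv
  ring

lemma Dv_refl (hp2 : p % 2 = 1) {K m : ℕ} (hK : 1 ≤ K) (a : ℕ) (ha : a ≤ 2 ^ (K - 1)) :
    Dv k K m (2 ^ (K - 1) - a) = - (-1) ^ m * Dv k K m a := by
  have h2k : ((2 ^ K : ℕ) : k) ≠ 0 := by
    have := left_ne_zero_of_mul_eq_one (half (k := k) (p := p) hp2)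
    push_cast
    exact pow_ne_zero _ (by exact_mod_cast this)
  have h1 : 2 ^ K = 2 ^ (K - 1) + 2 ^ (K - 1) := by
    rw [← two_mul, ← pow_succ']
    congr 1
    omega
  have e1 : ((2 ^ (K - 1) - a : ℕ) : k) / (2 ^ K : ℕ) = 1 - ((a + 2 ^ (K - 1) : ℕ) : k) / (2 ^ K : ℕ) := by
    rw [eq_sub_iff_add_eq, ← add_div, ← Nat.cast_add, div_eq_one_iff_eq h2k]
    congr 1
    omega
  have e2 : ((2 ^ (K - 1) - a + 2 ^ (K - 1) : ℕ) : k) / (2 ^ K : ℕ) = 1 - ((a : ℕ) : k) / (2 ^ K : ℕ) := by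
    rw [eq_sub_iff_add_eq, ← add_div, ← Nat.cast_add, div_eq_one_iff_eq h2k]
    congr 1
    omega
  unfold Dv Av
  rw [e1, e2, FF_aeval_refl, FF_aeval_refl]
  ring

lemma chi_refl {K m : ℕ} (hK : 2 ≤ K) (χ : MulChar (ZMod (2 ^ K)) k)
    (hprim : χ ((1 + 2 ^ (K - 1) : ℕ) : ZMod (2 ^ K)) ≠ 1) (hpar : χ (-1) = (-1) ^ m) (a : ℕ) (ha : a ≤ 2 ^ (K - 1)) :
    χ ((2 ^ (K - 1) - a : ℕ) : ZMod (2 ^ K)) = - (-1) ^ m * χ ((a : ℕ) : ZMod (2 ^ K)) := by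
  have h1 : 2 ^ K = 2 ^ (K - 1) + 2 ^ (K - 1) := by
    rw [← two_mul, ← pow_succ']
    congr 1
    omega
  have h2 : ((2 ^ (K - 1) - a : ℕ) : ZMod (2 ^ K)) = (-1) * ((a + 2 ^ (K - 1) : ℕ) : ZMod (2 ^ K)) := by
    have h3 : ((2 ^ (K - 1) - a + (a + 2 ^ (K - 1)) : ℕ) : ZMod (2 ^ K)) = 0 := by
      rw [show 2 ^ (K - 1) - a + (a + 2 ^ (K - 1)) = 2 ^ K by omega]
      exact ZMod.natCast_self _
    rw [Nat.cast_add] at h3
    linear_combination h3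
  rw [h2, map_mul, hpar, chi_half hK χ hprim]
  ring

lemma term_refl (hp2 : p % 2 = 1) {K m : ℕ} (hK : 2 ≤ K) (χ : MulChar (ZMod (2 ^ K)) k)
    (hprim : χ ((1 + 2 ^ (K - 1) : ℕ) : ZMod (2 ^ K)) ≠ 1) (hpar : χ (-1) = (-1) ^ m) (a : ℕ) (ha : a ≤ 2 ^ (K - 1)) :
    χ ((2 ^ (K - 1) - a : ℕ) : ZMod (2 ^ K)) * Dv k K m (2 ^ (K - 1) - a) =
      χ ((a : ℕ) : ZMod (2 ^ K)) * Dv k K m a := by
  rw [chi_refl hK χ hprim hpar a ha, Dv_refl hp2 (by omega) a ha]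
  have e4 : ((-1 : k) ^ m) * (-1) ^ m = 1 := by
    rw [← mul_pow]
    simp
  linear_combination (χ ((a : ℕ) : ZMod (2 ^ K)) * Dv k K m a) * e4

variable (hp : p.Prime) (hp8 : p % 8 = 3)

include hp in
lemma fac_ne {m : ℕ} (hm1 : 1 ≤ m) (hmp : m < p) : (-((m.factorial * m : ℕ) : k)) ≠ 0 := by
  rw [neg_ne_zero]
  intro h
  have h1 := (CharP.cast_eq_zero_iff k p _).1 h
  rcases (hp.dvd_mul).1 h1 with h2 | h2
  · have := (hp.dvd_factorial).1 h2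
    omega
  · have := Nat.le_of_dvd (by omega) h2
    omega

include hp in
lemma fac_frob {m : ℕ} : (-((m.factorial * m : ℕ) : k)) ^ p = -((m.factorial * m : ℕ) : k) := by
  have : Fact p.Prime := ⟨hp⟩
  have h1 := frobenius_def (R := k) p (-((m.factorial * m : ℕ) : k))
  rw [← h1, map_neg, map_natCast]

include hp in
lemma sv_zero {K m : ℕ} (hp2 : p % 2 = 1) (hK : 1 ≤ K) (hm1 : 1 ≤ m) (hmp : m < p) {a : ℕ} (h : Dv k K m a = 0) :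
    sv p K m a = 0 := by
  rw [Dv_eq hp2 hK hm1] at h
  have h1 := (mul_eq_zero.1 h).resolve_left (fac_ne hp hm1 hmp)
  have h2 := (CharP.cast_eq_zero_iff k p _).1 h1
  unfold sv at h2 ⊢
  exact Nat.eq_zero_of_dvd_of_lt h2 (Nat.mod_lt _ hp.pos)

include hp hp8

/-- level `4` -/
lemma lev2 {m : ℕ} (hm1 : 1 ≤ m) (hmp : m < p) (χ : MulChar (ZMod (2 ^ 2)) k)
    (hprim : χ ((1 + 2 ^ (2 - 1) : ℕ) : ZMod (2 ^ 2)) ≠ 1)
    (hS : ∑ a ∈ range (2 ^ 2), χ (a : ZMod (2 ^ 2)) * Av k 2 m a = 0) : sv p 2 m 1 = 0 := by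
  have h := halfsum le_rfl m χ hprim hS
  have e1 : ((1 : ℕ) : ZMod (2 ^ 2)) = 1 := Nat.cast_one
  have e0 := chi_even (K := 2) (by norm_num) χ 0 rfl
  have h2 : χ ((0 : ℕ) : ZMod (2 ^ 2)) * Dv k 2 m 0 + χ ((1 : ℕ) : ZMod (2 ^ 2)) * Dv k 2 m 1 = 0 := by
    simpa [Finset.sum_range_succ] using h
  rw [e0, e1, map_one, zero_mul, zero_add, one_mul] at h2
  exact sv_zero hp (by omega) (by norm_num) hm1 hmp h2

lemma two_ne : (2 : k) ≠ 0 := by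
  have := left_ne_zero_of_mul_eq_one (half (k := k) (p := p) (by omega))
  exact_mod_cast this

/-- level `8` -/
lemma lev3 {m : ℕ} (hm1 : 1 ≤ m) (hmp : m < p) (χ : MulChar (ZMod (2 ^ 3)) k)
    (hprim : χ ((1 + 2 ^ (3 - 1) : ℕ) : ZMod (2 ^ 3)) ≠ 1) (hpar : χ (-1) = (-1) ^ m)
    (hS : ∑ a ∈ range (2 ^ 3), χ (a : ZMod (2 ^ 3)) * Av k 3 m a = 0) : sv p 3 m 1 = 0 := by
  have h := halfsum (by norm_num) m χ hprim hS
  have e1 : ((1 : ℕ) : ZMod (2 ^ 3)) = 1 := Nat.cast_one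
  have e0 := chi_even (K := 3) (by norm_num) χ 0 rfl
  have e2 := chi_even (K := 3) (by norm_num) χ 2 rfl
  have h3 := term_refl (k := k) (p := p) (m := m) (by omega) (by norm_num) χ hprim hpar 1 (by norm_num)
  have h2 : χ ((0 : ℕ) : ZMod (2 ^ 3)) * Dv k 3 m 0 + χ ((1 : ℕ) : ZMod (2 ^ 3)) * Dv k 3 m 1 +
      χ ((2 : ℕ) : ZMod (2 ^ 3)) * Dv k 3 m 2 + χ ((3 : ℕ) : ZMod (2 ^ 3)) * Dv k 3 m 3 = 0 := by
    simpa [Finset.sum_range_succ] using h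
  have h3' : χ ((3 : ℕ) : ZMod (2 ^ 3)) * Dv k 3 m 3 = χ ((1 : ℕ) : ZMod (2 ^ 3)) * Dv k 3 m 1 := h3
  rw [h3', e0, e1, e2, map_one] at h2
  have h4 : 2 * Dv k 3 m 1 = 0 := by linear_combination h2
  exact sv_zero hp (by omega) (by norm_num) hm1 hmp ((mul_eq_zero.1 h4).resolve_left (two_ne hp hp8))

/-- level `16` -/
lemma lev4 {m : ℕ} (hm1 : 1 ≤ m) (hmp : m < p) (χ : MulChar (ZMod (2 ^ 4)) k)
    (hprim : χ ((1 + 2 ^ (4 - 1) : ℕ) : ZMod (2 ^ 4)) ≠ 1) (hpar : χ (-1) = (-1) ^ m)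
    (hS : ∑ a ∈ range (2 ^ 4), χ (a : ZMod (2 ^ 4)) * Av k 4 m a = 0) :
    (sv p 4 m 1 ^ 2 + sv p 4 m 3 ^ 2) % p = 0 := by
  have h := halfsum (by norm_num) m χ hprim hS
  have e1 : ((1 : ℕ) : ZMod (2 ^ 4)) = 1 := Nat.cast_one
  have e0 := chi_even (K := 4) (by norm_num) χ 0 rfl
  have e2 := chi_even (K := 4) (by norm_num) χ 2 rfl
  have e4 := chi_even (K := 4) (by norm_num) χ 4 rfl
  have e6 := chi_even (K := 4) (by norm_num) χ 6 rfl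
  have h3 := term_refl (k := k) (p := p) (m := m) (by omega) (by norm_num) χ hprim hpar 1 (by norm_num)
  have h5 := term_refl (k := k) (p := p) (m := m) (by omega) (by norm_num) χ hprim hpar 3 (by norm_num)
  have h3' : χ ((7 : ℕ) : ZMod (2 ^ 4)) * Dv k 4 m 7 = χ ((1 : ℕ) : ZMod (2 ^ 4)) * Dv k 4 m 1 := h3
  have h5' : χ ((5 : ℕ) : ZMod (2 ^ 4)) * Dv k 4 m 5 = χ ((3 : ℕ) : ZMod (2 ^ 4)) * Dv k 4 m 3 := h5
  have h2 : χ ((0 : ℕ) : ZMod (2 ^ 4)) * Dv k 4 m 0 + χ ((1 : ℕ) : ZMod (2 ^ 4)) * Dv k 4 m 1 +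
      χ ((2 : ℕ) : ZMod (2 ^ 4)) * Dv k 4 m 2 + χ ((3 : ℕ) : ZMod (2 ^ 4)) * Dv k 4 m 3 +
      χ ((4 : ℕ) : ZMod (2 ^ 4)) * Dv k 4 m 4 + χ ((5 : ℕ) : ZMod (2 ^ 4)) * Dv k 4 m 5 +
      χ ((6 : ℕ) : ZMod (2 ^ 4)) * Dv k 4 m 6 + χ ((7 : ℕ) : ZMod (2 ^ 4)) * Dv k 4 m 7 = 0 := by
    simpa [Finset.sum_range_succ] using h
  rw [h3', h5', e0, e2, e4, e6, e1, map_one] at h2
  have hη := chi_prim (by norm_num) χ hprim
  have h9 : χ ((3 : ℕ) : ZMod (2 ^ 4)) ^ 2 = -1 := by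
    rw [← map_pow, ← hη]
    congr 1
  have h4 : 2 * (Dv k 4 m 1 + χ ((3 : ℕ) : ZMod (2 ^ 4)) * Dv k 4 m 3) = 0 := by linear_combination h2
  have h6 := (mul_eq_zero.1 h4).resolve_left (two_ne hp hp8)
  have h7 : Dv k 4 m 1 ^ 2 + Dv k 4 m 3 ^ 2 = 0 := by
    linear_combination (Dv k 4 m 1 - χ ((3 : ℕ) : ZMod (2 ^ 4)) * Dv k 4 m 3) * h6 + Dv k 4 m 3 ^ 2 * h9
  rw [Dv_eq (p := p) (by omega) (by norm_num) hm1, Dv_eq (p := p) (by omega) (by norm_num) hm1] at h7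
  have h8 : (-((m.factorial * m : ℕ) : k)) ^ 2 * ((sv p 4 m 1 ^ 2 + sv p 4 m 3 ^ 2 : ℕ) : k) = 0 := by
    push_cast at h7 ⊢
    linear_combination h7
  exact Nat.mod_eq_zero_of_dvd ((CharP.cast_eq_zero_iff k p _).1
    ((mul_eq_zero.1 h8).resolve_left (pow_ne_zero _ (fac_ne hp hm1 hmp))))

/-- the test for the level `32` -/
def t5 (p m : ℕ) : Bool :=
  if m % 2 = 0 then qt p (sv p 5 m 1) (sv p 5 m 5) (sv p 5 m 7) (sv p 5 m 3)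
  else qt p (sv p 5 m 1) (sv p 5 m 5) (p - sv p 5 m 7) (p - sv p 5 m 3)

/-- level `32` -/
lemma lev5 {m : ℕ} (hm1 : 1 ≤ m) (hmp : m < p) (χ : MulChar (ZMod (2 ^ 5)) k)
    (hprim : χ ((1 + 2 ^ (5 - 1) : ℕ) : ZMod (2 ^ 5)) ≠ 1) (hpar : χ (-1) = (-1) ^ m)
    (hS : ∑ a ∈ range (2 ^ 5), χ (a : ZMod (2 ^ 5)) * Av k 5 m a = 0) :
    t5 p m = false := by
  have h := halfsum (by norm_num) m χ hprim hS
  have e1 : ((1 : ℕ) : ZMod (2 ^ 5)) = 1 := Nat.cast_one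
  have ev : ∀ a : ℕ, a % 2 = 0 → χ ((a : ℕ) : ZMod (2 ^ 5)) = 0 := fun a ha => chi_even (K := 5) (by norm_num) χ a ha
  have tr := fun a ha => term_refl (k := k) (p := p) (m := m) (K := 5) (by omega) (by norm_num) χ hprim hpar a ha
  have h15 : χ ((15 : ℕ) : ZMod (2 ^ 5)) * Dv k 5 m 15 = χ ((1 : ℕ) : ZMod (2 ^ 5)) * Dv k 5 m 1 := tr 1 (by norm_num)
  have h13 : χ ((13 : ℕ) : ZMod (2 ^ 5)) * Dv k 5 m 13 = χ ((3 : ℕ) : ZMod (2 ^ 5)) * Dv k 5 m 3 := tr 3 (by norm_num)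
  have h11 : χ ((11 : ℕ) : ZMod (2 ^ 5)) * Dv k 5 m 11 = χ ((5 : ℕ) : ZMod (2 ^ 5)) * Dv k 5 m 5 := tr 5 (by norm_num)
  have h9 : χ ((9 : ℕ) : ZMod (2 ^ 5)) * Dv k 5 m 9 = χ ((7 : ℕ) : ZMod (2 ^ 5)) * Dv k 5 m 7 := tr 7 (by norm_num)
  have h2 : χ ((0 : ℕ) : ZMod (2 ^ 5)) * Dv k 5 m 0 + χ ((1 : ℕ) : ZMod (2 ^ 5)) * Dv k 5 m 1 +
      χ ((2 : ℕ) : ZMod (2 ^ 5)) * Dv k 5 m 2 + χ ((3 : ℕ) : ZMod (2 ^ 5)) * Dv k 5 m 3 +
      χ ((4 : ℕ) : ZMod (2 ^ 5)) * Dv k 5 m 4 + χ ((5 : ℕ) : ZMod (2 ^ 5)) * Dv k 5 m 5 +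
      χ ((6 : ℕ) : ZMod (2 ^ 5)) * Dv k 5 m 6 + χ ((7 : ℕ) : ZMod (2 ^ 5)) * Dv k 5 m 7 +
      χ ((8 : ℕ) : ZMod (2 ^ 5)) * Dv k 5 m 8 + χ ((9 : ℕ) : ZMod (2 ^ 5)) * Dv k 5 m 9 +
      χ ((10 : ℕ) : ZMod (2 ^ 5)) * Dv k 5 m 10 + χ ((11 : ℕ) : ZMod (2 ^ 5)) * Dv k 5 m 11 +
      χ ((12 : ℕ) : ZMod (2 ^ 5)) * Dv k 5 m 12 + χ ((13 : ℕ) : ZMod (2 ^ 5)) * Dv k 5 m 13 +
      χ ((14 : ℕ) : ZMod (2 ^ 5)) * Dv k 5 m 14 + χ ((15 : ℕ) : ZMod (2 ^ 5)) * Dv k 5 m 15 = 0 := by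
    simpa [Finset.sum_range_succ] using h
  rw [h15, h13, h11, h9, ev 0 rfl, ev 2 rfl, ev 4 rfl, ev 6 rfl, ev 8 rfl, ev 10 rfl, ev 12 rfl, ev 14 rfl, e1,
    map_one] at h2
  have hη := chi_prim (by norm_num) χ hprim
  set ξ := χ ((5 : ℕ) : ZMod (2 ^ 5)) with hξ
  have hξ4 : ξ ^ 4 = -1 := by
    rw [hξ, ← map_pow, ← hη]
    congr 1
  have h7 : χ ((7 : ℕ) : ZMod (2 ^ 5)) = (-1) ^ m * ξ ^ 2 := by
    rw [← hpar, hξ, ← map_pow, ← map_mul]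
    congr 1
  have h3 : χ ((3 : ℕ) : ZMod (2 ^ 5)) = (-1) ^ m * ξ ^ 3 := by
    rw [← hpar, hξ, ← map_pow, ← map_mul]
    congr 1
  rw [h7, h3] at h2
  have h4 : 2 * (Dv k 5 m 1 + ξ * Dv k 5 m 5 + ξ ^ 2 * ((-1) ^ m * Dv k 5 m 7) +
      ξ ^ 3 * ((-1) ^ m * Dv k 5 m 3)) = 0 := by linear_combination h2
  have h6 := (mul_eq_zero.1 h4).resolve_left (two_ne hp hp8)
  simp only [Dv_eq (k := k) (p := p) (K := 5) (m := m) (by omega) (by norm_num) hm1] at h6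
  have hlt : ∀ a, sv p 5 m a ≤ p := fun a => (Nat.mod_lt _ hp.pos).le
  unfold t5
  split_ifs with hm2
  · have e : ((-1 : k)) ^ m = 1 := (Nat.even_iff.2 hm2).neg_one_pow
    rw [e] at h6
    refine quad_nat (k := k) (ξ := ξ) hp hp8 (fac_ne hp hm1 hmp) (fac_frob hp) hξ4 ?_
    linear_combination h6
  · have e : ((-1 : k)) ^ m = -1 := (Nat.odd_iff.2 (by omega)).neg_one_pow
    rw [e] at h6
    refine quad_nat (k := k) (ξ := ξ) hp hp8 (fac_ne hp hm1 hmp) (fac_frob hp) hξ4 ?_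
    rw [Nat.cast_sub (hlt 7), Nat.cast_sub (hlt 3), CharP.cast_eq_zero k p]
    linear_combination h6

/-- the test for the level `2^K`, `K ≥ 6`, and the class `b` -/
def t6 (p K m b : ℕ) : Bool :=
  qt p (sv p K m b) (sv p K m (b + 2 ^ (K - 3))) (sv p K m (b + 2 ^ (K - 3) * 2)) (sv p K m (b + 2 ^ (K - 3) * 3))

/-- level `2^K`, `K ≥ 6` -/
lemma lev6 {K m : ℕ} (hK : 6 ≤ K) (hm1 : 1 ≤ m) (hmp : m < p) (χ : MulChar (ZMod (2 ^ K)) k)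
    (hprim : χ ((1 + 2 ^ (K - 1) : ℕ) : ZMod (2 ^ K)) ≠ 1) (hpar : χ (-1) = (-1) ^ m)
    (hS : ∑ a ∈ range (2 ^ K), χ (a : ZMod (2 ^ K)) * Av k K m a = 0) (b : ℕ) (hb : b < 2 ^ (K - 3)) (hb8 : b % 8 = 1) :
    t6 p K m b = false := by
  have : Fact p.Prime := ⟨hp⟩
  have hsq : p ^ 2 % 16 = 9 := by
    have : p % 16 = 3 ∨ p % 16 = 11 := by omega
    rcases this with h | h <;> rw [Nat.pow_mod, h]
  obtain ⟨u, hu⟩ : ∃ u, p ^ 2 - 1 = 2 ^ 3 * u := ⟨(p ^ 2 - 1) / 8, by omega⟩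
  have huc : u.Coprime 2 := by
    rw [Nat.coprime_comm, Nat.Prime.coprime_iff_not_dvd Nat.prime_two]
    rintro ⟨w, hw⟩
    omega
  have h2k := two_ne (k := k) hp hp8
  have key := class_zero (p := p) (ℓ := 2) (n := 3) (K := K) (N₁ := 1) (g := 2) (m := m) (u := u)
    (1 : MulChar (ZMod 1) k) χ
    (by omega) (Or.inr ⟨rfl, by omega⟩) (by norm_num) (by omega) (by norm_num) hu huc
    (fun a => by rw [Subsingleton.elim a 1, map_one, one_pow]) hprim (by norm_num) (by norm_num) (by simp)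
    (by exact_mod_cast h2k) (FF m) _
    (fun x => FF_aeval_refl m x) (by rw [Subsingleton.elim (-1 : ZMod 1) 1, map_one, one_mul]; exact hpar)
    (by
      rw [one_mul]
      rw [← hS]
      refine Finset.sum_congr rfl fun a _ => ?_
      rw [Subsingleton.elim ((a : ℕ) : ZMod 1) 1, map_one, one_mul]
      rfl) b hb (by simpa using hb8)
  have hη := chi_prim (by omega) χ hprim
  set ξ := χ ((1 + 2 ^ (K - 3) : ℕ) : ZMod (2 ^ K)) with hξ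
  have hξ4 : ξ ^ 4 = -1 := by
    have h1 := psi_M_pow' χ (n := 3) (by omega) (by norm_num)
    rw [hη] at h1
    exact h1
  have hone : ∀ x : ZMod 1, (1 : MulChar (ZMod 1) k) x = 1 := fun x => by rw [Subsingleton.elim x 1, map_one]
  have h8 : (1 * 2 ^ 3 : ℕ) = 8 := by norm_num
  rw [h8] at key
  simp only [hone, one_mul, Finset.sum_range_succ, Finset.sum_range_zero, zero_add, pow_zero,
      mul_zero, add_zero, mul_one, pow_one] at key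
  have hD : ∀ t : ℕ, Dv k K m (b + 2 ^ (K - 3) * t) = Polynomial.aeval (((b + 2 ^ (K - 3) * t : ℕ) : k) / (2 ^ K : ℕ)) (FF m) -
      Polynomial.aeval (((b + 2 ^ (K - 3) * (t + 4) : ℕ) : k) / (2 ^ K : ℕ)) (FF m) := by
    intro t
    unfold Dv Av
    have : b + 2 ^ (K - 3) * t + 2 ^ (K - 1) = b + 2 ^ (K - 3) * (t + 4) := by
      have : 2 ^ (K - 1) = 2 ^ (K - 3) * 4 := by
        have : K - 1 = K - 3 + 2 := by omega
        rw [this, pow_add]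
        norm_num
      rw [this]
      ring
    rw [this]
  have h0 := hD 0
  have h1 := hD 1
  have h2 := hD 2
  have h3 := hD 3
  simp only [mul_zero, add_zero, mul_one, Nat.reduceAdd] at h0 h1 h2 h3
  have h6 : Dv k K m b + ξ * Dv k K m (b + 2 ^ (K - 3)) + ξ ^ 2 * Dv k K m (b + 2 ^ (K - 3) * 2) +
      ξ ^ 3 * Dv k K m (b + 2 ^ (K - 3) * 3) = 0 := by
    rw [h0, h1, h2, h3]
    linear_combination key - (Polynomial.aeval (((b + 2 ^ (K - 3) * 4 : ℕ) : k) / (2 ^ K : ℕ)) (FF m) +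
      ξ * Polynomial.aeval (((b + 2 ^ (K - 3) * 5 : ℕ) : k) / (2 ^ K : ℕ)) (FF m) +
      ξ ^ 2 * Polynomial.aeval (((b + 2 ^ (K - 3) * 6 : ℕ) : k) / (2 ^ K : ℕ)) (FF m) +
      ξ ^ 3 * Polynomial.aeval (((b + 2 ^ (K - 3) * 7 : ℕ) : k) / (2 ^ K : ℕ)) (FF m)) * hξ4
  simp only [Dv_eq (k := k) (p := p) (K := K) (m := m) (by omega) (by omega) hm1] at h6
  exact quad_nat (k := k) (ξ := ξ) hp hp8 (fac_ne hp hm1 hmp) (fac_frob hp) hξ4 h6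

/-- level `2^K`, `K` large -/
lemma lev7 {K m : ℕ} (hm1 : 1 ≤ m) (hmp : m < p) (hsize : m * 64 ≤ 2 ^ K) (χ : MulChar (ZMod (2 ^ K)) k)
    (hprim : χ ((1 + 2 ^ (K - 1) : ℕ) : ZMod (2 ^ K)) ≠ 1) (hpar : χ (-1) = (-1) ^ m) :
    ∑ a ∈ range (2 ^ K), χ (a : ZMod (2 ^ K)) * Av k K m a ≠ 0 := by
  intro hS
  have hK : 6 ≤ K := by
    by_contra hcon
    have : 2 ^ K ≤ 2 ^ 5 := Nat.pow_le_pow_right (by norm_num) (by omega)
    omega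
  have : Fact p.Prime := ⟨hp⟩
  have hsq : p ^ 2 % 16 = 9 := by
    have : p % 16 = 3 ∨ p % 16 = 11 := by omega
    rcases this with h | h <;> rw [Nat.pow_mod, h]
  obtain ⟨u, hu⟩ : ∃ u, p ^ 2 - 1 = 2 ^ 3 * u := ⟨(p ^ 2 - 1) / 8, by omega⟩
  have huc : u.Coprime 2 := by
    rw [Nat.coprime_comm, Nat.Prime.coprime_iff_not_dvd Nat.prime_two]
    rintro ⟨w, hw⟩
    omega
  have h2k := two_ne (k := k) hp hp8
  refine core (p := p) (ℓ := 2) (n := 3) (K := K) (N₁ := 1) (g := 2) (m := m) (u := u)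
    (1 : MulChar (ZMod 1) k) χ
    (by omega) (Or.inr ⟨rfl, by omega⟩) (by norm_num) (by omega) (by norm_num) hu huc
    (fun a => by rw [Subsingleton.elim a 1, map_one, one_pow]) hprim (by norm_num) (by norm_num) (by simp)
    (by exact_mod_cast h2k) (FF m) _
    (fun x => FF_aeval_refl m x) (by rw [Subsingleton.elim (-1 : ZMod 1) 1, map_one, one_mul]; exact hpar)
    (FF_natDegree m) ?_ hm1 hmp (by omega) ?_
  · rw [FF_coeff m hm1]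
    push_cast
    intro h
    have h1 := (CharP.cast_eq_zero_iff k p _).1 h
    have := (hp.dvd_factorial).1 h1
    omega
  · rw [one_mul]
    rw [← hS]
    refine Finset.sum_congr rfl fun a _ => ?_
    rw [Subsingleton.elim ((a : ℕ) : ZMod 1) 1, map_one, one_mul]
    rfl

end

end Pool.Agent.X218.GX
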