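import Pool.Agent.X218.GX.Pow2b

/-!
# Conductors `2^K` for primes `p ≡ 3 (mod 8)`: the theorem in the residue field, and the finite checks
-/

set_option autoImplicit false
set_option maxRecDepth 100000

namespace Pool.Agent.X218.GX

open Finset Polynomial Pool.Agent.Y18.GX

/-- the check for the levels `4`, `8`, `16`, `32` -/
def okl (p : ℕ) : Bool :=
  (List.range (p - 1)).all fun i => (decide (i % 2 = 1) || (sv p 2 (i + 1) 1 != 0)) && (sv p 3 (i + 1) 1 != 0) &&
    ((sv p 4 (i + 1) 1 ^ 2 + sv p 4 (i + 1) 3 ^ 2) % p != 0) && t5 p (i + 1)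

/-- the check for the levels `2^6, …, 2^(L+5)` -/
def okh (p L : ℕ) : Bool :=
  decide ((p - 1) * 64 ≤ 2 ^ (L + 6)) && (List.range L).all fun j => (List.range (p - 1)).all fun i =>
    decide ((i + 1) * 64 ≤ 2 ^ (j + 6)) ||
      [1, 9, 17, 25].any fun b => decide (b < 2 ^ (j + 3)) && t6 p (j + 6) (i + 1) b

section
variable {p : ℕ} {k : Type*} [Field k] [CharP k p]

theorem res_ne (hp : p.Prime) (hp8 : p % 8 = 3) {L : ℕ} (hl : okl p = true) (hh : okh p L = true) {K m : ℕ} (hK : 2 ≤ K)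
    (hm1 : 1 ≤ m) (hmp : m < p) (χ : MulChar (ZMod (2 ^ K)) k)
    (hprim : χ ((1 + 2 ^ (K - 1) : ℕ) : ZMod (2 ^ K)) ≠ 1) (hpar : χ (-1) = (-1) ^ m) :
    ∑ a ∈ range (2 ^ K), χ (a : ZMod (2 ^ K)) * Av k K m a ≠ 0 := by
  intro hS
  unfold okl at hl
  rw [List.all_eq_true] at hl
  have hl' := hl (m - 1) (List.mem_range.2 (by omega))
  rw [Nat.sub_add_cancel hm1, Bool.and_eq_true, Bool.and_eq_true, Bool.and_eq_true, Bool.or_eq_true,
    decide_eq_true_eq, bne_iff_ne, bne_iff_ne, bne_iff_ne] at hl'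
  obtain ⟨⟨⟨h2, h3⟩, h4⟩, h5⟩ := hl'
  rcases Nat.lt_or_ge K 6 with hK6 | hK6
  · have : K = 2 ∨ K = 3 ∨ K = 4 ∨ K = 5 := by omega
    rcases this with rfl | rfl | rfl | rfl
    · have hne := lev2 hp hp8 hm1 hmp χ hprim hS
      have hm2 : m % 2 = 1 := by
        by_contra hcon
        have e : ((-1 : k)) ^ m = 1 := (Nat.even_iff.2 (by omega)).neg_one_pow
        rw [e] at hpar
        apply hprim
        have : ((1 + 2 ^ (2 - 1) : ℕ) : ZMod (2 ^ 2)) = -1 := by decide +kernel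
        rw [this, hpar]
      rcases h2 with h2 | h2
      · omega
      · exact h2 hne
    · exact h3 (lev3 hp hp8 hm1 hmp χ hprim hpar hS)
    · exact h4 (lev4 hp hp8 hm1 hmp χ hprim hpar hS)
    · have := lev5 hp hp8 hm1 hmp χ hprim hpar hS
      rw [this] at h5
      exact Bool.false_ne_true h5
  · by_cases hsize : m * 64 ≤ 2 ^ K
    · exact lev7 hp hp8 hm1 hmp hsize χ hprim hpar hS
    · unfold okh at hh
      rw [Bool.and_eq_true, decide_eq_true_eq, List.all_eq_true] at hh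
      obtain ⟨hL, hh⟩ := hh
      have hKL : K < L + 6 := by
        by_contra hcon
        have : 2 ^ (L + 6) ≤ 2 ^ K := Nat.pow_le_pow_right (by norm_num) (by omega)
        apply hsize
        calc m * 64 ≤ (p - 1) * 64 := Nat.mul_le_mul_right _ (by omega)
          _ ≤ 2 ^ (L + 6) := hL
          _ ≤ 2 ^ K := this
      have h6 := hh (K - 6) (List.mem_range.2 (by omega))
      rw [List.all_eq_true] at h6
      have h7 := h6 (m - 1) (List.mem_range.2 (by omega))
      rw [Nat.sub_add_cancel hm1, Nat.sub_add_cancel hK6, Bool.or_eq_true, decide_eq_true_eq] at h7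
      rcases h7 with h7 | h7
      · exact hsize h7
      · rw [List.any_eq_true] at h7
        obtain ⟨b, hb, h8⟩ := h7
        rw [Bool.and_eq_true, decide_eq_true_eq] at h8
        have e3 : K - 6 + 3 = K - 3 := by omega
        rw [e3] at h8
        have h9 := lev6 hp hp8 hK6 hm1 hmp χ hprim hpar hS b h8.1 (by fin_cases hb <;> rfl)
        rw [h9] at h8
        exact Bool.false_ne_true h8.2

theorem chi_p (hp : p.Prime) (hp8 : p % 8 = 3) {K : ℕ} (hK : 2 ≤ K) (hK3 : K ≠ 3) (χ : MulChar (ZMod (2 ^ K)) k)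
    (hprim : χ ((1 + 2 ^ (K - 1) : ℕ) : ZMod (2 ^ K)) ≠ 1) : χ ((p : ℕ) : ZMod (2 ^ K)) ≠ 1 := by
  intro h
  rcases Nat.lt_or_ge K 6 with hK6 | hK6
  · have : K = 2 ∨ K = 4 ∨ K = 5 := by omega
    rcases this with rfl | rfl | rfl
    · apply hprim
      have : ((p : ℕ) : ZMod (2 ^ 2)) = ((1 + 2 ^ (2 - 1) : ℕ) : ZMod (2 ^ 2)) := by
        rw [ZMod.natCast_eq_natCast_iff]
        change p % 4 = 3
        omega
      rw [← this, h]
    · apply hprim
      have : ((p : ℕ) : ZMod (2 ^ 4)) ^ 2 = ((1 + 2 ^ (4 - 1) : ℕ) : ZMod (2 ^ 4)) := by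
        rw [← Nat.cast_pow, ZMod.natCast_eq_natCast_iff]
        change p ^ 2 % 16 = 9
        have : p % 16 = 3 ∨ p % 16 = 11 := by omega
        rcases this with h | h <;> rw [Nat.pow_mod, h]
      rw [← this, map_pow, h, one_pow]
    · apply hprim
      have : ((p : ℕ) : ZMod (2 ^ 5)) ^ 4 = ((1 + 2 ^ (5 - 1) : ℕ) : ZMod (2 ^ 5)) := by
        rw [← Nat.cast_pow, ZMod.natCast_eq_natCast_iff]
        change p ^ 4 % 32 = 17
        have : p % 32 = 3 ∨ p % 32 = 11 ∨ p % 32 = 19 ∨ p % 32 = 27 := by omega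
        rcases this with h | h | h | h <;> rw [Nat.pow_mod, h]
      rw [← this, map_pow, h, one_pow]
  · have : Fact p.Prime := ⟨hp⟩
    have hsq : p ^ 2 % 16 = 9 := by
      have : p % 16 = 3 ∨ p % 16 = 11 := by omega
      rcases this with h | h <;> rw [Nat.pow_mod, h]
    obtain ⟨u, hu⟩ : ∃ u, p ^ 2 - 1 = 2 ^ 3 * u := ⟨(p ^ 2 - 1) / 8, by omega⟩
    have huc : u.Coprime 2 := by
      rw [Nat.coprime_comm, Nat.Prime.coprime_iff_not_dvd Nat.prime_two]
      rintro ⟨w, hw⟩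
      omega
    have key := euler (p := p) (ℓ := 2) (n := 3) (K := K) (N₁ := 1) (g := 2) (u := u) (1 : MulChar (ZMod 1) k) χ
      (Or.inr ⟨rfl, by omega⟩) (by norm_num) (by omega) (by norm_num) hu huc
      (fun a => by rw [Subsingleton.elim a 1, map_one, one_pow]) hprim (by omega)
      (by
        have : 2 ^ 6 ≤ 2 ^ K := Nat.pow_le_pow_right (by norm_num) hK6
        simpa using this)
    apply key
    rw [Subsingleton.elim ((p : ℕ) : ZMod 1) 1, map_one, one_mul, h]

end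

end Pool.Agent.X218.GX
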