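import Pool.Agent.X218.GX.Pow2c
import Pool.Agent.X218.GX.Uni
import Pool.Agent.X218.GX.Low
import Pool.Agent.X218.LP.Gen

/-!
# Conductors `2^K` for primes `p ≡ 3 (mod 8)`: `K ≥ 4`, a sharper test for the level `32`, and the values
-/

set_option autoImplicit false
set_option maxRecDepth 100000

namespace Pool.Agent.X218.GX

open Finset Polynomial Pool.Agent.Y18.GX

section
variable {p : ℕ} {k : Type*} [Field k] [CharP k p]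

/-- the relation at the level `32` -/
lemma lev5r (hp : p.Prime) (hp8 : p % 8 = 3) {m : ℕ} (hm1 : 1 ≤ m) (hmp : m < p) (χ : MulChar (ZMod (2 ^ 5)) k)
    (hprim : χ ((1 + 2 ^ (5 - 1) : ℕ) : ZMod (2 ^ 5)) ≠ 1) (hpar : χ (-1) = (-1) ^ m)
    (hS : ∑ a ∈ range (2 ^ 5), χ (a : ZMod (2 ^ 5)) * Av k 5 m a = 0) :
    ∃ ξ : k, ξ ^ 4 = -1 ∧ (sv p 5 m 1 : k) + ξ * (sv p 5 m 5 : k) + ξ ^ 2 * ((-1) ^ m * (sv p 5 m 7 : k)) +
      ξ ^ 3 * ((-1) ^ m * (sv p 5 m 3 : k)) = 0 := by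
  have h := halfsum (by norm_num) m χ hprim hS
  have e1 : ((1 : ℕ) : ZMod (2 ^ 5)) = 1 := Nat.cast_one
  have ev : ∀ a : ℕ, a % 2 = 0 → χ ((a : ℕ) : ZMod (2 ^ 5)) = 0 := fun a ha => chi_even (K := 5) (by norm_num) χ a ha
  have tr := fun a ha => term_refl (k := k) (p := p) (m := m) (K := 5) (by omega) (by norm_num) χ hprim hpar a ha
  have h15 : χ ((15 : ℕ) : ZMod (2 ^ 5)) * Dv k 5 m 15 = χ ((1 : ℕ) : ZMod (2 ^ 5)) * Dv k 5 m 1 := tr 1 (by norm_num)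
  have h13 : χ ((13 : ℕ) : ZMod (2 ^ 5)) * Dv k 5 m 13 = χ ((3 : ℕ) : ZMod (2 ^ 5)) * Dv k 5 m 3 := tr 3 (by norm_num)
  have h11 : χ ((11 : ℕ) : ZMod (2 ^ 5)) * Dv k 5 m 11 = χ ((5 : ℕ) : ZMod (2 ^ 5)) * Dv k 5 m 5 := tr 5 (by norm_num)
  have h9 : χ ((9 : ℕ) : ZMod (2 ^ 5)) * Dv k 5 m 9 = χ ((7 : ℕ) : ZMod (2 ^ 5)) * Dv k 5 m 7 := tr 7 (by norm_num)
  have h2 : χ ((0 : ℕ) : ZMod (2 ^ 5)) * Dv k 5 m 0 + χ ((1 : ℕ) : ZMod (2 ^ 5)) * Dv k 5 m 1 +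
      χ ((2 : ℕ) : ZMod (2 ^ 5)) * Dv k 5 m 2 + χ ((3 : ℕ) : ZMod (2 ^ 5)) * Dv k 5 m 3 +
      χ ((4 : ℕ) : ZMod (2 ^ 5)) * Dv k 5 m 4 + χ ((5 : ℕ) : ZMod (2 ^ 5)) * Dv k 5 m 5 +
      χ ((6 : ℕ) : ZMod (2 ^ 5)) * Dv k 5 m 6 + χ ((7 : ℕ) : ZMod (2 ^ 5)) * Dv k 5 m 7 +
      χ ((8 : ℕ) : ZMod (2 ^ 5)) * Dv k 5 m 8 + χ ((9 : ℕ) : ZMod (2 ^ 5)) * Dv k 5 m 9 +
      χ ((10 : ℕ) : ZMod (2 ^ 5)) * Dv k 5 m 10 + χ ((11 : ℕ) : ZMod (2 ^ 5)) * Dv k 5 m 11 +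
      χ ((12 : ℕ) : ZMod (2 ^ 5)) * Dv k 5 m 12 + χ ((13 : ℕ) : ZMod (2 ^ 5)) * Dv k 5 m 13 +
      χ ((14 : ℕ) : ZMod (2 ^ 5)) * Dv k 5 m 14 + χ ((15 : ℕ) : ZMod (2 ^ 5)) * Dv k 5 m 15 = 0 := by
    simpa [Finset.sum_range_succ] using h
  rw [h15, h13, h11, h9, ev 0 rfl, ev 2 rfl, ev 4 rfl, ev 6 rfl, ev 8 rfl, ev 10 rfl, ev 12 rfl, ev 14 rfl, e1,
    map_one] at h2
  have hη := chi_prim (by norm_num) χ hprim
  set ξ := χ ((5 : ℕ) : ZMod (2 ^ 5)) with hξ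
  have hξ4 : ξ ^ 4 = -1 := by
    rw [hξ, ← map_pow, ← hη]
    congr 1
  have h7 : χ ((7 : ℕ) : ZMod (2 ^ 5)) = (-1) ^ m * ξ ^ 2 := by
    rw [← hpar, hξ, ← map_pow, ← map_mul]
    congr 1
  have h3 : χ ((3 : ℕ) : ZMod (2 ^ 5)) = (-1) ^ m * ξ ^ 3 := by
    rw [← hpar, hξ, ← map_pow, ← map_mul]
    congr 1
  rw [h7, h3] at h2
  have h4 : 2 * (Dv k 5 m 1 + ξ * Dv k 5 m 5 + ξ ^ 2 * ((-1) ^ m * Dv k 5 m 7) +
      ξ ^ 3 * ((-1) ^ m * Dv k 5 m 3)) = 0 := by linear_combination h2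
  have h6 := (mul_eq_zero.1 h4).resolve_left (two_ne hp hp8)
  simp only [Dv_eq (k := k) (p := p) (K := 5) (m := m) (by omega) (by norm_num) hm1] at h6
  refine ⟨ξ, hξ4, ?_⟩
  have h8 : (-((m.factorial * m : ℕ) : k)) * ((sv p 5 m 1 : k) + ξ * (sv p 5 m 5 : k) + ξ ^ 2 * ((-1) ^ m * (sv p 5 m 7 : k)) +
      ξ ^ 3 * ((-1) ^ m * (sv p 5 m 3 : k))) = 0 := by linear_combination h6
  exact (mul_eq_zero.1 h8).resolve_left (fac_ne hp hm1 hmp)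

/-- the norm -/
def nq (a b c d : ℤ) : ℤ := (a ^ 2 + c ^ 2 - b ^ 2 - d ^ 2) ^ 2 + 2 * (a * b + a * d - b * c + c * d) ^ 2

lemma nq_zero {ξ : k} (hξ : ξ ^ 4 = -1) {a b c d : ℤ}
    (h : (a : k) + ξ * b + ξ ^ 2 * c + ξ ^ 3 * d = 0) : (p : ℤ) ∣ nq a b c d := by
  rw [← CharP.intCast_eq_zero_iff k p]
  unfold nq
  push_cast
  have h1 : ((a : k) ^ 2 + c ^ 2 - b ^ 2 - d ^ 2) + (a * b + a * d - b * c + c * d) * (ξ + ξ ^ 3) = 0 := by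
    linear_combination ((a : k) + b * ξ ^ 3 - c * ξ ^ 2 + d * ξ) * h -
      (-(c : k) ^ 2 + ξ * (b * c - c * d) + b ^ 2 + d ^ 2 + b * d * ξ ^ 2) * hξ
  linear_combination (((a : k) ^ 2 + c ^ 2 - b ^ 2 - d ^ 2) - (a * b + a * d - b * c + c * d) * (ξ + ξ ^ 3)) * h1 +
    ((a : k) * b + a * d - b * c + c * d) ^ 2 * (ξ ^ 2 + 2) * hξ

/-- the sharp test for the level `32` -/
def t5n (p m : ℕ) : Bool :=
  t5 p m || (if m % 2 = 0 then nq (sv p 5 m 1) (sv p 5 m 5) (sv p 5 m 7) (sv p 5 m 3) % p != 0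
    else nq (sv p 5 m 1) (sv p 5 m 5) (-(sv p 5 m 7 : ℤ)) (-(sv p 5 m 3 : ℤ)) % p != 0)

lemma lev5n (hp : p.Prime) (hp8 : p % 8 = 3) {m : ℕ} (hm1 : 1 ≤ m) (hmp : m < p) (χ : MulChar (ZMod (2 ^ 5)) k)
    (hprim : χ ((1 + 2 ^ (5 - 1) : ℕ) : ZMod (2 ^ 5)) ≠ 1) (hpar : χ (-1) = (-1) ^ m)
    (hS : ∑ a ∈ range (2 ^ 5), χ (a : ZMod (2 ^ 5)) * Av k 5 m a = 0) :
    t5n p m = false := by
  unfold t5n
  rw [lev5 hp hp8 hm1 hmp χ hprim hpar hS, Bool.false_or]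
  obtain ⟨ξ, hξ, h⟩ := lev5r hp hp8 hm1 hmp χ hprim hpar hS
  split_ifs with hm2
  · have e : ((-1 : k)) ^ m = 1 := (Nat.even_iff.2 hm2).neg_one_pow
    rw [e] at h
    have h1 : (p : ℤ) ∣ nq (sv p 5 m 1) (sv p 5 m 5) (sv p 5 m 7) (sv p 5 m 3) := by
      apply nq_zero (k := k) hξ
      push_cast
      linear_combination h
    rw [Int.emod_eq_zero_of_dvd h1]
    rfl
  · have e : ((-1 : k)) ^ m = -1 := (Nat.odd_iff.2 (by omega)).neg_one_pow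
    rw [e] at h
    have h1 : (p : ℤ) ∣ nq (sv p 5 m 1) (sv p 5 m 5) (-(sv p 5 m 7 : ℤ)) (-(sv p 5 m 3 : ℤ)) := by
      apply nq_zero (k := k) hξ
      push_cast
      linear_combination h
    rw [Int.emod_eq_zero_of_dvd h1]
    rfl

/-- the check for the levels `16`, `32` -/
def okm (p : ℕ) : Bool :=
  (List.range (p - 1)).all fun i => ((sv p 4 (i + 1) 1 ^ 2 + sv p 4 (i + 1) 3 ^ 2) % p != 0) && t5n p (i + 1)

theorem res_ne4 (hp : p.Prime) (hp8 : p % 8 = 3) {L : ℕ} (hl : okm p = true) (hh : okh p L = true) {K m : ℕ} (hK : 4 ≤ K)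
    (hm1 : 1 ≤ m) (hmp : m < p) (χ : MulChar (ZMod (2 ^ K)) k)
    (hprim : χ ((1 + 2 ^ (K - 1) : ℕ) : ZMod (2 ^ K)) ≠ 1) (hpar : χ (-1) = (-1) ^ m) :
    ∑ a ∈ range (2 ^ K), χ (a : ZMod (2 ^ K)) * Av k K m a ≠ 0 := by
  intro hS
  unfold okm at hl
  rw [List.all_eq_true] at hl
  have hl' := hl (m - 1) (List.mem_range.2 (by omega))
  rw [Nat.sub_add_cancel hm1, Bool.and_eq_true, bne_iff_ne] at hl'
  obtain ⟨h4, h5⟩ := hl'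
  rcases Nat.lt_or_ge K 6 with hK6 | hK6
  · have : K = 4 ∨ K = 5 := by omega
    rcases this with rfl | rfl
    · exact h4 (lev4 hp hp8 hm1 hmp χ hprim hpar hS)
    · have := lev5n hp hp8 hm1 hmp χ hprim hpar hS
      rw [this] at h5
      exact Bool.false_ne_true h5
  · by_cases hsize : m * 64 ≤ 2 ^ K
    · exact lev7 hp hp8 hm1 hmp hsize χ hprim hpar hS
    · unfold okh at hh
      rw [Bool.and_eq_true, decide_eq_true_eq, List.all_eq_true] at hh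
      obtain ⟨hL, hh⟩ := hh
      have hKL : K < L + 6 := by
        by_contra hcon
        have : 2 ^ (L + 6) ≤ 2 ^ K := Nat.pow_le_pow_right (by norm_num) (by omega)
        apply hsize
        calc m * 64 ≤ (p - 1) * 64 := Nat.mul_le_mul_right _ (by omega)
          _ ≤ 2 ^ (L + 6) := hL
          _ ≤ 2 ^ K := this
      have h6 := hh (K - 6) (List.mem_range.2 (by omega))
      rw [List.all_eq_true] at h6
      have h7 := h6 (m - 1) (List.mem_range.2 (by omega))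
      rw [Nat.sub_add_cancel hm1, Nat.sub_add_cancel hK6, Bool.or_eq_true, decide_eq_true_eq] at h7
      rcases h7 with h7 | h7
      · exact hsize h7
      · rw [List.any_eq_true] at h7
        obtain ⟨b, hb, h8⟩ := h7
        rw [Bool.and_eq_true, decide_eq_true_eq] at h8
        have e3 : K - 6 + 3 = K - 3 := by omega
        rw [e3] at h8
        have h9 := lev6 hp hp8 hK6 hm1 hmp χ hprim hpar hS b h8.1 (by fin_cases hb <;> rfl)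
        rw [h9] at h8
        exact Bool.false_ne_true h8.2

end

lemma totient_two {p K : ℕ} (hp : p.Prime) (hp3 : 3 ≤ p) (hK : 1 ≤ K) : ¬ p ∣ (2 ^ K).totient := by
  rw [Nat.totient_prime_pow Nat.prime_two (by omega)]
  norm_num
  intro h
  have h1 := (Nat.Prime.dvd_of_dvd_pow hp h)
  have h2 := Nat.le_of_dvd (by norm_num) h1
  omega

/-- the values for the conductor `2^K` -/
theorem two_unit {p : ℕ} (hp : p.Prime) (hp8 : p % 8 = 3) (hp3 : 3 < p) {K m : ℕ} (hK : 2 ≤ K) (hm1 : 1 ≤ m) (hmp : m ≤ p - 1)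
    (hex : ¬ (K = 3 ∧ m = 1))
    (hres : ∀ (k : Type) [Field k] [CharP k p] (χ : MulChar (ZMod (2 ^ K)) k),
      χ ((1 + 2 ^ (K - 1) : ℕ) : ZMod (2 ^ K)) ≠ 1 → χ (-1) = (-1) ^ m →
      ∑ a ∈ range (2 ^ K), χ (a : ZMod (2 ^ K)) * Av k K m a ≠ 0)
    (ψ : DirichletCharacter ℂ (2 ^ K)) (hprim : ψ.IsPrimitive) (hpar : ψ (-1) = (-1) ^ m) :
    IsUnitAt p (lValue p m ψ) := by
  have hN1 : 2 ^ K ≠ 1 := (Nat.one_lt_pow (by omega) (by norm_num)).ne'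
  rw [lValue_eq hN1]
  have hpr := Pool.Agent.X218.LP.dir_prim Nat.prime_two hK ψ hprim
  have hpN : ¬ p ∣ 2 ^ K := by
    intro h
    have h2 := Nat.le_of_dvd (by norm_num) (Nat.Prime.dvd_of_dvd_pow hp h)
    omega
  refine unit_gen2 hp ψ hpN (totient_two hp (by omega) (by omega)) hpar hm1 (by omega) ?_
    (Pool.Agent.X218.LP.dir_ne_one Nat.prime_two (by omega) ψ hprim)
  intro k _ _ χ hinj hparχ
  have hu : IsUnit ((1 + 2 ^ (K - 1) : ℕ) : ZMod (2 ^ K)) := by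
    rw [ZMod.isUnit_iff_coprime]
    apply Nat.Coprime.pow_right
    rw [Nat.coprime_comm, Nat.Prime.coprime_iff_not_dvd Nat.prime_two]
    obtain ⟨L, hL⟩ : ∃ L, K - 1 = L + 1 := ⟨K - 2, by omega⟩
    rw [hL, pow_succ]
    omega
  have hχ := hinj _ hu hpr
  refine ⟨hres k χ hχ hparχ, fun hm => ?_⟩
  exact chi_p hp hp8 hK (fun h3 => hex ⟨h3, hm⟩) χ hχ

end Pool.Agent.X218.GX
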