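import Pool.Agent.Y18.GX.Dec

/-!
# Power sums and the classes modulo `3^(K-1)` for primes `p ≡ 2, 5 (mod 9)`
-/

set_option autoImplicit false

namespace Pool.Agent.X218.GX

open Finset Polynomial Pool.Agent.Y18.GX

/-- `∑_{j < n} (X + j)^e` -/
def S (e X n : ℕ) : ℕ :=
  Nat.rec (motive := fun _ => ℕ) 0 (fun j s => Nat.add s (Nat.pow (Nat.add X j) e)) n

lemma S_eq (e X n : ℕ) : S e X n = ∑ j ∈ range n, (X + j) ^ e := by
  induction n with
  | zero => rfl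
  | succ n ih =>
    rw [Finset.sum_range_succ, ← ih]
    rfl

lemma FF_eval_nat (m x : ℕ) (hm : 1 ≤ m) :
    (FF m).eval (x : ℤ) = m.factorial * m * ∑ j ∈ range x, (j : ℤ) ^ (m - 1) := by
  have h1 := FF_map m
  have h2 := congrArg (fun f => f.eval (x : ℚ)) h1
  simp only [eval_mul, eval_C, eval_sub] at h2
  obtain ⟨e, rfl⟩ : ∃ e, m = e + 1 := ⟨m - 1, by omega⟩
  have h3 := Polynomial.sum_range_pow_eq_bernoulli_sub x e
  rw [Nat.succ_eq_add_one] at h3
  rw [← h3] at h2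
  have h4 : ((FF (e + 1)).map (Int.castRingHom ℚ)).eval (x : ℚ) = (((FF (e + 1)).eval (x : ℤ) : ℤ) : ℚ) := by
    have : (x : ℚ) = Int.castRingHom ℚ (x : ℤ) := by simp
    rw [this, eval_map_apply]
    simp
  rw [h4] at h2
  have h5 : (((FF (e + 1)).eval (x : ℤ) : ℤ) : ℚ) =
      (((e + 1).factorial * (e + 1 : ℕ) * ∑ j ∈ range x, (j : ℤ) ^ (e + 1 - 1) : ℤ) : ℚ) := by
    rw [h2]
    push_cast
    ring
  exact_mod_cast h5

lemma FF_aeval_nat {k : Type*} [CommRing k] (m x : ℕ) (hm : 1 ≤ m) :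
    aeval (x : k) (FF m) = ((m.factorial * m * ∑ j ∈ range x, j ^ (m - 1) : ℕ) : k) := by
  have h1 : aeval (x : k) (FF m) = (((FF m).eval (x : ℤ) : ℤ) : k) := by
    have h2 := aeval_algebraMap_apply k (x : ℤ) (FF m)
    simpa using h2
  rw [h1, FF_eval_nat m x hm]
  push_cast
  rfl

lemma FF_sub {k : Type*} [CommRing k] (m x n : ℕ) (hm : 1 ≤ m) :
    aeval ((x + n : ℕ) : k) (FF m) - aeval (x : k) (FF m) = ((m.factorial * m * S (m - 1) x n : ℕ) : k) := by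
  rw [FF_aeval_nat m _ hm, FF_aeval_nat m _ hm, Finset.sum_range_add, S_eq]
  push_cast
  ring

section
variable {p : ℕ} {k : Type*} [Field k] [CharP k p]

lemma third (hp3 : p % 3 = 2) : ((3 : ℕ) : k) * (((p + 1) / 3 : ℕ) : k) = 1 := by
  rw [← Nat.cast_mul]
  have : 3 * ((p + 1) / 3) = p + 1 := by omega
  rw [this]
  push_cast
  rw [CharP.cast_eq_zero k p, zero_add]

/-- `a / 3^K` in characteristic `p` -/
lemma div_pow_three (hp3 : p % 3 = 2) (a K : ℕ) :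
    ((a : ℕ) : k) / ((3 ^ K : ℕ) : k) = ((a * ((p + 1) / 3) ^ K % p : ℕ) : k) := by
  have h3 := third (k := k) hp3
  have h30 : ((3 : ℕ) : k) ≠ 0 := left_ne_zero_of_mul_eq_one h3
  have h1 : ((a * ((p + 1) / 3) ^ K % p : ℕ) : k) = ((a * ((p + 1) / 3) ^ K : ℕ) : k) := by
    rw [CharP.cast_eq_iff_mod_eq k p]
    exact Nat.mod_mod _ _
  rw [h1, div_eq_iff (by push_cast; exact pow_ne_zero _ (by exact_mod_cast h30))]
  push_cast
  have h2 : (((p + 1) / 3 : ℕ) : k) ^ K * 3 ^ K = 1 := by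
    rw [← mul_pow, mul_comm]
    have : (3 : k) = ((3 : ℕ) : k) := by norm_num
    rw [this, h3, one_pow]
  linear_combination (-(a : k)) * h2

end

end Pool.Agent.X218.GX
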