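import Pool.Agent.X218.GX.Pair
import Pool.Agent.Y18.GX.Bern

/-!
# The relations for `p = 5`
-/

set_option autoImplicit false

namespace Pool.Agent.X218.GX

open Finset
open Pool.Agent.Y18.GX

lemma five_pow (j : ℕ) : 5 ^ 2 ^ (j + 1) % 9 = 7 ∨ 5 ^ 2 ^ (j + 1) % 9 = 4 := by
  induction j with
  | zero => left; norm_num
  | succ j ih =>
    have : 5 ^ 2 ^ (j + 1 + 1) = 5 ^ 2 ^ (j + 1) * 5 ^ 2 ^ (j + 1) := by
      rw [← pow_add]
      congr 1
      ring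
    rw [this, Nat.mul_mod]
    rcases ih with h | h <;> rw [h]
    · right; norm_num
    · left; norm_num

lemma nine_pow (j : ℕ) : 5 ^ (2 * 3 ^ j) % 16 = 9 := by
  induction j with
  | zero => norm_num
  | succ j ih =>
    have : 5 ^ (2 * 3 ^ (j + 1)) = 5 ^ (2 * 3 ^ j) * 5 ^ (2 * 3 ^ j) * 5 ^ (2 * 3 ^ j) := by
      rw [← pow_add, ← pow_add]
      congr 1
      ring
    rw [this, Nat.mul_mod, Nat.mul_mod (5 ^ (2 * 3 ^ j)), ih]

lemma frob_char {k : Type*} [Field k] {n g : ℕ} (hn : Nat.Coprime 5 n.totient) (hg : n.totient.totient ∣ g)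
    (ψ : MulChar (ZMod n) k) (x : ZMod n) : ψ x ^ 5 ^ g = ψ x := by
  by_cases hx : IsUnit x
  · obtain ⟨U, rfl⟩ := hx
    rw [← map_pow]
    congr 1
    obtain ⟨w, rfl⟩ := hg
    have h1 : 5 ^ (n.totient.totient * w) ≡ 1 [MOD n.totient] := by
      have := (Nat.ModEq.pow_totient hn).pow w
      rwa [one_pow, ← pow_mul] at this
    have h2 := (Nat.modEq_iff_dvd' (Nat.one_le_pow _ _ (by norm_num))).1 h1.symm
    obtain ⟨v, hv⟩ := h2
    have h3 : 5 ^ (n.totient.totient * w) = n.totient * v + 1 := by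
      have : 1 ≤ 5 ^ (n.totient.totient * w) := Nat.one_le_pow _ _ (by norm_num)
      omega
    rw [h3, ← Units.val_pow_eq_pow_val, pow_succ, pow_mul, ZMod.pow_totient, one_pow, one_mul]
  · rw [ψ.map_nonunit hx, zero_pow]
    positivity

section
variable {k : Type*} [Field k] [CharP k 5]

theorem pair_rel {a b m : ℕ} (ψ₁ : MulChar (ZMod (2 ^ a)) k) (ψ₂ : MulChar (ZMod (3 ^ b)) k)
    (ha : 6 ≤ a) (hb : 2 ≤ b)
    (hprim₁ : ψ₁ ((1 + 2 ^ (a - 1) : ℕ) : ZMod (2 ^ a)) ≠ 1)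
    (hprim₂ : ψ₂ ((1 + 3 ^ (b - 1) : ℕ) : ZMod (3 ^ b)) ≠ 1)
    (hpar : ψ₁ (-1) * ψ₂ (-1) = (-1) ^ m)
    (hS : ∑ x ∈ range (2 ^ a * 3 ^ b), ψ₁ (x : ZMod (2 ^ a)) * ψ₂ (x : ZMod (3 ^ b)) *
      Polynomial.aeval ((x : k) / (2 ^ a * 3 ^ b : ℕ)) (FF m) = 0) :
    ∃ θ ω : k, ∃ μ ζ z M : ℕ, θ ^ 12 = -1 ∧ θ ^ 8 ≠ 1 ∧ ω ^ 24 = 1 ∧ 0 < μ ∧ μ < 5 ∧ ζ < 5 ∧ 24 ≤ M ∧ z < M ∧
      ∀ c, c * c % 24 = 1 → c < 24 →
      ∑ t ∈ range 24, θ ^ (c * t) * Polynomial.aeval ((4 * (c * μ + t) : ℕ) : k) (FF m) +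
      ω * θ ^ (17 * c * (c * z / M)) * ∑ t ∈ range 24, θ ^ (7 * c * t) *
        Polynomial.aeval ((4 * (c * ζ + 4 * (c * z / M) + t) : ℕ) : k) (FF m) = 0 := by
  have : Fact (Nat.Prime 5) := ⟨by norm_num⟩
  have h5 : (5 : k) = 0 := by
    have := CharP.cast_eq_zero k 5
    exact_mod_cast this
  have hnk : ∀ n : ℕ, ¬ 5 ∣ n → ((n : ℕ) : k) ≠ 0 := fun n hn h => hn ((CharP.cast_eq_zero_iff k 5 n).1 h)
  set M := 2 ^ (a - 3) * 3 ^ (b - 1) with hM
  have h8 : 8 ∣ 2 ^ (a - 3) := by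
    rw [show (8 : ℕ) = 2 ^ 3 by norm_num]
    exact pow_dvd_pow _ (by omega)
  have h3d : 3 ∣ 3 ^ (b - 1) := dvd_pow_self 3 (by omega)
  have hM24 : 24 ∣ M := by
    have := Nat.mul_dvd_mul h8 h3d
    exact this
  have hM0 : 0 < M := by positivity
  have hM24' : 24 ≤ M := Nat.le_of_dvd hM0 hM24
  have hNM : 2 ^ a * 3 ^ b = 24 * M := by
    have e1 : 2 ^ a = 2 ^ (a - 3) * 2 ^ 3 := by rw [← pow_add]; congr 1; omega
    have e2 : 3 ^ b = 3 ^ (b - 1) * 3 := by rw [← pow_succ]; congr 1; omega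
    rw [hM, e1, e2]
    ring
  have hcop : (2 ^ (a - 3)).Coprime (3 ^ (b - 1)) := Nat.Coprime.pow _ _ (by norm_num)
  -- the function `Ψ`
  set Ψ : ℕ → k := fun x => ψ₁ (x : ZMod (2 ^ a)) * ψ₂ (x : ZMod (3 ^ b)) with hΨ
  have hmul : ∀ x y, Ψ (x * y) = Ψ x * Ψ y := by
    intro x y
    simp only [hΨ]
    rw [Nat.cast_mul, Nat.cast_mul, map_mul, map_mul]
    ring
  have hper : ∀ x y, Ψ (x + 24 * M * y) = Ψ x := by
    intro x y
    simp only [hΨ]
    rw [← hNM]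
    have e1 : ((x + 2 ^ a * 3 ^ b * y : ℕ) : ZMod (2 ^ a)) = x := by
      rw [Nat.cast_add, mul_assoc, Nat.cast_mul, ZMod.natCast_self, zero_mul, add_zero]
    have e2 : ((x + 2 ^ a * 3 ^ b * y : ℕ) : ZMod (3 ^ b)) = x := by
      rw [Nat.cast_add, mul_comm (2 ^ a) (3 ^ b), mul_assoc, Nat.cast_mul, ZMod.natCast_self, zero_mul, add_zero]
    rw [e1, e2]
  have h1 : Ψ 1 = 1 := by
    simp only [hΨ]
    rw [Nat.cast_one, Nat.cast_one, map_one, map_one, mul_one]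
  set θ := Ψ (1 + M) with hθ
  have h24 : θ ^ 24 = 1 := theta24 Ψ hmul hper h1 hM24
  -- the order of `θ`
  have hη2 : ψ₁ ((1 + 2 ^ (a - 1) : ℕ) : ZMod (2 ^ a)) ^ 2 = 1 := by
    have := psi_M_pow ψ₁ (n := 1) (by omega)
    rwa [pow_one] at this
  have hη : ψ₁ ((1 + 2 ^ (a - 1) : ℕ) : ZMod (2 ^ a)) = -1 := by
    have h3 : (ψ₁ ((1 + 2 ^ (a - 1) : ℕ) : ZMod (2 ^ a)) - 1) *
        (ψ₁ ((1 + 2 ^ (a - 1) : ℕ) : ZMod (2 ^ a)) + 1) = 0 := by linear_combination hη2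
    rcases mul_eq_zero.1 h3 with h | h
    · exact absurd (sub_eq_zero.1 h) hprim₁
    · exact eq_neg_of_add_eq_zero_left h
  have h12 : θ ^ 12 = -1 := by
    rw [hθ, ← P_one_add Ψ hmul hper h1 hM24]
    simp only [hΨ]
    have e1 : M * 12 = 2 ^ (a - 1) * 3 ^ b := by
      have e2 : 2 ^ (a - 1) = 2 ^ (a - 3) * 2 ^ 2 := by rw [← pow_add]; congr 1; omega
      have e3 : 3 ^ b = 3 ^ (b - 1) * 3 := by rw [← pow_succ]; congr 1; omega
      rw [hM, e2, e3]
      ring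
    rw [e1]
    have e4 : ((1 + 2 ^ (a - 1) * 3 ^ b : ℕ) : ZMod (3 ^ b)) = 1 := by
      rw [Nat.cast_add, Nat.cast_mul, ZMod.natCast_self, mul_zero, add_zero, Nat.cast_one]
    rw [e4, map_one, mul_one, psi_one_add ψ₁ (n := 1) (by omega), hη]
    exact Odd.neg_one_pow (Odd.pow (by decide))
  have hθ8 : θ ^ 8 ≠ 1 := by
    rw [hθ, ← P_one_add Ψ hmul hper h1 hM24]
    simp only [hΨ]
    have e1 : M * 8 = 3 ^ (b - 1) * 2 ^ a := by
      have e2 : 2 ^ a = 2 ^ (a - 3) * 2 ^ 3 := by rw [← pow_add]; congr 1; omega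
      rw [hM, e2]
      ring
    rw [e1]
    have e4 : ((1 + 3 ^ (b - 1) * 2 ^ a : ℕ) : ZMod (2 ^ a)) = 1 := by
      rw [Nat.cast_add, Nat.cast_mul, ZMod.natCast_self, mul_zero, add_zero, Nat.cast_one]
    rw [e4, map_one, one_mul, psi_one_add ψ₂ (n := 1) (by omega)]
    refine ne_one_of_coprime (ℓ := 3) hprim₂ ?_ (Nat.Coprime.pow_left _ (by norm_num))
    have := psi_M_pow ψ₂ (n := 1) (by omega)
    rwa [pow_one] at this
  have hθ1 : θ ≠ 1 := by
    intro h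
    rw [h, one_pow] at hθ8
    exact hθ8 rfl
  -- the number `z`
  obtain ⟨z, hzM, hz2, hz3⟩ : ∃ z, z < M ∧ z ≡ 2 ^ (a - 3) - 1 [MOD 2 ^ (a - 3)] ∧ z ≡ 1 [MOD 3 ^ (b - 1)] := by
    refine ⟨Nat.chineseRemainder hcop (2 ^ (a - 3) - 1) 1, ?_, ?_, ?_⟩
    · exact Nat.chineseRemainder_lt_mul hcop _ _ (by positivity) (by positivity)
    · exact (Nat.chineseRemainder hcop (2 ^ (a - 3) - 1) 1).2.1
    · exact (Nat.chineseRemainder hcop (2 ^ (a - 3) - 1) 1).2.2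
  have hz2' : 2 ^ (a - 3) ∣ z + 1 := by
    have h2 := hz2.add_right 1
    have h3 : 1 ≤ 2 ^ (a - 3) := Nat.one_le_two_pow
    rw [Nat.sub_add_cancel h3] at h2
    exact Nat.modEq_zero_iff_dvd.1 (h2.trans (Nat.modEq_zero_iff_dvd.2 dvd_rfl))
  have hz0 : z ≠ 0 := by
    rintro rfl
    have := Nat.le_of_dvd (by norm_num) (h8.trans hz2')
    omega
  have hz3' : 3 ^ (b - 1) ∣ z - 1 := (Nat.modEq_iff_dvd' (Nat.pos_of_ne_zero hz0)).1 hz3.symm
  have hω : (Ψ z) ^ 24 = 1 := by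
    have e1 : 2 * 3 ^ (b - 1) ∣ z - 1 := by
      refine Nat.Coprime.mul_dvd_of_dvd_of_dvd (Nat.Coprime.pow_right _ (by norm_num)) ?_ hz3'
      have := h8.trans hz2'
      omega
    have e2 : 2 * M ∣ (z - 1) * (z + 1) := by
      have := Nat.mul_dvd_mul e1 hz2'
      refine Dvd.dvd.trans (Dvd.intro_left 1 ?_) this
      rw [hM]
      ring
    obtain ⟨y, hy⟩ := e2
    have e3 : z * z = 1 + M * (2 * y) := by
      obtain ⟨e, rfl⟩ := Nat.exists_eq_succ_of_ne_zero hz0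
      simp only [Nat.succ_eq_add_one, Nat.add_sub_cancel] at hy ⊢
      have : (e + 1) * (e + 1) = e * (e + 1 + 1) + 1 := by ring
      rw [this, hy]
      ring
    have e4 : Ψ z ^ 2 = θ ^ (2 * y) := by
      rw [pow_two, ← hmul, e3, P_one_add Ψ hmul hper h1 hM24]
    calc Ψ z ^ 24 = (Ψ z ^ 2) ^ 12 := by rw [← pow_mul]
      _ = (θ ^ 24) ^ y := by rw [e4, ← pow_mul, ← pow_mul]; congr 1; ring
      _ = 1 := by rw [h24, one_pow]
  -- the inverse of `M` modulo `5`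
  have hM5 : ¬ 5 ∣ M := by
    intro h
    rcases (Nat.Prime.dvd_mul (by norm_num)).1 h with h | h
    · have := (Nat.prime_dvd_prime_iff_eq (by norm_num) (by norm_num)).1 (Nat.Prime.dvd_of_dvd_pow (by norm_num : Nat.Prime 5) h)
      omega
    · have := (Nat.prime_dvd_prime_iff_eq (by norm_num) (by norm_num)).1 (Nat.Prime.dvd_of_dvd_pow (by norm_num : Nat.Prime 5) h)
      omega
  obtain ⟨μ, hμ0, hμ5, hμ⟩ : ∃ μ, 0 < μ ∧ μ < 5 ∧ M * μ % 5 = 1 := by
    have : M % 5 = 1 ∨ M % 5 = 2 ∨ M % 5 = 3 ∨ M % 5 = 4 := by omega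
    rcases this with h | h | h | h
    · exact ⟨1, by norm_num, by norm_num, by omega⟩
    · exact ⟨3, by norm_num, by norm_num, by omega⟩
    · exact ⟨2, by norm_num, by norm_num, by omega⟩
    · exact ⟨4, by norm_num, by norm_num, by omega⟩
  have hcast : ∀ x y : ℕ, x % 5 = y % 5 → (x : k) = (y : k) := fun x y h => (CharP.cast_eq_iff_mod_eq k 5).2 h
  have hμk : (M : k) * μ = 1 := by
    have := hcast (M * μ) 1 (by omega)
    push_cast at this
    exact this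
  have hζk : (z : k) * μ = ((z * μ % 5 : ℕ) : k) := by
    have := hcast (z * μ) (z * μ % 5) (by omega)
    rw [← this]
    push_cast
    rfl
  have hMk : (M : k) ≠ 0 := hnk M hM5
  have hNk : ((2 ^ a * 3 ^ b : ℕ) : k) = 24 * M := by
    rw [hNM]
    push_cast
    rfl
  have h24k : (24 : k) * M ≠ 0 := by
    rw [← hNk]
    apply hnk
    intro h
    rw [hNM] at h
    rcases (Nat.Prime.dvd_mul (by norm_num)).1 h with h | h
    · norm_num at h
    · exact hM5 h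
  refine ⟨θ, Ψ z, μ, z * μ % 5, z, M, h12, hθ8, hω, hμ0, hμ5, Nat.mod_lt _ (by norm_num), hM24', hzM, ?_⟩
  intro c hc hc24
  set f := c * z / M with hf
  set c' := c * z % M with hc'
  have hcf : c' + M * f = c * z := Nat.mod_add_div _ _
  have hc'M : c' < M := Nat.mod_lt _ hM0
  have k1 : 2 ^ (a - 3) ∣ c + c' := by
    have e1 : 2 ^ (a - 3) ∣ c * (z + 1) := hz2'.mul_left c
    have e2 : c * (z + 1) = (c + c') + 2 ^ (a - 3) * (3 ^ (b - 1) * f) := by
      calc c * (z + 1) = c + c * z := by ring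
        _ = c + (c' + M * f) := by rw [hcf]
        _ = _ := by rw [hM]; ring
    rw [e2] at e1
    exact (Nat.dvd_add_left (dvd_mul_right _ _)).1 e1
  have k2 : c' % 3 ^ (b - 1) = c % 3 ^ (b - 1) := by
    have e1 : c * z ≡ c * 1 [MOD 3 ^ (b - 1)] := hz3.mul_left c
    rw [mul_one] at e1
    have e2 : c' + M * f ≡ c' [MOD 3 ^ (b - 1)] := by
      have : M * f ≡ 0 [MOD 3 ^ (b - 1)] := Nat.modEq_zero_iff_dvd.2 ((dvd_mul_left _ _).mul_right _)
      simpa using this.add_left c'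
    rw [hcf] at e2
    exact e2.symm.trans e1
  have k3 : c' % 24 = 7 * c % 24 := by
    have e1 : 8 ∣ c + c' := h8.trans k1
    have e2 : c' % 3 = c % 3 := by
      have := congrArg (fun x => x % 3) k2
      simpa only [Nat.mod_mod_of_dvd _ h3d] using this
    omega
  have hc'24 : c' * c' % 24 = 1 := by
    rw [Nat.mul_mod, k3, ← Nat.mul_mod]
    have : 7 * c * (7 * c) = 49 * (c * c) := by ring
    rw [this, Nat.mul_mod, hc]
  -- the relation
  have hrel := pair (p := 5) (g₂ := 2 * 3 ^ b) (g₃ := 2 ^ a) (u₃ := (5 ^ 2 ^ a - 1) / 3)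
    (u₂ := (5 ^ (2 * 3 ^ b) - 1) / 8) ψ₁ ψ₂ (by norm_num) ha hb
    (Or.inl ⟨rfl, by
      obtain ⟨a', rfl⟩ : ∃ a', a = a' + 1 := ⟨a - 1, by omega⟩
      have := five_pow a'
      have hp1 : 1 ≤ 5 ^ 2 ^ (a' + 1) := Nat.one_le_pow _ _ (by norm_num)
      generalize 5 ^ 2 ^ (a' + 1) = q at this hp1 ⊢
      omega⟩)
    (by
      obtain ⟨a', rfl⟩ : ∃ a', a = a' + 1 := ⟨a - 1, by omega⟩
      have := five_pow a'
      have hp1 : 1 ≤ 5 ^ 2 ^ (a' + 1) := Nat.one_le_pow _ _ (by norm_num)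
      generalize 5 ^ 2 ^ (a' + 1) = q at this hp1 ⊢
      omega)
    (by
      obtain ⟨a', rfl⟩ : ∃ a', a = a' + 1 := ⟨a - 1, by omega⟩
      have := five_pow a'
      have hp1 : 1 ≤ 5 ^ 2 ^ (a' + 1) := Nat.one_le_pow _ _ (by norm_num)
      rw [Nat.coprime_comm, Nat.Prime.coprime_iff_not_dvd Nat.prime_three]
      generalize 5 ^ 2 ^ (a' + 1) = q at this hp1 ⊢
      omega)
    (frob_char (by
        rw [Nat.totient_prime_pow Nat.prime_two (by omega)]
        exact Nat.Coprime.mul_right (Nat.Coprime.pow_right _ (by norm_num)) (by norm_num)) (by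
        rw [Nat.totient_prime_pow Nat.prime_two (by omega), show 2 - 1 = 1 from rfl, mul_one,
          Nat.totient_prime_pow Nat.prime_two (by omega), show 2 - 1 = 1 from rfl, mul_one]
        exact pow_dvd_pow _ (by omega)) ψ₁)
    (Or.inr ⟨rfl, by
      have := nine_pow b
      generalize 5 ^ (2 * 3 ^ b) = q at this ⊢
      omega⟩)
    (by
      have := nine_pow b
      generalize 5 ^ (2 * 3 ^ b) = q at this ⊢
      omega)
    (by
      have := nine_pow b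
      rw [Nat.coprime_comm, Nat.Prime.coprime_iff_not_dvd Nat.prime_two]
      generalize 5 ^ (2 * 3 ^ b) = q at this ⊢
      omega)
    (frob_char (by
        rw [Nat.totient_prime_pow Nat.prime_three (by omega)]
        exact Nat.Coprime.mul_right (Nat.Coprime.pow_right _ (by norm_num)) (by norm_num)) (by
        rw [Nat.totient_prime_pow Nat.prime_three (by omega), show 3 - 1 = 2 from rfl,
          Nat.totient_mul (Nat.Coprime.pow_left _ (by norm_num)),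
          Nat.totient_prime_pow Nat.prime_three (by omega), show 3 - 1 = 2 from rfl,
          show Nat.totient 2 = 1 from rfl, mul_one, mul_comm]
        exact Nat.mul_dvd_mul_left _ (pow_dvd_pow _ (by omega))) ψ₂)
    hprim₁ hprim₂ (hnk 2 (by norm_num)) (hnk 3 (by norm_num)) (FF m) _ (fun x => FF_aeval_refl m x) hpar hS
    (fun c hc => P_geom Ψ hmul hper h1 hM24 hc hθ1) c c' (by omega) hc'M hc k1 k2
  rw [← hM] at hrel
  have t1 : ∀ t : ℕ, ψ₁ ((c + M * t : ℕ) : ZMod (2 ^ a)) * ψ₂ ((c + M * t : ℕ) : ZMod (3 ^ b)) *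
      Polynomial.aeval (((c + M * t : ℕ) : k) / (2 ^ a * 3 ^ b : ℕ)) (FF m) =
      Ψ c * (θ ^ (c * t) * Polynomial.aeval ((4 * (c * μ + t) : ℕ) : k) (FF m)) := by
    intro t
    have e1 : ψ₁ ((c + M * t : ℕ) : ZMod (2 ^ a)) * ψ₂ ((c + M * t : ℕ) : ZMod (3 ^ b)) = Ψ c * θ ^ (c * t) :=
      P_add Ψ hmul hper h1 hM24 hc t
    have e2 : ((c + M * t : ℕ) : k) / (2 ^ a * 3 ^ b : ℕ) = ((4 * (c * μ + t) : ℕ) : k) := by
      rw [hNk, div_eq_iff h24k]
      push_cast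
      linear_combination -19 * ((c : k) + M * t) * h5 - 96 * (c : k) * hμk
    rw [e1, e2, mul_assoc]
  have hΨc' : Ψ c' = Ψ c * Ψ z * θ ^ (17 * c * f) := by
    have e1 : Ψ c' * θ ^ (c' * f) = Ψ c * Ψ z := by
      rw [← P_add Ψ hmul hper h1 hM24 hc'24, hcf, hmul]
    have e2 : θ ^ (c' * f) * θ ^ (17 * c * f) = 1 := by
      rw [← pow_add]
      have : (c' * f + 17 * c * f) % 24 = 0 % 24 := by
        have e3 : c' * f + 17 * c * f = (c' + 17 * c) * f := by ring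
        have e4 : (c' + 17 * c) % 24 = 0 := by omega
        rw [e3, Nat.mul_mod, e4, zero_mul]
      rw [pow_mod24 h24 this, pow_zero]
    rw [← e1, mul_assoc, e2, mul_one]
  have t2 : ∀ t : ℕ, ψ₁ ((c' + M * t : ℕ) : ZMod (2 ^ a)) * ψ₂ ((c' + M * t : ℕ) : ZMod (3 ^ b)) *
      Polynomial.aeval (((c' + M * t : ℕ) : k) / (2 ^ a * 3 ^ b : ℕ)) (FF m) =
      Ψ c * (Ψ z * θ ^ (17 * c * f) * (θ ^ (7 * c * t) *
        Polynomial.aeval ((4 * (c * (z * μ % 5) + 4 * f + t) : ℕ) : k) (FF m))) := by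
    intro t
    have e1 : ψ₁ ((c' + M * t : ℕ) : ZMod (2 ^ a)) * ψ₂ ((c' + M * t : ℕ) : ZMod (3 ^ b)) = Ψ c' * θ ^ (c' * t) :=
      P_add Ψ hmul hper h1 hM24 hc'24 t
    have e2 : ((c' + M * t : ℕ) : k) / (2 ^ a * 3 ^ b : ℕ) = ((4 * (c * (z * μ % 5) + 4 * f + t) : ℕ) : k) := by
      have e3 : (c' : k) + M * f = c * z := by
        have := congrArg (fun x : ℕ => (x : k)) hcf
        push_cast at this
        exact this
      rw [hNk, div_eq_iff h24k]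
      push_cast
      push_cast at hζk
      rw [← hζk]
      linear_combination e3 - 19 * ((c : k) * z + M * t) * h5 - 96 * (c : k) * z * hμk - 77 * (M : k) * f * h5
    have e4 : θ ^ (c' * t) = θ ^ (7 * c * t) := by
      apply pow_mod24 h24
      rw [Nat.mul_mod, k3, ← Nat.mul_mod]
    rw [e1, e2, e4, hΨc']
    ring
  simp only [t1, t2] at hrel
  rw [← Finset.mul_sum, ← Finset.mul_sum, ← mul_add, ← Finset.mul_sum] at hrel
  have hΨc0 : Ψ c ≠ 0 := by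
    intro h
    have e1 : Ψ (c * c) = Ψ 1 := by
      have : c * c = 1 + 24 * (c * c / 24) := by omega
      have hcu : IsUnit ((c : ℕ) : ZMod (2 ^ a)) ∧ IsUnit ((c : ℕ) : ZMod (3 ^ b)) := by
        constructor
        · rw [ZMod.isUnit_iff_coprime]
          apply Nat.Coprime.pow_right
          rw [Nat.coprime_comm, Nat.Prime.coprime_iff_not_dvd Nat.prime_two]
          intro h2
          have := h2.mul_right c
          omega
        · rw [ZMod.isUnit_iff_coprime]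
          apply Nat.Coprime.pow_right
          rw [Nat.coprime_comm, Nat.Prime.coprime_iff_not_dvd Nat.prime_three]
          intro h2
          have := h2.mul_right c
          omega
      exfalso
      have h2 : ψ₁ ((c : ℕ) : ZMod (2 ^ a)) ≠ 0 := (hcu.1.map ψ₁).ne_zero
      have h3 : ψ₂ ((c : ℕ) : ZMod (3 ^ b)) ≠ 0 := (hcu.2.map ψ₂).ne_zero
      exact mul_ne_zero h2 h3 h
    rw [hmul, h, zero_mul, h1] at e1
    exact zero_ne_one e1
  exact (mul_eq_zero.1 hrel).resolve_left hΨc0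

end

end Pool.Agent.X218.GX
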