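import Pool.Agent.X218.GX.Mod25
import Pool.Agent.X218.GX.Ps

/-!
# The conductors `2^a 3^b`, `a ≥ 6`, `b ≥ 2`
-/

set_option autoImplicit false

namespace Pool.Agent.X218.GX

open Finset
open Pool.Agent.Y18.GX

section
variable {k : Type*} [Field k] [CharP k 5]

lemma cast_mod5 (x : ℕ) : ((x % 5 : ℕ) : k) = (x : k) := (CharP.cast_eq_iff_mod_eq k 5).2 (Nat.mod_mod _ _)

/-- the element with the code `w` -/
def val (γ : k) (w : ℕ) : k := ((w % 5 : ℕ) : k) + ((w / 5 : ℕ) : k) * γ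

lemma mk_mod (u v : ℕ) : mk u v % 5 = u % 5 := by
  change (u % 5 + 5 * (v % 5)) % 5 = u % 5
  omega

lemma mk_div (u v : ℕ) : mk u v / 5 = v % 5 := by
  change (u % 5 + 5 * (v % 5)) / 5 = v % 5
  omega

lemma val_mk (γ : k) (u v : ℕ) : val γ (mk u v) = (u : k) + (v : k) * γ := by
  unfold val
  rw [mk_mod, mk_div, cast_mod5, cast_mod5]

lemma val_mul {γ : k} {A B : ℕ} (h : γ ^ 2 = A * γ + B) (w x : ℕ) :
    val γ (mul25 A B w x) = val γ w * val γ x := by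
  have e : mul25 A B w x = mk (w % 5 * (x % 5) + B * (w / 5 * (x / 5)))
      (w % 5 * (x / 5) + w / 5 * (x % 5) + A * (w / 5 * (x / 5))) := rfl
  rw [e, val_mk]
  unfold val
  push_cast
  linear_combination (-((w / 5 : ℕ) : k) * ((x / 5 : ℕ) : k)) * h

lemma val_add (γ : k) (w x : ℕ) : val γ (add25 w x) = val γ w + val γ x := by
  have e : add25 w x = mk (w % 5 + x % 5) (w / 5 + x / 5) := rfl
  rw [e, val_mk]
  unfold val
  push_cast
  ring

lemma val_smul (γ : k) (n w : ℕ) : val γ (smul25 n w) = (n : k) * val γ w := by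
  have e : smul25 n w = mk (n * (w % 5)) (n * (w / 5)) := rfl
  rw [e, val_mk]
  unfold val
  push_cast
  ring

lemma inv5 {v : ℕ} (h : v % 5 ≠ 0) : ∃ v', v * v' % 5 = 1 := by
  have : v % 5 = 1 ∨ v % 5 = 2 ∨ v % 5 = 3 ∨ v % 5 = 4 := by omega
  rcases this with h | h | h | h
  · exact ⟨1, by omega⟩
  · exact ⟨3, by omega⟩
  · exact ⟨2, by omega⟩
  · exact ⟨4, by omega⟩

/-- an element outside the prime field -/
lemma indep {γ : k} (hγ : ∀ n : ℕ, γ ≠ n) {u v : ℕ} (h : (u : k) + (v : k) * γ = 0) : u % 5 = 0 ∧ v % 5 = 0 := by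
  have h5 : (5 : k) = 0 := five
  have hv : v % 5 = 0 := by
    by_contra hv
    obtain ⟨v', hv'⟩ := inv5 hv
    apply hγ (4 * u * v')
    have e1 : (v : k) * v' = 1 := by
      have := (CharP.cast_eq_iff_mod_eq k 5 (a := v * v') (b := 1)).2 (by omega)
      push_cast at this
      exact this
    push_cast
    linear_combination (v' : k) * h - γ * e1 - (u : k) * v' * h5
  refine ⟨?_, hv⟩
  have e1 : (v : k) = 0 := by rw [← cast_mod5, hv, Nat.cast_zero]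
  rw [e1, zero_mul, add_zero, CharP.cast_eq_zero_iff k 5] at h
  exact Nat.mod_eq_zero_of_dvd h

lemma mk_eq_zero {γ : k} (hγ : ∀ n : ℕ, γ ≠ n) {u v : ℕ} (h : val γ (mk u v) = 0) : mk u v = 0 := by
  rw [val_mk] at h
  obtain ⟨h1, h2⟩ := indep hγ h
  change u % 5 + 5 * (v % 5) = 0
  omega

lemma ne_nat {θ : k} (h12 : θ ^ 12 = -1) (h8 : θ ^ 8 ≠ 1) (n : ℕ) : θ ≠ n := by
  intro h
  have h5 : (5 : k) = 0 := five
  by_cases hn : n % 5 = 0
  · have e1 : (n : k) = 0 := by rw [← cast_mod5, hn, Nat.cast_zero]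
    rw [h, e1] at h12
    have : (1 : k) = 0 := by linear_combination h12
    exact one_ne_zero this
  · apply h8
    have e1 : ((n ^ 4 : ℕ) : k) = ((1 : ℕ) : k) := by
      apply (CharP.cast_eq_iff_mod_eq k 5).2
      have : n % 5 = 1 ∨ n % 5 = 2 ∨ n % 5 = 3 ∨ n % 5 = 4 := by omega
      rcases this with h | h | h | h <;> rw [Nat.pow_mod, h]
    push_cast at e1
    rw [h, show 8 = 4 * 2 by norm_num, pow_mul, e1, one_pow]

lemma Fm_spec {m : ℕ} (hm1 : 1 ≤ m) (hm4 : m ≤ 4) (x : ℕ) :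
    Polynomial.aeval ((x : ℕ) : k) (FF m) = ((Fm m x : ℕ) : k) := by
  have h5 : (5 : k) = 0 := five
  have : m = 1 ∨ m = 2 ∨ m = 3 ∨ m = 4 := by omega
  rcases this with rfl | rfl | rfl | rfl
  · rw [FF_aeval_nat 1 x le_rfl]
    simp [Fm]
  · rw [FF_two]
    simp only [Fm]
    push_cast
    linear_combination (-(x : k)) * h5
  · rw [FF_three]
    simp only [Fm]
    push_cast
    linear_combination ((x : k) ^ 3 - 2 * (x : k) ^ 2) * h5
  · rw [FF_four]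
    simp only [Fm]
    push_cast
    linear_combination (4 * (x : k) ^ 4 - 10 * (x : k) ^ 3 + 4 * (x : k) ^ 2) * h5

lemma Fm_mod {m x y : ℕ} (hm1 : 1 ≤ m) (hm4 : m ≤ 4) (h : x % 5 = y % 5) :
    ((Fm m x : ℕ) : k) = ((Fm m y : ℕ) : k) := by
  rw [← Fm_spec hm1 hm4, ← Fm_spec hm1 hm4, (CharP.cast_eq_iff_mod_eq k 5).2 h]

/-- `θ` is the root of one of four polynomials -/
lemma theta_type {θ : k} (h12 : θ ^ 12 = -1) (h8 : θ ^ 8 ≠ 1) : ∃ τ < 4, θ ^ 2 = (AA τ : ℕ) * θ + (BB τ : ℕ) := by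
  have h5 : (5 : k) = 0 := five
  have h4 : θ ^ 4 ≠ -1 := by
    intro h
    apply h8
    rw [show 8 = 4 * 2 by norm_num, pow_mul, h]
    ring
  have h1 : (θ ^ 4 + 1) * (θ ^ 8 - θ ^ 4 + 1) = 0 := by linear_combination h12
  rcases mul_eq_zero.1 h1 with h | h
  · exact absurd (eq_neg_of_add_eq_zero_left h) h4
  · have h2 : (θ ^ 2 - (4 * θ + 3)) * (θ ^ 2 - (3 * θ + 2)) * ((θ ^ 2 - (2 * θ + 2)) * (θ ^ 2 - (1 * θ + 3))) = 0 := by
      have e : (θ ^ 2 - (4 * θ + 3)) * (θ ^ 2 - (3 * θ + 2)) * ((θ ^ 2 - (2 * θ + 2)) * (θ ^ 2 - (1 * θ + 3))) =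
          (θ ^ 8 - θ ^ 4 + 1) + 5 * (-2 * θ ^ 7 + 5 * θ ^ 6 + 5 * θ ^ 5 - 23 * θ ^ 4 - 11 * θ ^ 3 + 32 * θ ^ 2 + 30 * θ + 7) := by
        ring
      rw [e, h, h5]
      ring
    rcases mul_eq_zero.1 h2 with h3 | h3
    · rcases mul_eq_zero.1 h3 with h6 | h6
      · exact ⟨0, by norm_num, by simp only [AA, BB]; push_cast; linear_combination h6⟩
      · exact ⟨1, by norm_num, by simp only [AA, BB]; push_cast; linear_combination h6⟩
    · rcases mul_eq_zero.1 h3 with h6 | h6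
      · exact ⟨2, by norm_num, by simp only [AA, BB]; push_cast; linear_combination h6⟩
      · exact ⟨3, by norm_num, by simp only [AA, BB]; push_cast; linear_combination h6⟩

lemma val_pw {θ : k} {τ : ℕ} (hτ : τ < 4) (h : θ ^ 2 = (AA τ : ℕ) * θ + (BB τ : ℕ)) :
    ∀ i, i < 24 → val θ (pw (TT τ) i) = θ ^ i := by
  intro i
  obtain ⟨h0, h1⟩ := TT_spec τ hτ
  induction i with
  | zero =>
    intro _
    rw [h0]
    simp [val]
  | succ i ih =>
    intro hi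
    rw [h1 i (by omega), val_mul h, ih (by omega)]
    have : val θ 5 = θ := by simp [val]
    rw [this, pow_succ]

lemma val_pe {θ : k} {τ : ℕ} (hτ : τ < 4) (h : θ ^ 2 = (AA τ : ℕ) * θ + (BB τ : ℕ)) (h24 : θ ^ 24 = 1)
    (m e y : ℕ) : val θ (pe τ m e y) = ∑ t ∈ range 24, θ ^ (e * t) * ((Fm m (4 * (y + t)) : ℕ) : k) := by
  have key : ∀ n : ℕ, val θ (Nat.rec (motive := fun _ => ℕ) 0 (fun t s => add25 s (smul25
      (Nat.mod (Fm m (4 * (y + t))) 5) (pw (TT τ) (Nat.mod (Nat.mul e t) 24)))) n) =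
      ∑ t ∈ range n, θ ^ (e * t) * ((Fm m (4 * (y + t)) : ℕ) : k) := by
    intro n
    induction n with
    | zero => simp [val]
    | succ n ih =>
      rw [Finset.sum_range_succ, ← ih]
      change val θ (add25 _ (smul25 (Nat.mod (Fm m (4 * (y + n))) 5) (pw (TT τ) (Nat.mod (Nat.mul e n) 24)))) = _
      have e0 : val θ (pw (TT τ) (Nat.mod (Nat.mul e n) 24)) = θ ^ (Nat.mod (Nat.mul e n) 24) :=
        val_pw hτ h _ (Nat.mod_lt _ (by norm_num))
      rw [val_add, val_smul, e0]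
      have e1 : ((Nat.mod (Fm m (4 * (y + n))) 5 : ℕ) : k) = ((Fm m (4 * (y + n)) : ℕ) : k) := cast_mod5 _
      have e2 : θ ^ (Nat.mod (Nat.mul e n) 24) = θ ^ (e * n) := pow_mod24 h24 (Nat.mod_mod _ _)
      rw [e1, e2, mul_comm ((Fm m (4 * (y + n)) : ℕ) : k)]
  exact key 24

lemma pt_eq {τ m e y : ℕ} (hτ : τ < 4) (hm1 : 1 ≤ m) (hm4 : m ≤ 4) (he : e = 1 ∨ e = 5 ∨ e = 7 ∨ e = 11)
    (hy : y < 5) : pt τ m e y = pe τ m e y := by
  have h1 := allb_spec (allb_spec tab_eq τ hτ) (m - 1) (by omega)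
  rw [Nat.sub_add_cancel hm1] at h1
  rcases he with rfl | rfl | rfl | rfl
  · exact Nat.eq_of_beq_eq_true (allb_spec (allb_spec h1 0 (by norm_num)) y hy)
  · exact Nat.eq_of_beq_eq_true (allb_spec (allb_spec h1 1 (by norm_num)) y hy)
  · exact Nat.eq_of_beq_eq_true (allb_spec (allb_spec h1 2 (by norm_num)) y hy)
  · exact Nat.eq_of_beq_eq_true (allb_spec (allb_spec h1 3 (by norm_num)) y hy)

lemma relb_of {θ : k} {τ m μ ζ w c f : ℕ} (hτ : τ < 4) (h : θ ^ 2 = (AA τ : ℕ) * θ + (BB τ : ℕ))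
    (h12 : θ ^ 12 = -1) (h8 : θ ^ 8 ≠ 1) (hm1 : 1 ≤ m) (hm4 : m ≤ 4) (hc : c = 1 ∨ c = 5 ∨ c = 7 ∨ c = 11)
    (hrel : ∑ t ∈ range 24, θ ^ (c * t) * Polynomial.aeval ((4 * (c * μ + t) : ℕ) : k) (FF m) +
      θ ^ w * θ ^ (17 * c * f) * ∑ t ∈ range 24, θ ^ (7 * c * t) *
        Polynomial.aeval ((4 * (c * ζ + 4 * f + t) : ℕ) : k) (FF m) = 0) :
    relb τ m μ ζ w c f = true := by
  have h24 : θ ^ 24 = 1 := by rw [show 24 = 12 * 2 by norm_num, pow_mul, h12]; ring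
  have e1 : ∑ t ∈ range 24, θ ^ (c * t) * Polynomial.aeval ((4 * (c * μ + t) : ℕ) : k) (FF m) =
      val θ (pt τ m c (c * μ % 5)) := by
    rw [pt_eq hτ hm1 hm4 hc (Nat.mod_lt _ (by norm_num)), val_pe hτ h h24]
    refine Finset.sum_congr rfl fun t _ => ?_
    rw [Fm_spec hm1 hm4, Fm_mod hm1 hm4 (x := 4 * (c * μ + t)) (y := 4 * (c * μ % 5 + t)) (by omega)]
  have he : 7 * c % 24 = 1 ∨ 7 * c % 24 = 5 ∨ 7 * c % 24 = 7 ∨ 7 * c % 24 = 11 := by omega
  have e2 : ∑ t ∈ range 24, θ ^ (7 * c * t) * Polynomial.aeval ((4 * (c * ζ + 4 * f + t) : ℕ) : k) (FF m) =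
      val θ (pt τ m (7 * c % 24) ((c * ζ + 4 * f) % 5)) := by
    rw [pt_eq hτ hm1 hm4 he (Nat.mod_lt _ (by norm_num)), val_pe hτ h h24]
    refine Finset.sum_congr rfl fun t _ => ?_
    rw [Fm_spec hm1 hm4, Fm_mod hm1 hm4 (x := 4 * (c * ζ + 4 * f + t)) (y := 4 * ((c * ζ + 4 * f) % 5 + t)) (by omega)]
    congr 1
    exact pow_mod24 h24 (Nat.ModEq.mul_right t (Nat.mod_modEq (7 * c) 24)).symm
  have e3 : θ ^ w * θ ^ (17 * c * f) = val θ (pw (TT τ) ((w + 17 * c * f) % 24)) := by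
    rw [val_pw hτ h _ (Nat.mod_lt _ (by norm_num)), ← pow_add]
    exact pow_mod24 h24 (Nat.mod_mod _ _).symm
  rw [e1, e2, e3, ← val_mul h, ← val_add] at hrel
  have e4 := mk_eq_zero (ne_nat h12 h8) hrel
  unfold relb
  have e5 : add25 (pt τ m c (c * μ % 5)) (mul25 (AA τ) (BB τ) (pw (TT τ) ((w + 17 * c * f) % 24))
    (pt τ m (7 * c % 24) ((c * ζ + 4 * f) % 5))) = 0 := e4
  rw [e5]
  rfl

lemma cons_of {c d z M : ℕ} (hM : 0 < M) (hc : 0 < c) (hd : 0 < d) : cons c (c * z / M) d (d * z / M) = true := by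
  have h1 := Nat.mod_add_div (c * z) M
  have h2 := Nat.mod_add_div (d * z) M
  have h3 : c * z % M < M := Nat.mod_lt _ hM
  have h4 : d * z % M < M := Nat.mod_lt _ hM
  set f := c * z / M
  set g := d * z / M
  have key : ∀ c d f g : ℕ, 0 < c → 0 < d → M * f ≤ c * z → d * z < M * (g + 1) → d * f + 1 ≤ c * (g + 1) := by
    intro c d f g hc hd h1 h2
    have e1 : d * (M * f) ≤ d * (c * z) := Nat.mul_le_mul_left _ h1
    have e2 : c * (d * z) < c * (M * (g + 1)) := Nat.mul_lt_mul_of_pos_left h2 hc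
    have e3 : M * (d * f) < M * (c * (g + 1)) := by
      calc M * (d * f) = d * (M * f) := by ring
        _ ≤ d * (c * z) := e1
        _ = c * (d * z) := by ring
        _ < c * (M * (g + 1)) := e2
        _ = M * (c * (g + 1)) := by ring
    exact Nat.lt_of_mul_lt_mul_left e3
  unfold cons
  rw [Bool.and_eq_true]
  refine ⟨Nat.ble_eq_true_of_le ?_, Nat.ble_eq_true_of_le ?_⟩
  · exact key c d f g hc hd (by omega) (by rw [mul_add, mul_one]; omega)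
  · exact key d c g f hd hc (by omega) (by rw [mul_add, mul_one]; omega)

/-- the sum is not zero for `a ≥ 6`, `b ≥ 2` -/
theorem c4 {a b m : ℕ} (ψ₁ : MulChar (ZMod (2 ^ a)) k) (ψ₂ : MulChar (ZMod (3 ^ b)) k)
    (ha : 6 ≤ a) (hb : 2 ≤ b) (hm1 : 1 ≤ m) (hm4 : m ≤ 4)
    (hprim₁ : ψ₁ ((1 + 2 ^ (a - 1) : ℕ) : ZMod (2 ^ a)) ≠ 1)
    (hprim₂ : ψ₂ ((1 + 3 ^ (b - 1) : ℕ) : ZMod (3 ^ b)) ≠ 1)
    (hpar : ψ₁ (-1) * ψ₂ (-1) = (-1) ^ m) :
    ∑ x ∈ range (2 ^ a * 3 ^ b), ψ₁ (x : ZMod (2 ^ a)) * ψ₂ (x : ZMod (3 ^ b)) *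
      Polynomial.aeval ((x : k) / (2 ^ a * 3 ^ b : ℕ)) (FF m) ≠ 0 := by
  intro hS
  obtain ⟨θ, ω, μ, ζ, z, M, h12, h8, hω, hμ0, hμ5, hζ, hM, hz, hrel⟩ := pair_rel ψ₁ ψ₂ ha hb hprim₁ hprim₂ hpar hS
  obtain ⟨τ, hτ, hθ⟩ := theta_type h12 h8
  have h24 : θ ^ 24 = 1 := by rw [show 24 = 12 * 2 by norm_num, pow_mul, h12]; ring
  have hne : (-1 : k) ≠ 1 := by
    intro h
    have : ((2 : ℕ) : k) = 0 := by push_cast; linear_combination -h
    exact ne_of_not_dvd 2 (by norm_num) this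
  have hprim : IsPrimitiveRoot θ 24 := by
    refine (IsPrimitiveRoot.iff_orderOf).2 ?_
    refine orderOf_eq_of_pow_and_pow_div_prime (by norm_num) h24 ?_
    intro q hq hq24
    have : q = 2 ∨ q = 3 := by
      have h1 : q ∈ Nat.primeFactors 24 := Nat.mem_primeFactors.2 ⟨hq, hq24, by norm_num⟩
      have h2 : Nat.primeFactors 24 = {2, 3} := by decide +kernel
      rw [h2] at h1
      simpa using h1
    rcases this with rfl | rfl
    · rw [show 24 / 2 = 12 by norm_num, h12]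
      exact hne
    · rw [show 24 / 3 = 8 by norm_num]
      exact h8
  obtain ⟨w, hw, rfl⟩ := hprim.eq_pow_of_pow_eq_one hω
  have hM0 : 0 < M := by omega
  have r : ∀ c, c = 1 ∨ c = 5 ∨ c = 7 ∨ c = 11 → relb τ m μ ζ w c (c * z / M) = true := by
    intro c hc
    refine relb_of hτ hθ h12 h8 hm1 hm4 hc (hrel c ?_ ?_)
    · rcases hc with rfl | rfl | rfl | rfl <;> norm_num
    · omega
  have hok := allb_spec (allb_spec (allb_spec (allb_spec (allb_spec okall_true τ hτ) (m - 1) (by omega))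
    (μ - 1) (by omega)) ζ hζ) w hw
  rw [Nat.sub_add_cancel hm1, Nat.sub_add_cancel hμ0] at hok
  have r1 := r 1 (by norm_num)
  have r5 := r 5 (by norm_num)
  have r7 := r 7 (by norm_num)
  have r11 := r 11 (by norm_num)
  rw [one_mul, Nat.div_eq_of_lt hz] at r1
  have hlt : ∀ c, 0 < c → c * z / M < c := by
    intro c hc
    rw [Nat.div_lt_iff_lt_mul hM0]
    exact Nat.mul_lt_mul_of_pos_left hz hc
  have hok1 : (!relb τ m μ ζ w 1 0 || allb 5 fun f => (!relb τ m μ ζ w 5 f || allb 7 fun g =>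
    (!cons 5 f 7 g || (!relb τ m μ ζ w 7 g || allb 11 fun h =>
      (!cons 5 f 11 h || (!cons 7 g 11 h || !relb τ m μ ζ w 11 h)))))) = true := hok
  rw [r1, Bool.not_true, Bool.false_or] at hok1
  have hok2 := allb_spec hok1 (5 * z / M) (hlt 5 (by norm_num))
  rw [r5, Bool.not_true, Bool.false_or] at hok2
  have hok3 := allb_spec hok2 (7 * z / M) (hlt 7 (by norm_num))
  rw [cons_of hM0 (by norm_num) (by norm_num), r7, Bool.not_true, Bool.false_or, Bool.false_or] at hok3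
  have hok4 := allb_spec hok3 (11 * z / M) (hlt 11 (by norm_num))
  rw [cons_of hM0 (by norm_num) (by norm_num), cons_of hM0 (by norm_num) (by norm_num), r11, Bool.not_true,
    Bool.false_or, Bool.false_or] at hok4
  exact Bool.false_ne_true hok4

end

end Pool.Agent.X218.GX
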