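import Pool.Agent.Y18.GX.Class

/-!
# The sums over the classes for two primes
-/

set_option autoImplicit false

namespace Pool.Agent.X218.GX

open Finset
open Pool.Agent.Y18.GX

section
variable {k : Type*} [Field k] {p : ℕ} [Fact p.Prime] [CharP k p]

/-- the sum over two opposite classes -/
theorem two_classes {ℓ n K g u : ℕ} (ψ₂ : MulChar (ZMod (ℓ ^ K)) k)
    (hp2 : p ≠ 2) (hA : Adm ℓ (p ^ g)) (hn1 : 1 ≤ n) (hn : 2 * n ≤ K)
    (hq : p ^ g - 1 = ℓ ^ n * u) (hu : u.Coprime ℓ)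
    (hprim : ψ₂ ((1 + ℓ ^ (K - 1) : ℕ) : ZMod (ℓ ^ K)) ≠ 1) (hℓk : (ℓ : k) ≠ 0)
    (N : ℕ) (G : ℕ → k) (hG : ∀ a, G a ^ p ^ g = G a)
    (hS : ∑ a ∈ range N, ψ₂ (a : ZMod (ℓ ^ K)) * G a = 0)
    (b : ℕ) (hb : b < ℓ ^ (K - n)) (hbℓ : ¬ ℓ ∣ b) :
    ∑ a ∈ range N, (if a % ℓ ^ (K - n) = b ∨ a % ℓ ^ (K - n) = ℓ ^ (K - n) - b then
      ψ₂ (a : ZMod (ℓ ^ K)) * G a else 0) = 0 := by
  have hℓ := hA.prime
  have hp := (Fact.out : p.Prime)
  set M := ℓ ^ (K - n) with hM
  have hM0 : 0 < M := Nat.pos_of_ne_zero (pow_ne_zero _ hℓ.ne_zero)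
  have hMn : ℓ ^ n ∣ M := pow_dvd_pow _ (by omega)
  have hq1 : 1 ≤ p ^ g := Nat.one_le_pow _ _ hp.pos
  have hqodd : Even (p ^ g - 1) := by
    have h1 : Odd (p ^ g) := (hp.odd_of_ne_two hp2).pow
    exact Nat.Odd.sub_odd h1 odd_one
  have hb0 : b ≠ 0 := by
    rintro rfl
    exact hbℓ (dvd_zero _)
  have hbcop : b.Coprime (ℓ ^ K) :=
    Nat.Coprime.pow_right _ ((Nat.Prime.coprime_iff_not_dvd hℓ).2 hbℓ).symm
  have hunit : ∀ a : ℕ, ¬ ℓ ∣ a → IsUnit (a : ZMod (ℓ ^ K)) := fun a ha =>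
    (ZMod.isUnit_iff_coprime a (ℓ ^ K)).2
      (Nat.Coprime.pow_right _ ((Nat.Prime.coprime_iff_not_dvd hℓ).2 ha).symm)
  have hnunit : ∀ a : ℕ, ℓ ∣ a → ψ₂ (a : ZMod (ℓ ^ K)) = 0 := by
    intro a ha
    apply ψ₂.map_nonunit
    intro h
    have h1 := (ZMod.isUnit_iff_coprime a (ℓ ^ K)).1 h
    have h2 := Nat.dvd_gcd ha (dvd_pow_self ℓ (show K ≠ 0 by omega))
    rw [h1] at h2
    exact hℓ.one_lt.ne' (Nat.dvd_one.1 h2)
  -- Frobenius
  have hSj : ∀ j, ∑ a ∈ range N, ψ₂ (a : ZMod (ℓ ^ K)) ^ (p ^ g) ^ j * G a = 0 := by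
    intro j
    have h1 := congrArg (iterateFrobenius k p (g * j)) hS
    rw [map_zero, map_sum] at h1
    rw [← h1]
    refine Finset.sum_congr rfl fun a _ => ?_
    rw [iterateFrobenius_def, mul_pow, pow_mul]
    congr 1
    have h2 : ∀ j, G a ^ (p ^ g) ^ j = G a := by
      intro j
      induction j with
      | zero => simp
      | succ j ih => rw [pow_succ, pow_mul, ih, hG]
    rw [h2]
  -- the inverse of `b`
  set β := ψ₂ (b : ZMod (ℓ ^ K)) with hβ
  have hβ0 : β ≠ 0 := ((hunit b hbℓ).map ψ₂).ne_zero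
  obtain ⟨b', hb'⟩ : ∃ b' : ℕ, (b : ZMod (ℓ ^ K)) * b' = 1 := by
    have : NeZero (ℓ ^ K) := ⟨pow_ne_zero _ hℓ.ne_zero⟩
    refine ⟨((b : ZMod (ℓ ^ K))⁻¹).val, ?_⟩
    rw [ZMod.natCast_val, ZMod.cast_id', id_eq]
    exact ZMod.coe_mul_inv_eq_one b hbcop
  have hβ' : ψ₂ (b' : ZMod (ℓ ^ K)) = β⁻¹ := by
    apply eq_inv_of_mul_eq_one_left
    rw [hβ, ← map_mul, mul_comm, hb', map_one]
  have hb'M : b * b' ≡ 1 [MOD M] := by
    have h1 : b * b' ≡ 1 [MOD ℓ ^ K] := by
      rw [← ZMod.natCast_eq_natCast_iff]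
      push_cast
      exact hb'
    exact h1.of_dvd (pow_dvd_pow _ (by omega))
  have hb'0 : ¬ ℓ ∣ b' := by
    intro h
    have h1 : b * b' ≡ 1 [MOD ℓ] := hb'M.of_dvd ((dvd_pow_self ℓ (by omega)).trans hMn)
    have h2 : b * b' ≡ 0 [MOD ℓ] := (Nat.modEq_zero_iff_dvd).2 (h.mul_left b)
    have h4 := h2.symm.trans h1
    have h5 := (Nat.modEq_iff_dvd' (Nat.zero_le 1)).1 h4
    exact hℓ.one_lt.ne' (Nat.dvd_one.1 h5)
  -- the traces
  have hT : ∀ a : ℕ, ∑ j ∈ range (ℓ ^ K), (ψ₂ (a : ZMod (ℓ ^ K)) * β⁻¹) ^ (p ^ g) ^ j =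
      if a % M = b ∨ a % M = M - b then (ℓ ^ K : ℕ) * (ψ₂ (a : ZMod (ℓ ^ K)) * β⁻¹) else 0 := by
    intro a
    by_cases ha : ℓ ∣ a
    · rw [hnunit a ha]
      have h1 : ∀ j, ((0 : k) * β⁻¹) ^ (p ^ g) ^ j = 0 := fun j => by
        rw [zero_mul, zero_pow]
        exact (Nat.pos_of_ne_zero (pow_ne_zero _ (by omega))).ne'
      rw [Finset.sum_eq_zero fun j _ => h1 j, zero_mul, mul_zero, ite_self]
    · have hz : ψ₂ (a : ZMod (ℓ ^ K)) * β⁻¹ = ψ₂ ((a * b' : ℕ) : ZMod (ℓ ^ K)) := by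
        rw [← hβ', ← map_mul]
        push_cast
        rfl
      have hcℓ : ¬ ℓ ∣ a * b' := fun h => by
        rcases (hℓ.dvd_mul).1 h with h | h
        · exact ha h
        · exact hb'0 h
      have hc0 : a * b' ≠ 0 := fun h => hcℓ (h ▸ dvd_zero _)
      have hz0 : ψ₂ ((a * b' : ℕ) : ZMod (ℓ ^ K)) ≠ 0 := ((hunit _ hcℓ).map ψ₂).ne_zero
      have hab : a * b' * b ≡ a [MOD M] := by
        calc a * b' * b = a * (b * b') := by ring
          _ ≡ a * 1 [MOD M] := hb'M.mul_left a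
          _ = a := mul_one a
      rw [hz]
      split_ifs with hcase
      · refine trace_one _ hq1 (kernel_conv ψ₂ hn hqodd hq hc0
          (Nat.one_le_pow _ _ hℓ.pos) ?_)
        rcases hcase with h1 | h1
        · left
          have h2 : a ≡ b [MOD M] := by
            rw [Nat.ModEq, h1, Nat.mod_eq_of_lt hb]
          have h4 : 1 ≡ a * b' [MOD M] := (h2.mul_right b' |>.trans hb'M).symm
          exact (Nat.modEq_iff_dvd' (Nat.pos_of_ne_zero hc0)).1 h4
        · right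
          have h2 : a + b ≡ 0 [MOD M] := by
            have h4 : a ≡ M - b [MOD M] := by
              rw [Nat.ModEq, h1, Nat.mod_eq_of_lt (by omega)]
            have h5 := h4.add_right b
            rw [Nat.sub_add_cancel hb.le] at h5
            exact h5.trans (Nat.modEq_zero_iff_dvd.2 dvd_rfl)
          have h4 : a * b' + b * b' ≡ 0 [MOD M] := by
            have := h2.mul_right b'
            rwa [add_mul, zero_mul] at this
          exact Nat.modEq_zero_iff_dvd.1 ((hb'M.symm.add_left (a * b')).trans h4)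
      · refine trace_zero hA _ hz0 ?_ ?_
        · intro h1
          apply hcase
          rcases kernel ψ₂ hA hn hn1 hprim hq hu
            ((Nat.Prime.coprime_iff_not_dvd hℓ).2 hcℓ).symm h1 with h2 | h2
          · left
            have h4 : 1 ≡ a * b' [MOD M] := (Nat.modEq_iff_dvd' (Nat.pos_of_ne_zero hc0)).2 h2
            have h5 : b ≡ a [MOD M] := by
              have := (h4.mul_right b).trans hab
              rwa [one_mul] at this
            rw [← Nat.mod_eq_of_lt hb]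
            exact h5.symm
          · right
            have h4 : (a * b' + 1) * b ≡ 0 [MOD M] := Nat.modEq_zero_iff_dvd.2 (h2.mul_right b)
            rw [add_mul, one_mul] at h4
            have h5 : a + b ≡ 0 [MOD M] := (hab.symm.add_right b).trans h4
            have h6 : a + b ≡ (M - b) + b [MOD M] := by
              rw [Nat.sub_add_cancel hb.le]
              exact h5.trans (Nat.modEq_zero_iff_dvd.2 dvd_rfl).symm
            have h7 : a ≡ M - b [MOD M] := Nat.ModEq.add_right_cancel' b h6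
            rw [Nat.ModEq, Nat.mod_eq_of_lt (show M - b < M by omega)] at h7
            exact h7
        · rw [← pow_mul, ← map_pow]
          have h1 : ((a * b' : ℕ) : ZMod (ℓ ^ K)) ^ ((p ^ g - 1) * ℓ ^ K) = 1 := by
            obtain ⟨U, hU⟩ := hunit _ hcℓ
            rw [← hU, ← Units.val_pow_eq_pow_val]
            have h2 := ZMod.pow_totient U
            rw [Nat.totient_prime_pow hℓ (by omega)] at h2
            have h4 : ℓ - 1 ∣ p ^ g - 1 := by
              rcases hA with ⟨h5, -⟩ | ⟨h5, -⟩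
              · rw [h5]
                exact even_iff_two_dvd.1 hqodd
              · rw [h5]
                exact one_dvd _
            obtain ⟨w, hw⟩ := h4
            have h5 : (p ^ g - 1) * ℓ ^ K = (ℓ ^ (K - 1) * (ℓ - 1)) * (w * ℓ) := by
              rw [hw]
              have : ℓ ^ K = ℓ ^ (K - 1) * ℓ := by
                rw [← pow_succ]
                congr 1
                omega
              rw [this]
              ring
            rw [h5, pow_mul, h2, one_pow, Units.val_one]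
          rw [h1, map_one]
  have h1 : ∑ j ∈ range (ℓ ^ K), (β⁻¹) ^ (p ^ g) ^ j * ∑ a ∈ range N,
      ψ₂ (a : ZMod (ℓ ^ K)) ^ (p ^ g) ^ j * G a = 0 := by
    simp only [hSj, mul_zero, Finset.sum_const_zero]
  simp only [Finset.mul_sum] at h1
  rw [Finset.sum_comm] at h1
  have h2 : ∀ a ∈ range N, ∑ j ∈ range (ℓ ^ K), (β⁻¹) ^ (p ^ g) ^ j * (
      ψ₂ (a : ZMod (ℓ ^ K)) ^ (p ^ g) ^ j * G a) =
      ((ℓ ^ K : ℕ) * β⁻¹) * (if a % M = b ∨ a % M = M - b then ψ₂ (a : ZMod (ℓ ^ K)) * G a else 0) := by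
    intro a _
    have h4 : ∀ j, (β⁻¹) ^ (p ^ g) ^ j * (ψ₂ (a : ZMod (ℓ ^ K)) ^ (p ^ g) ^ j * G a) =
        G a * (ψ₂ (a : ZMod (ℓ ^ K)) * β⁻¹) ^ (p ^ g) ^ j := by
      intro j
      rw [mul_pow]
      ring
    simp only [h4]
    rw [← Finset.mul_sum, hT]
    split_ifs
    · ring
    · ring
  rw [Finset.sum_congr rfl h2, ← Finset.mul_sum] at h1
  rcases mul_eq_zero.1 h1 with h4 | h4
  · exfalso
    rcases mul_eq_zero.1 h4 with h5 | h5
    · push_cast at h5
      exact pow_ne_zero _ hℓk h5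
    · exact inv_ne_zero hβ0 h5
  · exact h4

/-- reflection -/
theorem refl_class {m N M : ℕ} (hMN : M ∣ N) (hM0 : 0 < M) (F : Polynomial ℤ) (c : k)
    (hF : ∀ x : k, Polynomial.aeval (1 - x) F = (-1) ^ m * Polynomial.aeval x F + c)
    (Ψ : ℕ → k) (hΨ : ∀ j, j ≤ N → Ψ (N - j) = (-1) ^ m * Ψ j) (hNk0 : ((N : ℕ) : k) ≠ 0)
    (b : ℕ) (hb0 : b ≠ 0) (hb : b < M) :
    ∑ a ∈ range N, (if a % M = M - b then Ψ a * Polynomial.aeval ((a : k) / (N : ℕ)) F else 0) =
      ∑ a ∈ range N, (if a % M = b then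
      (Ψ a * Polynomial.aeval ((a : k) / (N : ℕ)) F + (-1) ^ m * c * Ψ a) else 0) := by
  have hNM : N % M = 0 := Nat.mod_eq_zero_of_dvd hMN
  have h1 : ∑ a ∈ range (N + 1), (if a % M = M - b then Ψ a * Polynomial.aeval ((a : k) / (N : ℕ)) F else 0) =
    ∑ a ∈ range N, (if a % M = M - b then Ψ a * Polynomial.aeval ((a : k) / (N : ℕ)) F else 0) := by
    rw [Finset.sum_range_succ, if_neg, add_zero]
    omega
  have h2 : ∑ a ∈ range (N + 1), (if a % M = b then
      (Ψ a * Polynomial.aeval ((a : k) / (N : ℕ)) F + (-1) ^ m * c * Ψ a) else 0) =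
    ∑ a ∈ range N, (if a % M = b then
      (Ψ a * Polynomial.aeval ((a : k) / (N : ℕ)) F + (-1) ^ m * c * Ψ a) else 0) := by
    rw [Finset.sum_range_succ, if_neg, add_zero]
    omega
  rw [← h1, ← h2, ← Finset.sum_range_reflect]
  refine Finset.sum_congr rfl fun j hj => ?_
  have hj' : j ≤ N := by
    have := mem_range.1 hj
    omega
  rw [Nat.add_sub_cancel]
  have h4 : (N - j) % M = M - b ↔ j % M = b := by
    obtain ⟨w, hw⟩ := hMN
    constructor
    · intro h
      have h5 := Nat.mod_add_div (N - j) M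
      have h6 := Nat.mod_add_div j M
      have h7 : j % M < M := Nat.mod_lt _ hM0
      have h8 : (M - b) + j % M + M * ((N - j) / M + j / M) = M * w := by
        rw [← hw, mul_add]
        omega
      have h9 : M ∣ (M - b) + j % M := by
        refine (Nat.dvd_add_left (dvd_mul_right M ((N - j) / M + j / M))).1 ?_
        rw [h8]
        exact dvd_mul_right _ _
      obtain ⟨v, hv⟩ := h9
      have hv1 : v = 1 := by
        rcases Nat.lt_or_ge v 1 with h | h
        · have : v = 0 := by omega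
          subst this
          omega
        · rcases Nat.lt_or_ge 1 v with h' | h'
          · have : M * 2 ≤ M * v := Nat.mul_le_mul_left _ h'
            omega
          · omega
      subst hv1
      omega
    · intro h
      have h6 := Nat.mod_add_div j M
      rw [h] at h6
      have h7 : j / M < w := by
        by_contra hcon
        push Not at hcon
        have : M * w ≤ M * (j / M) := Nat.mul_le_mul_left _ hcon
        omega
      have h8 : N - j = (M - b) + M * (w - 1 - j / M) := by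
        have h9 : M * w = M * (w - 1 - j / M) + M * (j / M) + M := by
          have : w = (w - 1 - j / M) + j / M + 1 := by omega
          conv_lhs => rw [this]
          ring
        omega
      rw [h8, Nat.add_mul_mod_self_left, Nat.mod_eq_of_lt (by omega)]
  by_cases h5 : j % M = b
  · rw [if_pos h5, if_pos (h4.2 h5)]
    have e3 : (((N - j : ℕ) : k) / (N : ℕ)) = 1 - (j : k) / (N : ℕ) := by
      rw [Nat.cast_sub hj', sub_div, div_self hNk0]
    rw [hΨ j hj', e3, hF]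
    have e4 : ((-1 : k) ^ m) * (-1) ^ m = 1 := by
      rw [← mul_pow]
      simp
    linear_combination Ψ j * Polynomial.aeval ((j : k) / (N : ℕ)) F * e4
  · rw [if_neg h5, if_neg (fun h => h5 (h4.1 h))]

end

/-- the classes modulo `M₂ M₃` -/
lemma crt_class {M₂ M₃ c x : ℕ} (hcop : M₂.Coprime M₃) (hc : c < M₂ * M₃) :
    x % (M₂ * M₃) = c ↔ x % M₂ = c % M₂ ∧ x % M₃ = c % M₃ := by
  constructor
  · intro h
    rw [← h, Nat.mod_mul_right_mod, Nat.mod_mul_left_mod]
    exact ⟨rfl, rfl⟩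
  · rintro ⟨h1, h2⟩
    have h3 : x ≡ c [MOD M₂ * M₃] := (Nat.modEq_and_modEq_iff_modEq_mul hcop).1 ⟨h1, h2⟩
    rw [Nat.ModEq, Nat.mod_eq_of_lt hc] at h3
    exact h3

end Pool.Agent.X218.GX
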